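import Pool.Agent.MLB.St
import Pool.Agent.Mir.Prob

/-!
# The mirror model: module `AA`

First main result: `Pn p n ≥ c (log n) ^ (1/10) / n` for `0 < p < 1`. For large `n` the towers of `St_TwA` with the parameters of `St_AsA`
give a scale between `n + 1` and `2 (n + 1)`; for small `n` the inequality on the cylinder at time `1`.
-/

set_option autoImplicit false

open MeasureTheory Filter Mir Pool.Agent.MSB

noncomputable section

namespace Pool.Agent.MLB

namespace AAx

/-- `P` is antitone in the distance -/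
theorem P_anti {p : ℝ} (h0 : 0 ≤ p) (h1 : p ≤ 1) {a b : ℕ} (hab : a ≤ b) : P p b ≤ P p a := by
  have := mir_isProb h0 h1
  unfold P
  refine measureReal_mono ?_ (measure_ne_top _ _)
  rintro ω ⟨i, hi, h⟩
  exact ⟨i, hi, hab.trans h⟩

/-- the probability to have distance `h ≥ 1` at a time `< 1` is zero -/
theorem qf_one (hB : St_Bas) (p : ℝ) {h : ℕ} (hh : 1 ≤ h) : qf p h 1 = 0 := by
  obtain ⟨-, -, -, -, -, -, -, -, hn, -⟩ := hB
  have h0 : Hit h (tm 1) s0 = ∅ := by
    ext ω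
    simp only [Set.mem_empty_iff_false, iff_false]
    rintro ⟨i, hi, h2⟩
    have h3 : (i : ℝ) < 1 := hi
    have h4 : i < 1 := by exact_mod_cast h3
    have h5 := hn ω s0 i
    omega
  unfold qf
  rw [h0]
  simp

/-- the lower bound for the probability to reach distance `h` from the cylinder at time `1` -/
theorem P_low (hCyl : St_Cyl) (hB : St_Bas) {p : ℝ} (h0 : 0 ≤ p) (h1 : p ≤ 1) {h : ℕ} (hh : 1 ≤ h) :
    1 / (4 * (h : ℝ) * (2 * h + 1)) ≤ P p h := by
  have h2 := hCyl p h0 h1 h 1 hh zero_le_one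
  rw [qf_one hB p hh, mul_zero, sub_zero, mul_one] at h2
  have h3 : (0 : ℝ) < 4 * (h : ℝ) * (2 * h + 1) := by
    have : (1 : ℝ) ≤ h := by exact_mod_cast hh
    positivity
  rw [div_le_iff₀ h3]
  linarith

/-- the power of the logarithm is at most `n` -/
theorem lg_le {n : ℕ} (hn : 2 ≤ n) : (Real.log n) ^ (1 / 10 : ℝ) ≤ n := by
  have h1 : (1 : ℝ) ≤ n := by exact_mod_cast (by omega : 1 ≤ n)
  have h2 : 0 ≤ Real.log n := Real.log_nonneg h1
  have h3 : Real.log n ≤ n := by
    have := Real.log_le_sub_one_of_pos (lt_of_lt_of_le one_pos h1)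
    linarith
  calc (Real.log n) ^ (1 / 10 : ℝ) ≤ (n : ℝ) ^ (1 / 10 : ℝ) := Real.rpow_le_rpow h2 h3 (by norm_num)
    _ ≤ (n : ℝ) ^ (1 : ℝ) := Real.rpow_le_rpow_of_exponent_le h1 (by norm_num)
    _ = n := Real.rpow_one _

end AAx

open AAx

theorem thm_AA (hTA : St_TA) (hTwA : St_TwA) (hAsA : St_AsA) (hTw3 : St_Tw3) (hCyl : St_Cyl) (hBas : St_Bas) :
    St_AA := by
  intro p hp0 hp1
  obtain ⟨A, hA, hcond⟩ := hTA p hp0 hp1
  obtain ⟨n0, hn0⟩ := hAsA A hA
  have hPn : ∀ n, P p (n + 1) ≤ Pn p n := hBas.2.2.2.2.2.2.2.2.2.2 p hp0.le hp1.le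
  have hden : (1 : ℝ) ≤ ((n0 : ℝ) + 1) * (2 * n0 + 3) := by
    have : (0 : ℝ) ≤ n0 := Nat.cast_nonneg _
    nlinarith
  have hc0 : (0 : ℝ) < 24 * (((n0 : ℝ) + 1) * (2 * n0 + 3)) := by linarith
  refine ⟨1 / (24 * (((n0 : ℝ) + 1) * (2 * n0 + 3))), by positivity, ?_⟩
  intro n hn
  have hn1 : (2 : ℝ) ≤ n := by exact_mod_cast hn
  have hnpos : (0 : ℝ) < n := by linarith
  have hL0 : 0 ≤ (Real.log n) ^ (1 / 10 : ℝ) := Real.rpow_nonneg (Real.log_nonneg (by linarith)) _
  rcases le_or_gt n0 n with hcase | hcase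
  · obtain ⟨K, J, hK, h4K, h20, hpow, hlog⟩ := hn0 (n + 1) (by omega)
    obtain ⟨⟨H, hT, hH1, hH2⟩, -⟩ := hTwA p A K J (n + 1) hA (by omega) hcond hpow
    have hHN : H ≤ 2 * (n + 1) := by omega
    have h3 := hTw3 p hp0.le hp1.le K (J + 1) H (2 * (n + 1)) (by omega) hT hHN (by push_cast at h20 ⊢; exact h20)
    have h4 : P p H ≤ Pn p n := (P_anti hp0.le hp1.le hH1).trans (hPn n)
    refine le_trans ?_ (h3.trans h4)
    have hHpos : (0 : ℝ) < H := by
      have : 1 ≤ H := by omega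
      exact_mod_cast this
    have hHle : (H : ℝ) ≤ 4 * n := by
      have : H ≤ 4 * n := by omega
      exact_mod_cast this
    have hlog2 : 4 * (Real.log n) ^ (1 / 10 : ℝ) ≤ (4 / 3 : ℝ) ^ (J + 1) := by
      refine le_trans ?_ hlog
      have h5 : Real.log n ≤ Real.log ((n + 1 : ℕ) : ℝ) := by
        apply Real.log_le_log hnpos
        push_cast
        linarith
      have h6 := Real.rpow_le_rpow (Real.log_nonneg (by linarith : (1 : ℝ) ≤ n)) h5 (by norm_num : (0 : ℝ) ≤ 1 / 10)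
      linarith
    calc 1 / (24 * (((n0 : ℝ) + 1) * (2 * n0 + 3))) * (Real.log n) ^ (1 / 10 : ℝ) / n
        ≤ 1 / 24 * (Real.log n) ^ (1 / 10 : ℝ) / n := by
          apply div_le_div_of_nonneg_right _ hnpos.le
          apply mul_le_mul_of_nonneg_right _ hL0
          apply one_div_le_one_div_of_le (by norm_num)
          linarith
      _ = 4 * (Real.log n) ^ (1 / 10 : ℝ) / (24 * (4 * n)) := by
          field_simp
      _ ≤ (4 / 3 : ℝ) ^ (J + 1) / (24 * H) := by
          apply div_le_div₀ (by positivity) hlog2 (by positivity)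
          linarith
  · have h1 := (P_low hCyl hBas hp0.le hp1.le (h := n + 1) (by omega)).trans (hPn n)
    refine le_trans ?_ h1
    have hnn : (n : ℝ) ≤ n0 := by exact_mod_cast hcase.le
    calc 1 / (24 * (((n0 : ℝ) + 1) * (2 * n0 + 3))) * (Real.log n) ^ (1 / 10 : ℝ) / n
        ≤ 1 / (24 * (((n0 : ℝ) + 1) * (2 * n0 + 3))) * n / n := by
          apply div_le_div_of_nonneg_right _ hnpos.le
          apply mul_le_mul_of_nonneg_left (lg_le hn)
          positivity
      _ = 1 / (24 * (((n0 : ℝ) + 1) * (2 * n0 + 3))) := by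
          field_simp
      _ ≤ 1 / (4 * ((n + 1 : ℕ) : ℝ) * (2 * ((n + 1 : ℕ) : ℝ) + 1)) := by
          apply one_div_le_one_div_of_le (by positivity)
          push_cast
          have h5 : ((n : ℝ) + 1) * (2 * (n + 1) + 1) ≤ ((n0 : ℝ) + 1) * (2 * n0 + 3) := by
            apply mul_le_mul (by linarith) (by linarith) (by positivity) (by positivity)
          nlinarith

end Pool.Agent.MLB
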