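import Pool.Agent.MLB.St

/-!
# MLB (MP_b6bbcf_pr), AsA: choice of the parameters, I
-/

set_option autoImplicit false

open Filter Asymptotics Topology

namespace Pool.Agent.MLB

private theorem AsA_e1 : ∀ᶠ t : ℝ in atTop, 4 ≤ t ^ (8 / 10000 : ℝ) :=
  (tendsto_rpow_atTop (by norm_num)).eventually_ge_atTop 4

private theorem AsA_e2 (c : ℝ) :
    ∀ᶠ t : ℝ in atTop, 14 * (c + Real.log t) ≤ t ^ (28 / 1000 : ℝ) := by
  have h1 : (fun t : ℝ => 14 * (c + Real.log t)) =o[atTop] fun t => t ^ (28 / 1000 : ℝ) := by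
    have h2 : (fun t : ℝ => Real.log t) =o[atTop] fun t => t ^ (28 / 1000 : ℝ) :=
      isLittleO_log_rpow_atTop (by norm_num)
    have h3 : (fun _ : ℝ => c) =o[atTop] fun t : ℝ => t ^ (28 / 1000 : ℝ) := by
      apply isLittleO_const_left.mpr
      right
      exact tendsto_norm_atTop_atTop.comp (tendsto_rpow_atTop (by norm_num))
    exact (h3.add h2).const_mul_left 14
  have h4 := h1.bound (c := 1) one_pos
  filter_upwards [h4, eventually_ge_atTop 0] with t ht ht0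
  rw [one_mul, Real.norm_eq_abs, Real.norm_eq_abs, abs_of_nonneg (Real.rpow_nonneg ht0 _)] at ht
  exact le_trans (le_abs_self _) ht

private theorem AsA_log43 : (28 : ℝ) / 100 ≤ Real.log (4 / 3) := by
  have h := Real.sum_range_le_log_div (x := (1 : ℝ) / 7) (by norm_num) (by norm_num) 1
  norm_num at h
  linarith

private theorem AsA_log14 : Real.log 14 ≤ 27 / 10 := by
  have h1 : (14 : ℝ) ^ 9 ≤ 2 ^ 35 := by norm_num
  have h2 := Real.log_le_log (by norm_num) h1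
  rw [Real.log_pow, Real.log_pow] at h2
  have h3 := Real.log_two_lt_d9
  push_cast at h2
  linarith

private theorem AsA_K (n : ℕ) (hn : 1 ≤ n) (ht : 1 ≤ Real.log n) :
    ((20 + 10 * Nat.log 2 (2 * n) : ℕ) : ℝ) ≤ 50 * Real.log n := by
  have h1 : 2 ^ Nat.log 2 (2 * n) ≤ 2 * n := Nat.pow_log_le_self 2 (by omega)
  have h2 : (2 : ℝ) ^ Nat.log 2 (2 * n) ≤ 2 * n := by exact_mod_cast h1
  have hn0 : (0 : ℝ) < n := by exact_mod_cast hn
  have h3 := Real.log_le_log (by positivity) h2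
  rw [Real.log_pow, Real.log_mul (by norm_num) hn0.ne'] at h3
  have h4 := Real.log_two_gt_d9
  have h5 := Real.log_two_lt_d9
  push_cast
  have h6 : (0 : ℝ) ≤ (Nat.log 2 (2 * n) : ℝ) := Nat.cast_nonneg _
  have h7 : (Nat.log 2 (2 * n) : ℝ) * (69 / 100) ≤ (Nat.log 2 (2 * n) : ℝ) * Real.log 2 :=
    mul_le_mul_of_nonneg_left (by linarith) h6
  nlinarith

theorem thm_AsA : St_AsA := by
  intro A hA
  have hlog : Tendsto (fun n : ℕ => Real.log (n : ℝ)) atTop atTop :=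
    Real.tendsto_log_atTop.comp tendsto_natCast_atTop_atTop
  have e1 := hlog.eventually AsA_e1
  have e2 := hlog.eventually (AsA_e2 (Real.log (50 * A)))
  have e3 := hlog.eventually (eventually_gt_atTop (1 : ℝ))
  have e4 : ∀ᶠ n : ℕ in atTop, 200 * Real.log (n : ℝ) ≤ n := by
    have h1 : (fun t : ℝ => 200 * Real.log t) =o[atTop] fun t => t :=
      (Real.isLittleO_log_id_atTop).const_mul_left 200
    have h2 := h1.bound (c := 1) one_pos
    have h3 : ∀ᶠ t : ℝ in atTop, 200 * Real.log t ≤ t := by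
      filter_upwards [h2, eventually_ge_atTop 0] with t ht ht0
      rw [one_mul, Real.norm_eq_abs, Real.norm_eq_abs, abs_of_nonneg ht0] at ht
      exact le_trans (le_abs_self _) ht
    exact tendsto_natCast_atTop_atTop.eventually h3
  obtain ⟨n0, hn0⟩ := eventually_atTop.mp (e1.and (e2.and (e3.and (e4.and (eventually_ge_atTop 1)))))
  refine ⟨n0, fun n hn => ?_⟩
  obtain ⟨h1, h2, h3, h4, h5⟩ := hn0 n hn
  have hnp : (0 : ℝ) < n := by exact_mod_cast h5
  obtain ⟨t, ht⟩ : ∃ t : ℝ, t = Real.log n := ⟨_, rfl⟩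
  rw [← ht] at h1 h2 h3 h4
  have ht0 : 0 < t := by linarith
  have hlt : 0 < Real.log t := Real.log_pos h3
  have hK := AsA_K n h5 (by rw [← ht]; exact h3.le)
  rw [← ht] at hK
  obtain ⟨K, hKd⟩ : ∃ K : ℕ, K = 20 + 10 * Nat.log 2 (2 * n) := ⟨_, rfl⟩
  rw [← hKd] at hK
  have hK20 : 20 ≤ K := by omega
  obtain ⟨x, hx⟩ : ∃ x : ℝ, x = 9 / 25 * Real.log t := ⟨_, rfl⟩
  have hx0 : 0 < x := by rw [hx]; positivity
  have hc1 : 1 ≤ ⌈x⌉₊ := Nat.one_le_ceil_iff.mpr hx0
  have hJ : ⌈x⌉₊ - 1 + 1 = ⌈x⌉₊ := by omega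
  have hc2 : x ≤ (⌈x⌉₊ : ℝ) := Nat.le_ceil x
  have hc3 : (⌈x⌉₊ : ℝ) ≤ x + 1 := (Nat.ceil_lt_add_one hx0.le).le
  refine ⟨K, ⌈x⌉₊ - 1, hK20, ?_, ?_, ?_, ?_⟩
  · have : ((4 * K : ℕ) : ℝ) ≤ n := by
      push_cast
      linarith
    exact_mod_cast this
  · have h6 : 2 * n < 2 ^ (Nat.log 2 (2 * n) + 1) := Nat.lt_pow_succ_log_self (by norm_num) _
    have h7 : n ≤ 2 ^ Nat.log 2 (2 * n) := by
      rw [pow_succ] at h6
      omega
    have h8 : (n : ℝ) ≤ 2 ^ Nat.log 2 (2 * n) := by exact_mod_cast h7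
    have h9 : (4 : ℝ) ^ K = 4 ^ 20 * (2 ^ Nat.log 2 (2 * n)) ^ 20 := by
      rw [hKd, pow_add]
      congr 1
      have : (4 : ℝ) = 2 ^ 2 := by norm_num
      rw [this, ← pow_mul, ← pow_mul]
      congr 1
      ring
    rw [h9]
    have h10 : (n : ℝ) ^ 20 ≤ (2 ^ Nat.log 2 (2 * n)) ^ 20 := pow_le_pow_left₀ hnp.le h8 20
    have hn1 : (1 : ℝ) ≤ n := by exact_mod_cast h5
    have h11 : (n : ℝ) ^ 9 ≤ (n : ℝ) ^ 20 := pow_le_pow_right₀ hn1 (by norm_num)
    have h12 : 0 ≤ (n : ℝ) ^ 9 := by positivity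
    rw [mul_pow]
    nlinarith
  · rw [hJ]
    have hKA : (0 : ℝ) < (K * A : ℕ) := by
      have : 0 < K * A := Nat.mul_pos (by omega) (by omega)
      exact_mod_cast this
    have hKA1 : (1 : ℝ) ≤ (K * A : ℕ) := by
      have : 1 ≤ K * A := Nat.mul_pos (by omega) (by omega)
      exact_mod_cast this
    have hgoal : (((K * A) ^ (14 ^ ⌈x⌉₊) : ℕ) : ℝ) ≤ n := by
      rw [← Real.log_le_log_iff (by exact_mod_cast pow_pos (by exact_mod_cast hKA) _) hnp, ← ht]
      rw [Nat.cast_pow, Real.log_pow]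
      have hA0 : (0 : ℝ) < A := by
        have : 0 < A := by omega
        exact_mod_cast this
      have h6 : Real.log ((K * A : ℕ) : ℝ) ≤ Real.log (50 * A) + Real.log t := by
        rw [← Real.log_mul (by positivity) ht0.ne']
        apply Real.log_le_log hKA
        push_cast
        nlinarith
      have h7 : ((14 ^ ⌈x⌉₊ : ℕ) : ℝ) ≤ 14 * t ^ (972 / 1000 : ℝ) := by
        push_cast
        have h8 : (14 : ℝ) ^ ⌈x⌉₊ = Real.exp (⌈x⌉₊ * Real.log 14) := by
          rw [mul_comm, Real.exp_mul, Real.exp_log (by norm_num), Real.rpow_natCast]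
        have h9 : (14 : ℝ) * t ^ (972 / 1000 : ℝ) =
            Real.exp (Real.log 14 + Real.log t * (972 / 1000)) := by
          rw [Real.exp_add, Real.exp_log (by norm_num), Real.rpow_def_of_pos ht0]
        rw [h8, h9]
        apply Real.exp_le_exp.mpr
        have h10 : 0 ≤ Real.log 14 := Real.log_nonneg (by norm_num)
        have h11 : (⌈x⌉₊ : ℝ) * Real.log 14 ≤ (x + 1) * Real.log 14 :=
          mul_le_mul_of_nonneg_right hc3 h10
        have h12 : x * Real.log 14 ≤ x * (27 / 10) :=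
          mul_le_mul_of_nonneg_left AsA_log14 hx0.le
        have h13 : x * (27 / 10) = Real.log t * (972 / 1000) := by rw [hx]; ring
        linarith
      have h14 : 0 ≤ Real.log ((K * A : ℕ) : ℝ) := Real.log_nonneg hKA1
      calc ((14 ^ ⌈x⌉₊ : ℕ) : ℝ) * Real.log ((K * A : ℕ) : ℝ)
          ≤ (14 * t ^ (972 / 1000 : ℝ)) * Real.log ((K * A : ℕ) : ℝ) :=
            mul_le_mul_of_nonneg_right h7 h14
        _ ≤ (14 * t ^ (972 / 1000 : ℝ)) * (Real.log (50 * A) + Real.log t) :=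
            mul_le_mul_of_nonneg_left h6 (by positivity)
        _ = t ^ (972 / 1000 : ℝ) * (14 * (Real.log (50 * A) + Real.log t)) := by ring
        _ ≤ t ^ (972 / 1000 : ℝ) * t ^ (28 / 1000 : ℝ) :=
            mul_le_mul_of_nonneg_left h2 (by positivity)
        _ = t := by
            rw [← Real.rpow_add ht0]
            norm_num
    exact_mod_cast hgoal
  · rw [hJ, ← ht]
    have h6 : (4 / 3 : ℝ) ^ ⌈x⌉₊ = Real.exp (⌈x⌉₊ * Real.log (4 / 3)) := by
      rw [mul_comm, Real.exp_mul, Real.exp_log (by norm_num), Real.rpow_natCast]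
    have h7 : t ^ (1008 / 10000 : ℝ) ≤ (4 / 3 : ℝ) ^ ⌈x⌉₊ := by
      rw [h6, Real.rpow_def_of_pos ht0]
      apply Real.exp_le_exp.mpr
      have h8 : x * (28 / 100) ≤ (⌈x⌉₊ : ℝ) * Real.log (4 / 3) :=
        mul_le_mul hc2 AsA_log43 (by norm_num) (by positivity)
      have h9 : x * (28 / 100) = Real.log t * (1008 / 10000) := by rw [hx]; ring
      linarith
    refine le_trans ?_ h7
    have h8 : t ^ (1008 / 10000 : ℝ) = t ^ (8 / 10000 : ℝ) * t ^ (1 / 10 : ℝ) := by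
      rw [← Real.rpow_add ht0]
      norm_num
    rw [h8]
    exact mul_le_mul_of_nonneg_right h1 (by positivity)

end Pool.Agent.MLB
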