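import Pool.Agent.MLB.St

/-!
# MLB, module AsB: choice of the parameters, II
-/

set_option autoImplicit false

namespace Pool.Agent.MLB

open Real

private lemma AsBx_exp28 : Real.exp (7 / 25) ≤ 4 / 3 := by
  have h1 : Real.exp (7 / 25) ^ 25 < (4 / 3 : ℝ) ^ 25 := by
    have e1 : Real.exp (7 / 25) ^ 25 = Real.exp 1 ^ 7 := by
      rw [← Real.exp_nat_mul, ← Real.exp_nat_mul]
      norm_num
    rw [e1]
    have h2 : Real.exp 1 ^ 7 < (2.7182818286 : ℝ) ^ 7 :=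
      pow_lt_pow_left₀ Real.exp_one_lt_d9 (Real.exp_pos 1).le (by norm_num)
    refine h2.trans ?_
    norm_num
  exact (lt_of_pow_lt_pow_left₀ 25 (by norm_num) h1).le

private lemma AsBx_fifty : (50 : ℝ) ≤ Real.exp 4 := by
  have e1 : Real.exp 4 = Real.exp 1 ^ 4 := by
    rw [← Real.exp_nat_mul]
    norm_num
  rw [e1]
  have h2 : (2.7182818283 : ℝ) ^ 4 ≤ Real.exp 1 ^ 4 :=
    pow_le_pow_left₀ (by norm_num) Real.exp_one_gt_d9.le 4
  refine le_trans ?_ h2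
  norm_num

private lemma AsBx_big (s : ℝ) (hs : 10 ^ 7 ≤ s) :
    13000 * (20 + 15 * s ^ 2) ≤ Real.exp (s / 20) := by
  have e1 : Real.exp (s / 20) = Real.exp (s / 80) ^ 4 := by
    rw [← Real.exp_nat_mul]
    congr 1
    push_cast
    ring
  have h1 : s / 80 ≤ Real.exp (s / 80) := by
    have := Real.add_one_le_exp (s / 80)
    linarith
  have hs0 : 0 ≤ s := le_trans (by norm_num) hs
  have h2 : (s / 80) ^ 4 ≤ Real.exp (s / 80) ^ 4 := pow_le_pow_left₀ (by positivity) h1 4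
  rw [e1]
  refine le_trans ?_ h2
  obtain ⟨q, hq⟩ : ∃ q, q = s ^ 2 := ⟨_, rfl⟩
  have hq1 : 10 ^ 14 ≤ q := by
    rw [hq]
    calc (10 : ℝ) ^ 14 = (10 ^ 7) ^ 2 := by norm_num
      _ ≤ s ^ 2 := pow_le_pow_left₀ (by norm_num) hs 2
  have e2 : (s / 80) ^ 4 = q * q / 40960000 := by
    rw [hq]
    ring
  rw [e2, ← hq]
  have h3 : q * 10 ^ 14 ≤ q * q := by
    have : 0 ≤ q := le_trans (by norm_num) hq1
    exact mul_le_mul_of_nonneg_left hq1 this
  nlinarith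

/-- Choice of the parameters, II. -/
theorem thm_AsB : St_AsB := by
  refine ⟨⌈Real.exp ((10 ^ 7 : ℝ) ^ 2)⌉₊, fun N hN => ?_⟩
  have hN1 : Real.exp ((10 ^ 7 : ℝ) ^ 2) ≤ N := Nat.ceil_le.mp hN
  have hN0 : (0 : ℝ) < N := lt_of_lt_of_le (Real.exp_pos _) hN1
  obtain ⟨s, hs⟩ : ∃ s, s = √(Real.log N) := ⟨_, rfl⟩
  have hL : (10 ^ 7 : ℝ) ^ 2 ≤ Real.log N := (Real.le_log_iff_exp_le hN0).mpr hN1
  have hs1 : 10 ^ 7 ≤ s := by
    rw [hs]
    exact Real.le_sqrt_of_sq_le hL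
  have hs0 : 0 ≤ s := le_trans (by norm_num) hs1
  have hss : s ^ 2 = Real.log N := by
    rw [hs]
    exact Real.sq_sqrt (le_trans (by positivity) hL)
  have hNe : (N : ℝ) = Real.exp (s ^ 2) := by
    rw [hss, Real.exp_log hN0]
  have hsq : √(N : ℝ) = Real.exp (s ^ 2 / 2) := by
    have e1 : (N : ℝ) = Real.exp (s ^ 2 / 2) ^ 2 := by
      rw [hNe, ← Real.exp_nat_mul]
      congr 1
      push_cast
      ring
    rw [e1]
    exact Real.sqrt_sq (Real.exp_pos _).le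
  rw [← hs]
  have hN1' : 1 ≤ N := by
    have : (0 : ℝ) < N := hN0
    exact_mod_cast this
  -- the power of two
  obtain ⟨P, hP⟩ : ∃ P, P = 2 ^ Nat.log 2 N := ⟨_, rfl⟩
  have hP1 : P ≤ N := by
    rw [hP]
    exact Nat.pow_log_le_self 2 (by omega)
  have hP2 : N ≤ 2 * P := by
    have h1 := Nat.lt_pow_succ_log_self (b := 2) (by norm_num) N
    rw [hP]
    have h2 : 2 ^ (Nat.log 2 N).succ = 2 * 2 ^ Nat.log 2 N := by
      rw [Nat.succ_eq_add_one, pow_succ]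
      ring
    omega
  have hP0 : 1 ≤ P := by
    rw [hP]
    exact Nat.one_le_two_pow
  have hlog : (Nat.log 2 N : ℝ) ≤ 3 / 2 * s ^ 2 := by
    have h1 : Real.log ((2 : ℝ) ^ Nat.log 2 N) ≤ Real.log N := by
      apply Real.log_le_log (by positivity)
      rw [hP] at hP1
      exact_mod_cast hP1
    rw [Real.log_pow, ← hss] at h1
    have h2 := Real.log_two_gt_d9
    have h3 : (0 : ℝ) ≤ Nat.log 2 N := Nat.cast_nonneg _
    nlinarith
  have hexp0 : 1 ≤ Real.exp (1 / 4 * s) := Real.one_le_exp (by positivity)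
  obtain ⟨K, hK⟩ : ∃ K, K = 20 + 10 * Nat.log 2 N := ⟨_, rfl⟩
  obtain ⟨B, hB⟩ : ∃ B, B = ⌈64 * 203 * Real.exp (1 / 4 * s)⌉₊ := ⟨_, rfl⟩
  obtain ⟨J, hJ⟩ : ∃ J, J = ⌊8 / 5 * s⌋₊ := ⟨_, rfl⟩
  obtain ⟨h, hh⟩ : ∃ h, h = ⌈√(N : ℝ)⌉₊ := ⟨_, rfl⟩
  have hB1 : 64 * 203 * Real.exp (1 / 4 * s) ≤ B := by
    rw [hB]
    exact Nat.le_ceil _
  have hB2 : (B : ℝ) ≤ 13000 * Real.exp (1 / 4 * s) := by
    have h1 : (B : ℝ) < 64 * 203 * Real.exp (1 / 4 * s) + 1 := by
      rw [hB]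
      exact Nat.ceil_lt_add_one (by positivity)
    linarith
  have hKr : (K : ℝ) ≤ 20 + 15 * s ^ 2 := by
    rw [hK]
    push_cast
    linarith
  have hKB : ((K * B : ℕ) : ℝ) ≤ Real.exp (3 / 10 * s) := by
    push_cast
    calc (K : ℝ) * B ≤ (20 + 15 * s ^ 2) * (13000 * Real.exp (1 / 4 * s)) :=
          mul_le_mul hKr hB2 (Nat.cast_nonneg _) (by positivity)
      _ = (13000 * (20 + 15 * s ^ 2)) * Real.exp (1 / 4 * s) := by ring
      _ ≤ Real.exp (s / 20) * Real.exp (1 / 4 * s) :=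
          mul_le_mul_of_nonneg_right (AsBx_big s hs1) (Real.exp_pos _).le
      _ = Real.exp (3 / 10 * s) := by
          rw [← Real.exp_add]
          congr 1
          ring
  have hJ1 : (J : ℝ) ≤ 8 / 5 * s := by
    rw [hJ]
    exact Nat.floor_le (by positivity)
  have hJ2 : 8 / 5 * s < J + 1 := by
    rw [hJ]
    exact Nat.lt_floor_add_one _
  have hh1 : √(N : ℝ) ≤ h := by
    rw [hh]
    exact Nat.le_ceil _
  have hh2 : (h : ℝ) ≤ 2 * √(N : ℝ) := by
    have h1 : (h : ℝ) < √(N : ℝ) + 1 := by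
      rw [hh]
      exact Nat.ceil_lt_add_one (Real.sqrt_nonneg _)
    have h2 : 1 ≤ √(N : ℝ) := by
      rw [hsq]
      exact Real.one_le_exp (by positivity)
    linarith
  refine ⟨K, B, J, h, by omega, ?_, ?_, ?_, hB1, hh1, ?_, ?_, ?_⟩
  · have h1 : (0 : ℝ) < J := by linarith
    exact_mod_cast h1
  · have e1 : (4 : ℕ) ^ K = 4 ^ 20 * P ^ 20 := by
      rw [hK, hP, pow_add, ← pow_mul]
      have h4 : (4 : ℕ) ^ (10 * Nat.log 2 N) = 2 ^ (Nat.log 2 N * 20) := by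
        rw [show (4 : ℕ) = 2 ^ 2 by norm_num, ← pow_mul]
        congr 1
        ring
      rw [h4]
    have h1 : 20000 * N ^ 9 ≤ 4 ^ K := by
      rw [e1]
      calc 20000 * N ^ 9 ≤ 20000 * (2 * P) ^ 9 :=
            Nat.mul_le_mul_left _ (Nat.pow_le_pow_left hP2 9)
        _ = (20000 * 2 ^ 9) * P ^ 9 := by ring
        _ ≤ 4 ^ 20 * P ^ 20 :=
            Nat.mul_le_mul (by norm_num) (Nat.pow_le_pow_right hP0 (by norm_num))
    exact_mod_cast h1
  · have h1 : (2 : ℝ) ≤ B := by linarith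
    exact_mod_cast h1
  · have h1 : (0 : ℝ) < h := lt_of_lt_of_le (by rw [hsq]; exact Real.exp_pos _) hh1
    exact_mod_cast h1
  · have h1 : (((K * B) ^ J * h : ℕ) : ℝ) ≤ N := by
      rw [Nat.cast_mul, Nat.cast_pow]
      have h2 : ((K * B : ℕ) : ℝ) ^ J ≤ Real.exp (12 / 25 * s ^ 2) := by
        calc ((K * B : ℕ) : ℝ) ^ J ≤ Real.exp (3 / 10 * s) ^ J :=
              pow_le_pow_left₀ (Nat.cast_nonneg _) hKB J
          _ = Real.exp (J * (3 / 10 * s)) := by rw [← Real.exp_nat_mul]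
          _ ≤ Real.exp (12 / 25 * s ^ 2) := by
              apply Real.exp_le_exp.mpr
              nlinarith
      have h3 : (2 : ℝ) ≤ Real.exp (1 / 50 * s ^ 2) := by
        have h4 := Real.add_one_le_exp (1 / 50 * s ^ 2)
        nlinarith
      calc ((K * B : ℕ) : ℝ) ^ J * h ≤ Real.exp (12 / 25 * s ^ 2) *
            (Real.exp (1 / 50 * s ^ 2) * Real.exp (s ^ 2 / 2)) := by
            refine mul_le_mul h2 ?_ (Nat.cast_nonneg _) (Real.exp_pos _).le
            refine hh2.trans ?_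
            rw [hsq]
            exact mul_le_mul_of_nonneg_right h3 (Real.exp_pos _).le
        _ = N := by
            rw [← Real.exp_add, ← Real.exp_add, hNe]
            congr 1
            ring
    exact_mod_cast h1
  · calc 50 * Real.exp (1 / 4 * s) ≤ Real.exp 4 * Real.exp (1 / 4 * s) :=
          mul_le_mul_of_nonneg_right AsBx_fifty (Real.exp_pos _).le
      _ = Real.exp (4 + 1 / 4 * s) := by rw [Real.exp_add]
      _ ≤ Real.exp (J * (7 / 25)) := by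
          apply Real.exp_le_exp.mpr
          linarith
      _ = Real.exp (7 / 25) ^ J := by rw [← Real.exp_nat_mul]
      _ ≤ (4 / 3 : ℝ) ^ J := pow_le_pow_left₀ (Real.exp_pos _).le AsBx_exp28 J

end Pool.Agent.MLB
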