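import Pool.Agent.MLB.St

/-!
# The mirror model, lower bounds: heights near which the path moves horizontally (`St_B1`)
-/

set_option autoImplicit false

open MeasureTheory Filter Mir Pool.Agent.MSB

noncomputable section

namespace Pool.Agent.MLB

namespace B1x

theorem nm_tri (x y z : ℤ × ℤ) : nm (x - z) ≤ nm (x - y) + nm (y - z) := by
  unfold nm
  simp only [Prod.fst_sub, Prod.snd_sub]
  omega

theorem nm_symm (x y : ℤ × ℤ) : nm (x - y) = nm (y - x) := by
  unfold nm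
  simp only [Prod.fst_sub, Prod.snd_sub]
  omega

theorem abs_le_nm (x y : ℤ × ℤ) : |x.1 - y.1| ≤ (nm (x - y) : ℤ) := by
  unfold nm
  simp only [Prod.fst_sub, Prod.snd_sub]
  rw [Int.abs_eq_natAbs]
  omega

variable {Q : ℕ → ℤ × ℤ} {h n M : ℕ} {σ : ℕ → ℕ}

theorem sig_mono (hc : Coarse Q h n M σ) {a b : ℕ} (hab : a ≤ b) (hb : b ≤ M) : σ a ≤ σ b := by
  induction b, hab using Nat.le_induction with
  | base => exact le_rfl
  | succ b _ ih => exact (ih (by omega)).trans (hc.mono b (by omega)).le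

theorem dist_le (hc : Coarse Q h n M σ) {a b : ℕ} (hab : a ≤ b) (hb : b ≤ M) :
    nm (Q (σ b) - Q (σ a)) ≤ (b - a) * h := by
  induction b, hab using Nat.le_induction with
  | base => simp [nm]
  | succ b hab ih =>
    have h1 := ih (by omega)
    have h2 := hc.step b (by omega)
    have h3 := nm_tri (Q (σ (b + 1))) (Q (σ b)) (Q (σ a))
    have e : (b + 1 - a) * h = (b - a) * h + h := by
      rw [show b + 1 - a = (b - a) + 1 by omega]
      ring
    omega

end B1x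

open B1x in
theorem thm_B1 (hK : St_Kap) : St_B1 := by
  classical
  intro Q h n M σ hh hc B τ t hB
  obtain ⟨κ, k1, k2, k3⟩ := hK Q h n M σ hc
  have key : ∀ Y ∈ B, 100 ≤ ((Finset.Ioc 0 M).bipartiteAbove
      (fun (Y : ℕ) (k : ℕ) => |(Q (σ k)).2 - (Y : ℤ)| < 2 * (h : ℤ)) Y).card := by
    intro Y hY
    obtain ⟨h1, h2, h3, h4⟩ := hB Y hY
    obtain ⟨a1, a2, a3⟩ := k1 (τ Y) (h1.trans h2)
    obtain ⟨b1, b2, b3⟩ := k1 (t Y) h2
    have hab := k2 (τ Y) (t Y) h1 h2
    have hsub : Finset.Ioc (κ (τ Y)) (κ (t Y)) ⊆ (Finset.Ioc 0 M).bipartiteAbove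
        (fun (Y : ℕ) (k : ℕ) => |(Q (σ k)).2 - (Y : ℤ)| < 2 * (h : ℤ)) Y := by
      intro k hk
      rw [Finset.mem_Ioc] at hk
      rw [Finset.mem_bipartiteAbove, Finset.mem_Ioc]
      refine ⟨⟨by omega, by omega⟩, ?_⟩
      have h5 : τ Y < σ k := k3 (τ Y) (h1.trans h2) k (by omega) hk.1
      have h6 : σ k ≤ t Y := (sig_mono hc hk.2 b1).trans b2
      exact h4 (σ k) h5.le h6
    refine le_trans ?_ (Finset.card_le_card hsub)
    rw [Nat.card_Ioc]
    have d1 := dist_le hc hab b1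
    have d2 := nm_tri (Q (t Y)) (Q (σ (κ (t Y)))) (Q (τ Y))
    have d3 := nm_tri (Q (σ (κ (t Y)))) (Q (σ (κ (τ Y)))) (Q (τ Y))
    have d4 := nm_symm (Q (σ (κ (τ Y)))) (Q (τ Y))
    have d5 := abs_le_nm (Q (t Y)) (Q (τ Y))
    have d6 : 101 * h < nm (Q (t Y) - Q (τ Y)) := by
      have : (101 * (h : ℤ)) < (nm (Q (t Y) - Q (τ Y)) : ℤ) := h3.trans_le d5
      exact_mod_cast this
    by_contra hcon
    have h7 : (κ (t Y) - κ (τ Y)) * h ≤ 99 * h := Nat.mul_le_mul_right h (by omega)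
    omega
  have key2 : ∀ k ∈ Finset.Ioc 0 M, (B.bipartiteBelow
      (fun (Y : ℕ) (k : ℕ) => |(Q (σ k)).2 - (Y : ℤ)| < 2 * (h : ℤ)) k).card ≤ 4 * h := by
    intro k _
    have hle : (B.bipartiteBelow (fun (Y : ℕ) (k : ℕ) => |(Q (σ k)).2 - (Y : ℤ)| < 2 * (h : ℤ)) k).card ≤
        (Finset.Ioo ((Q (σ k)).2 - 2 * h) ((Q (σ k)).2 + 2 * h)).card := by
      apply Finset.card_le_card_of_injOn (fun Y : ℕ => (Y : ℤ))
      · intro Y hY
        rw [Finset.mem_coe, Finset.mem_bipartiteBelow] at hY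
        have h2 := hY.2
        rw [abs_lt] at h2
        rw [Finset.mem_coe, Finset.mem_Ioo]
        constructor <;> linarith [h2.1, h2.2]
      · intro x _ y _ hxy
        exact Int.ofNat_injective hxy
    refine hle.trans ?_
    rw [Int.card_Ioo]
    omega
  have := Finset.card_mul_le_card_mul _ key key2
  rw [Nat.card_Ioc] at this
  calc 100 * B.card = B.card * 100 := mul_comm _ _
    _ ≤ (M - 0) * (4 * h) := this
    _ = 4 * h * M := by rw [Nat.sub_zero, mul_comm]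

end Pool.Agent.MLB
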