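import Pool.Agent.MLB.St

/-!
# The mirror model, lower bounds: second main result (helper69)
-/

set_option autoImplicit false

open MeasureTheory Filter Mir Pool.Agent.MSB

noncomputable section

namespace Pool.Agent.MLB

theorem thm_BB (hA : St_AsB) (hT : St_Tw3) (hB : St_Bas) : St_BB := by
  obtain ⟨N0, hN0⟩ := hA
  obtain ⟨-, -, -, -, -, -, -, -, -, hTP, hPP⟩ := hB
  refine ⟨max N0 1, ?_⟩
  intro p hp0 hp1 N hN
  have hN1 : 1 ≤ N := le_trans (le_max_right _ _) hN
  obtain ⟨K, B, J, h, hK, hJ, hN9, hB2, hBe, hsq, hh, hle, hexp⟩ :=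
    hN0 N (le_trans (le_max_left _ _) hN)
  by_contra hcon
  push Not at hcon
  set Γ : ℝ := Real.exp (1 / 4 * √(Real.log N)) with hΓ
  have hΓ0 : 0 < Γ := Real.exp_pos _
  have hK0 : 0 < K := by omega
  have hB0 : 0 < B := by omega
  -- the upper bound
  have hup : ∀ n : ℕ, h ≤ n → n ≤ N → Pn p n < Γ / n := by
    intro n hn1 hn2
    have hn0 : (0 : ℝ) < n := by exact_mod_cast (by omega : 0 < n)
    have h1 : √(N : ℝ) ≤ n := hsq.trans (by exact_mod_cast hn1)
    refine lt_of_lt_of_le (hcon n h1 hn2) (div_le_div_of_nonneg_right ?_ hn0.le)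
    rw [hΓ]
    refine Real.exp_le_exp.2 (mul_le_mul_of_nonneg_left ?_ (by norm_num))
    exact Real.sqrt_le_sqrt (Real.log_le_log hn0 (by exact_mod_cast hn2))
  have hKB : 1 ≤ K * B := Nat.mul_pos hK0 hB0
  -- the towers
  have htw : ∀ j ≤ J, Twr p K j ((K * B) ^ j * h) := by
    intro j
    induction j with
    | zero =>
      intro _
      rw [pow_zero, one_mul]
      exact Twr.zero h hh
    | succ j ih =>
      intro hj
      have hi := ih (by omega)
      have hH1 : h ≤ (K * B) ^ j * h := Nat.le_mul_of_pos_left h (pow_pos (by omega) j)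
      have hm2 : K * (B * ((K * B) ^ j * h)) ≤ N := by
        have e1 : K * (B * ((K * B) ^ j * h)) = (K * B) ^ (j + 1) * h := by ring
        rw [e1]
        exact (Nat.mul_le_mul_right h (Nat.pow_le_pow_right hKB hj)).trans hle
      have hm3 : B * ((K * B) ^ j * h) ≤ N := (Nat.le_mul_of_pos_left _ hK0).trans hm2
      have e2 : (K * B) ^ (j + 1) * h = K * (B * ((K * B) ^ j * h)) := by ring
      rw [e2]
      generalize (K * B) ^ j * h = H at *
      refine Twr.succ j H (B * H) hi (Nat.mul_le_mul_right H hB2) ?_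
      have hHr : (1 : ℝ) ≤ H := by exact_mod_cast (by omega : 1 ≤ H)
      have hBr : (0 : ℝ) < B := by exact_mod_cast hB0
      have hHm : h ≤ B * H := hH1.trans (Nat.le_mul_of_pos_left _ hB0)
      have h3 : T p (B * H) ≤ Γ / ((B * H : ℕ) : ℝ) :=
        (hTP p hp0 hp1 (B * H)).trans (hup (B * H) hHm hm3).le
      rw [Nat.cast_mul] at h3
      have h4 : (0 : ℝ) < B * H := by positivity
      calc (202 * (H : ℝ) + 1) * T p (B * H) ≤ (202 * (H : ℝ) + 1) * (Γ / (B * H)) :=
            mul_le_mul_of_nonneg_left h3 (by positivity)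
        _ ≤ (203 * (H : ℝ)) * (Γ / (B * H)) :=
            mul_le_mul_of_nonneg_right (by linarith) (by positivity)
        _ = 203 * Γ / B := by
            field_simp
        _ ≤ 1 / 64 := by
            rw [div_le_div_iff₀ hBr (by norm_num)]
            linarith
  have hfin := hT p hp0 hp1 K J _ N hK (htw J le_rfl) hle hN9
  have hH40 : 40 * h ≤ (K * B) ^ J * h := by
    have h1 : 40 ≤ K * B := by
      calc 40 = 20 * 2 := by norm_num
        _ ≤ K * B := Nat.mul_le_mul hK hB2
    exact Nat.mul_le_mul_right h (h1.trans (Nat.le_self_pow (by omega) _))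
  generalize (K * B) ^ J * h = H at *
  obtain ⟨n, rfl⟩ : ∃ n, H = n + 1 := ⟨H - 1, by omega⟩
  have h5 := (hPP p hp0 hp1 n).trans_lt (hup n (by omega) (by omega))
  have h6 := hfin.trans_lt h5
  have hn1 : (39 : ℝ) ≤ n := by exact_mod_cast (by omega : 39 ≤ n)
  have hn0 : (0 : ℝ) < n := by linarith
  rw [div_lt_div_iff₀ (by positivity) hn0] at h6
  push_cast at h6
  have h7 : 50 * Γ * n ≤ (4 / 3 : ℝ) ^ J * n := mul_le_mul_of_nonneg_right hexp hn0.le
  have h8 : 0 < Γ * n := by positivity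
  have h9 : Γ * 39 ≤ Γ * n := mul_le_mul_of_nonneg_left hn1 hΓ0.le
  nlinarith

end Pool.Agent.MLB
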