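import Pool.Agent.MLB.St

/-!
# Module Bas: basic facts (measurability, dependence, symmetries) for the mirror model
-/

set_option autoImplicit false

open MeasureTheory Filter Mir Pool.Agent.MSB

noncomputable section

namespace Pool.Agent.MLB

namespace Basx

theorem meas_Hit (h : ℕ) (I : Set ℕ) (s : (ℤ × ℤ) × Dir) : MeasurableSet (Hit h I s) := by
  have : Hit h I s = ⋃ i ∈ I, {ω | h ≤ nm ((ray ω s i).1 - s.1)} := by
    ext ω; simp [Hit, rp]
  rw [this]
  exact MeasurableSet.biUnion (Set.to_countable I) fun i _ =>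
    meas_ray_prop s i fun u => h ≤ nm (u.1 - s.1)

theorem meas_Ar (s : (ℤ × ℤ) × Dir) (Y : ℕ) (x : ℤ) : MeasurableSet (Ar s Y x) := meas_exits _ _ _

theorem dep_Ar (s : (ℤ × ℤ) × Dir) (Y : ℕ) (x : ℤ) : DepOn (Ar s Y x) {u | u.2 < s.1.2 + Y} :=
  dep_exits _ _ _

theorem meas_Su (m : ℕ) (v : ℤ × ℤ) : MeasurableSet (Su m v) := by
  have : Su m v = ⋃ x : ℤ, {ω | Exits ω (rows v.2 m) (v, Dir.N) ((x, v.2 + m), Dir.N)} := by
    ext ω; simp [Su]
  rw [this]
  exact MeasurableSet.iUnion fun x => meas_exits _ _ _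

theorem dep_Su (m : ℕ) (v : ℤ × ℤ) : DepOn (Su m v) (rows v.2 m) := by
  rintro ω ω' h ⟨x, hx⟩
  exact ⟨x, (exits_congr h).1 hx⟩

theorem meas_Bad (s : (ℤ × ℤ) × Dir) (R m Y : ℕ) : MeasurableSet (Bad s R m Y) := by
  have : Bad s R m Y = ⋃ x : ℤ, Ar s Y x ∩ ⋃ x' : ℤ, ⋃ (_ : |x' - x| ≤ (R : ℤ)), Su m (x', s.1.2 + Y) := by
    ext ω; simp [Bad]
  rw [this]
  exact MeasurableSet.iUnion fun x => (meas_Ar s Y x).inter
    (MeasurableSet.iUnion fun x' => MeasurableSet.iUnion fun _ => meas_Su m _)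

theorem dep_Bad (s : (ℤ × ℤ) × Dir) (R m Y : ℕ) : DepOn (Bad s R m Y) {u | u.2 < s.1.2 + Y + m} := by
  rintro ω ω' h ⟨x, hx, x', hx', hs⟩
  refine ⟨x, dep_Ar s Y x ω ω' (fun v hv => h v ?_) hx, x', hx', dep_Su m _ ω ω' (fun v hv => h v ?_) hs⟩
  · simp only [Set.mem_ofPred_eq] at hv ⊢; omega
  · simp only [rows, Set.mem_ofPred_eq] at hv ⊢; omega

theorem nm_add (a b : ℤ × ℤ) : nm (a + b) ≤ nm a + nm b := by
  simp only [nm, Prod.fst_add, Prod.snd_add]
  omega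

theorem nm_vec (d : Dir) : nm (vec d : ℤ × ℤ) ≤ 1 := by
  cases d <;> simp [nm, vec]

theorem nm_rp (ω : ℤ × ℤ → Fin 3) (s : (ℤ × ℤ) × Dir) (i : ℕ) : nm (rp ω s i) ≤ i := by
  induction i with
  | zero => simp [rp, nm]
  | succ i ih =>
    have e : rp ω s (i + 1) = rp ω s i + vec (turn (ω (ray ω s i).1) (ray ω s i).2) := by
      simp only [rp, ray_succ, step]
      abel
    rw [e]
    have := nm_add (rp ω s i) (vec (turn (ω (ray ω s i).1) (ray ω s i).2))
    have := nm_vec (turn (ω (ray ω s i).1) (ray ω s i).2)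
    omega

theorem real_Su {p : ℝ} (h0 : 0 ≤ p) (h1 : p ≤ 1) (m : ℕ) (v : ℤ × ℤ) :
    (mir p).real (Su m v) = T p m := by
  have hz := tr_preserving h0 h1 (v.1, v.2 - 1)
  have e : tr (v.1, v.2 - 1) ⁻¹' Su m v =
      {ω | ∃ x : ℤ, Exits ω (slab m) ((0, 1), Dir.N) ((x, (m : ℤ) + 1), Dir.N)} := by
    have hG : ∀ u : ℤ × ℤ, u + (v.1, v.2 - 1) ∈ rows v.2 m ↔ u ∈ slab m := by
      intro u
      simp only [rows, slab, Set.mem_ofPred_eq, Prod.snd_add]
      omega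
    have e1 : ∀ x : ℤ, trS (v.1, v.2 - 1) ((x, (m : ℤ) + 1), Dir.N) = ((x + v.1, v.2 + m), Dir.N) := by
      intro x
      simp only [trS, Prod.mk_add_mk, Prod.mk.injEq, and_true, true_and]
      ring
    have e2 : trS (v.1, v.2 - 1) ((0, 1), Dir.N) = (v, Dir.N) := by
      simp only [trS, Prod.mk_add_mk, Prod.mk.injEq, and_true]
      ext
      · simp
      · simp
    ext ω
    simp only [Set.mem_preimage, Su, Set.mem_ofPred_eq]
    constructor
    · rintro ⟨x, hx⟩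
      refine ⟨x - v.1, (exits_tr (v.1, v.2 - 1) ω hG _ _).1 ?_⟩
      rw [e1, e2, sub_add_cancel]
      exact hx
    · rintro ⟨x, hx⟩
      refine ⟨x + v.1, ?_⟩
      have := (exits_tr (v.1, v.2 - 1) ω hG _ _).2 hx
      rwa [e1, e2] at this
  rw [T, ← e, Measure.real, Measure.real, hz.measure_preimage (meas_Su m v).nullMeasurableSet]

/-- invariance of the hitting probabilities under a symmetry -/
theorem hit_sym {p : ℝ} (h : ℕ) (I : Set ℕ) (g : (ℤ × ℤ → Fin 3) → (ℤ × ℤ → Fin 3))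
    (gS : (ℤ × ℤ) × Dir → (ℤ × ℤ) × Dir) (hg : MeasurePreserving g (mir p) (mir p))
    (hr : ∀ ω s n, ray (g ω) (gS s) n = gS (ray ω s n))
    (hn : ∀ u s : (ℤ × ℤ) × Dir, nm ((gS u).1 - (gS s).1) = nm (u.1 - s.1)) (s : (ℤ × ℤ) × Dir) :
    (mir p).real (Hit h I (gS s)) = (mir p).real (Hit h I s) := by
  have e : g ⁻¹' Hit h I (gS s) = Hit h I s := by
    ext ω
    simp only [Hit, Set.mem_preimage, Set.mem_ofPred_eq, rp, hr, hn]
  rw [← e, Measure.real, Measure.real, hg.measure_preimage (meas_Hit h I _).nullMeasurableSet]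

theorem real_Hit {p : ℝ} (h0 : 0 ≤ p) (h1 : p ≤ 1) (h : ℕ) (I : Set ℕ) (s : (ℤ × ℤ) × Dir) :
    (mir p).real (Hit h I s) = (mir p).real (Hit h I s0) := by
  have hT : ∀ z s, (mir p).real (Hit h I (trS z s)) = (mir p).real (Hit h I s) := fun z s =>
    hit_sym h I (tr z) (trS z) (tr_preserving h0 h1 z) (fun ω s n => ray_tr z ω s n)
      (fun u s => by simp only [trS, add_sub_add_right_eq_sub]) s
  have hS : ∀ s, (mir p).real (Hit h I (swS s)) = (mir p).real (Hit h I s) := fun s =>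
    hit_sym h I sw swS (sw_preserving h0 h1) ray_sw
      (fun u s => by
        simp only [swS, nm, Prod.fst_sub, Prod.snd_sub]
        exact max_comm _ _) s
  have hR : ∀ s, (mir p).real (Hit h I (rfS s)) = (mir p).real (Hit h I s) := fun s =>
    hit_sym h I rf rfS (rf_preserving h0 h1) ray_rf
      (fun u s => by
        simp only [rfS, nm, Prod.fst_sub, Prod.snd_sub]
        congr 1
        omega) s
  obtain ⟨⟨x, y⟩, d⟩ := s
  have hN : ∀ x y : ℤ, (mir p).real (Hit h I ((x, y), Dir.N)) = (mir p).real (Hit h I s0) := by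
    intro x y
    have := hT (x, y - 1) s0
    have e : trS (x, y - 1) s0 = ((x, y), Dir.N) := by
      simp [trS]
    rwa [e] at this
  have hE : ∀ x y : ℤ, (mir p).real (Hit h I ((x, y), Dir.E)) = (mir p).real (Hit h I s0) := by
    intro x y
    have := hS ((y, x), Dir.N)
    rw [hN] at this
    exact this
  have hW : ∀ x y : ℤ, (mir p).real (Hit h I ((x, y), Dir.W)) = (mir p).real (Hit h I s0) := by
    intro x y
    have := hR ((-x, y), Dir.E)
    rw [hE] at this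
    simpa [rfS, rfD] using this
  have hSo : ∀ x y : ℤ, (mir p).real (Hit h I ((x, y), Dir.S)) = (mir p).real (Hit h I s0) := by
    intro x y
    have := hS ((y, x), Dir.W)
    rw [hW] at this
    exact this
  cases d
  · exact hN x y
  · exact hE x y
  · exact hSo x y
  · exact hW x y

theorem T_le {p : ℝ} (h0 : 0 ≤ p) (h1 : p ≤ 1) (m : ℕ) : T p m ≤ Pn p m := by
  have := mir_isProb h0 h1
  refine measureReal_mono ?_
  rintro ω ⟨x, n, hn, -, -⟩
  refine ⟨n, ?_⟩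
  rw [show ray ω s0 n = ((x, (m : ℤ) + 1), Dir.N) from hn]
  simp only [nm]
  omega

theorem P_le {p : ℝ} (h0 : 0 ≤ p) (h1 : p ≤ 1) (n : ℕ) : P p (n + 1) ≤ Pn p n := by
  have := mir_isProb h0 h1
  refine measureReal_mono ?_
  rintro ω ⟨i, -, hi⟩
  refine ⟨i, ?_⟩
  simp only [nm, rp, Prod.fst_sub, Prod.snd_sub] at hi ⊢
  omega

end Basx

theorem thm_Bas : St_Bas :=
  ⟨Basx.meas_Hit, Basx.meas_Bad, fun s Y x => ⟨Basx.meas_Ar s Y x, Basx.dep_Ar s Y x⟩,
    fun m v => ⟨Basx.meas_Su m v, Basx.dep_Su m v⟩, Basx.dep_Bad,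
    fun _ h0 h1 m v => Basx.real_Su h0 h1 m v, fun _ h0 h1 h I s => Basx.real_Hit h0 h1 h I s,
    Basx.nm_add, Basx.nm_rp, fun _ h0 h1 m => Basx.T_le h0 h1 m, fun _ h0 h1 n => Basx.P_le h0 h1 n⟩

end Pool.Agent.MLB
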