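import Pool.Agent.MLB.St

/-!
# The mirror model, module C3: three crossings from four times
-/

set_option autoImplicit false

open Pool.Agent.MSB

namespace Pool.Agent.MLB

private theorem C3_abs {v : ℤ × ℤ} {h : ℕ} (hv : nm v < h) : |v.2| < h := by
  have h1 : v.2.natAbs ≤ nm v := le_max_right _ _
  rw [Int.abs_eq_natAbs]
  exact_mod_cast lt_of_le_of_lt h1 hv

theorem thm_C3 (hKap : St_Kap) (hCrs : St_Crs) : St_C3 := by
  intro Q h n M σ hC Z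
  obtain ⟨κ, h1, h2, -⟩ := hKap Q h n M σ hC
  obtain ⟨hc1, hc2, -⟩ := hCrs (fun k => (Q (σ k)).2) M
  have hlo : ∀ i ≤ n, (Q i).2 ≤ Z - h + 1 → (Q (σ (κ i))).2 ≤ Z := by
    intro i hi hq
    have h3 := C3_abs (h1 i hi).2.2
    rw [abs_lt, Prod.snd_sub] at h3
    omega
  have hup : ∀ i ≤ n, Z + h ≤ (Q i).2 → Z < (Q (σ (κ i))).2 := by
    intro i hi hq
    have h3 := C3_abs (h1 i hi).2.2
    rw [abs_lt, Prod.snd_sub] at h3
    omega
  constructor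
  · intro i1 i2 h12 h2n hq1 hq2
    exact hc1 Z (κ i1) (κ i2) (h2 _ _ h12 h2n) (h1 i2 h2n).1 (hlo _ (h12.trans h2n) hq1)
      (hup _ h2n hq2)
  · intro i1 i2 i3 i4 h12 h23 h34 h4n hq1 hq2 hq3 hq4
    have h3n := h34.trans h4n
    have h2n := h23.trans h3n
    exact hc2 Z (κ i1) (κ i2) (κ i3) (κ i4) (h2 _ _ h12 h2n) (h2 _ _ h23 h3n) (h2 _ _ h34 h4n)
      (h1 i4 h4n).1 (hlo _ (h12.trans h2n) hq1) (hup _ h2n hq2) (hlo _ h3n hq3) (hup _ h4n hq4)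

end Pool.Agent.MLB
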