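import Pool.Agent.MLB.St
import Pool.Agent.Mir.Prob

/-!
# MLB, module CC: uniform lower bound for the number of steps
-/

set_option autoImplicit false

open MeasureTheory Filter Mir Pool.Agent.MSB

namespace Pool.Agent.MLB

theorem thm_CC (hTA : St_TA) (hTwA : St_TwA) (hAsA : St_AsA) (hTw2 : St_Tw2) : St_CC := by
  intro p hp0 hp1
  obtain ⟨A, hA, hc⟩ := hTA p hp0 hp1
  obtain ⟨n0, hn0⟩ := hAsA A hA
  refine ⟨n0, fun n hn => ?_⟩
  obtain ⟨K, J, hK, hKn, hKp, hKA, hL⟩ := hn0 n hn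
  obtain ⟨-, H, hT, hH1, hH2⟩ := hTwA p A K J n hA (by omega) hc hKA
  have h1 := hTw2 p hp0.le hp1.le K (J + 1) H (2 * n) n hK hT (by omega) (by omega)
    (by push_cast; exact hKp)
  have hn1 : (1 : ℝ) ≤ n := by
    have : 1 ≤ n := by omega
    exact_mod_cast this
  have hnH : (n : ℝ) ≤ 2 * H := by
    have : n ≤ 2 * H := by omega
    exact_mod_cast this
  have hL0 : 0 ≤ (Real.log n) ^ (1 / 10 : ℝ) := Real.rpow_nonneg (Real.log_nonneg hn1) _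
  have hx : (n : ℝ) * (Real.log n) ^ (1 / 10 : ℝ) ≤ (4 / 3 : ℝ) ^ (J + 1) * H := by
    have hH0 : (0 : ℝ) ≤ H := Nat.cast_nonneg H
    have h2 : (n : ℝ) * (Real.log n) ^ (1 / 10 : ℝ) ≤ 2 * H * (Real.log n) ^ (1 / 10 : ℝ) :=
      mul_le_mul_of_nonneg_right hnH hL0
    have h3 : (H : ℝ) * (4 * (Real.log n) ^ (1 / 10 : ℝ)) ≤ H * (4 / 3 : ℝ) ^ (J + 1) :=
      mul_le_mul_of_nonneg_left hL hH0
    have h4 : 0 ≤ (H : ℝ) * (Real.log n) ^ (1 / 10 : ℝ) := mul_nonneg hH0 hL0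
    nlinarith
  haveI : IsProbabilityMeasure (mir p) := mir_isProb hp0.le hp1.le
  have h5 : F p n n (n * (Real.log n) ^ (1 / 10 : ℝ)) ≤ F p n H ((4 / 3 : ℝ) ^ (J + 1) * H) := by
    unfold F
    refine measureReal_mono ?_
    rintro ω ⟨s, hs, i, hi, hd⟩
    refine ⟨s, hs, i, ?_, hH2.trans hd⟩
    exact lt_of_lt_of_le hi hx
  refine h5.trans (h1.trans ?_)
  push_cast
  have h6 : (0 : ℝ) < n := by linarith
  rw [div_le_div_iff₀ (by linarith) h6]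
  linarith

end Pool.Agent.MLB
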