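import Pool.Agent.MLB.St

/-!
# The mirror model, lower bounds: the main deterministic inequality (module `Cmb`)
-/

set_option autoImplicit false

open Mir Pool.Agent.MSB

namespace Pool.Agent.MLB

namespace Cmbx

theorem nm_two_lt (v : ℤ × ℤ) (h : ℕ) (hv : nm v < h) : v.2 < (h : ℤ) ∧ -(h : ℤ) < v.2 := by
  have h1 : v.2.natAbs ≤ nm v := le_max_right _ _
  omega

theorem nm_two_le (v : ℤ × ℤ) (h : ℕ) (hv : nm v ≤ h) : |v.2| ≤ (h : ℤ) := by
  have h1 : v.2.natAbs ≤ nm v := le_max_right _ _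
  rw [abs_le]
  omega

end Cmbx

theorem thm_Cmb (_hKap : St_Kap) (hCrs : St_Crs) (hB1 : St_B1) (hC3 : St_C3) : St_Cmb := by
  classical
  intro Q h m n M K σ τ hh hm hK hQ0 hco hQn hτ hmono G hG hGt
  choose! t ht using hGt
  have hKm : ((K * m : ℕ) : ℤ) = (K : ℤ) * m := by push_cast; ring
  have hKm1 : m ≤ K * m := Nat.le_mul_of_pos_left m hK
  have hYm : ∀ Y ∈ G, Y + m ≤ K * m := by
    intro Y hY
    have h1 := (hG Y hY).2
    have h2 : (K - 1) * m + m = K * m := by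
      obtain ⟨k, rfl⟩ : ∃ k, K = k + 1 := ⟨K - 1, by omega⟩
      simp only [Nat.add_sub_cancel]
      ring
    omega
  have hY0 : ∀ Y ∈ G, Y ≤ K * m := fun Y hY => (Nat.le_add_right _ _).trans (hYm Y hY)
  have htn : ∀ Y ∈ G, t Y ≤ n := fun Y hY => ((ht Y hY).2.1).trans ((hτ (Y + m) (hYm Y hY)).1)
  have hc3 := hC3 Q h n M σ hco
  obtain ⟨c, hc⟩ : ∃ c : ℤ → ℕ, ∀ Z, c Z = cr (fun k => (Q (σ k)).2) M Z := ⟨_, fun _ => rfl⟩
  obtain ⟨Bh, hBh⟩ : ∃ B : Finset ℕ,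
      B = G.filter (fun Y => ∀ i, τ Y ≤ i → i ≤ t Y → |(Q i).2 - (Y : ℤ)| < 2 * h) := ⟨_, rfl⟩
  obtain ⟨Bu, hBu⟩ : ∃ B : Finset ℕ,
      B = G.filter (fun Y => ∃ i, τ Y ≤ i ∧ i ≤ t Y ∧ (Y : ℤ) + 2 * h ≤ (Q i).2) := ⟨_, rfl⟩
  obtain ⟨Bd, hBd⟩ : ∃ B : Finset ℕ,
      B = G.filter (fun Y => ∃ i, τ Y ≤ i ∧ i ≤ t Y ∧ (Q i).2 ≤ (Y : ℤ) - 2 * h) := ⟨_, rfl⟩
  have hcov : G ⊆ Bh ∪ Bu ∪ Bd := by
    intro Y hY
    simp only [Finset.mem_union, hBh, hBu, hBd, Finset.mem_filter]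
    by_cases h1 : ∀ i, τ Y ≤ i → i ≤ t Y → |(Q i).2 - (Y : ℤ)| < 2 * h
    · exact Or.inl (Or.inl ⟨hY, h1⟩)
    · push Not at h1
      obtain ⟨i, hi1, hi2, hi3⟩ := h1
      rcases le_abs.1 hi3 with h2 | h2
      · exact Or.inl (Or.inr ⟨hY, i, hi1, hi2, by linarith⟩)
      · exact Or.inr ⟨hY, i, hi1, hi2, by linarith⟩
  have hcard : G.card ≤ Bh.card + Bu.card + Bd.card := by
    have e1 := Finset.card_le_card hcov
    have e2 := Finset.card_union_le (Bh ∪ Bu) Bd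
    have e3 := Finset.card_union_le Bh Bu
    omega
  have h1 : 100 * Bh.card ≤ 4 * h * M := by
    refine hB1 Q h n M σ hh hco Bh τ t ?_
    intro Y hY
    rw [hBh, Finset.mem_filter] at hY
    obtain ⟨ha, hb, hc', hd⟩ := ht Y hY.1
    exact ⟨ha, htn Y hY.1, hd, hY.2⟩
  obtain ⟨S, hS⟩ : ∃ S : Finset ℤ, S = Finset.Icc 0 (((K * m : ℕ) : ℤ) - h) := ⟨_, rfl⟩
  obtain ⟨V, hV⟩ : ∃ V : Finset ℤ, V = S.filter (fun Z => 3 ≤ c Z) := ⟨_, rfl⟩
  have hV1 : Bu.card ≤ V.card := by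
    refine Finset.card_le_card_of_injOn (fun Y : ℕ => (Y : ℤ) + h) ?_ ?_
    · intro Y hY
      have hY' : Y ∈ Bu := hY
      rw [hBu, Finset.mem_filter] at hY'
      obtain ⟨hYG, i, hi1, hi2, hi3⟩ := hY'
      have e1 := hYm Y hYG
      obtain ⟨ta, tb, tc, td⟩ := ht Y hYG
      have e2 := (hτ Y (hY0 Y hYG)).2
      have e3 := (hτ (Y + m) e1)
      have e4 : 3 ≤ cr (fun k => (Q (σ k)).2) M ((Y : ℤ) + h) := by
        refine (hc3 ((Y : ℤ) + h)).2 (τ Y) i (t Y) (τ (Y + m)) hi1 hi2 tb e3.1 ?_ ?_ ?_ ?_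
        · omega
        · omega
        · omega
        · rw [e3.2]
          push_cast
          omega
      show (Y : ℤ) + h ∈ ((V : Finset ℤ) : Set ℤ)
      rw [Finset.mem_coe, hV, Finset.mem_filter, hS, Finset.mem_Icc]
      refine ⟨⟨by omega, by omega⟩, ?_⟩
      rw [hc]
      exact e4
    · intro a _ b _ hab
      simpa using hab
  have hV2 : Bd.card ≤ V.card + 2 * h := by
    have e0 : (Bd.filter (fun Y => 2 * h ≤ Y)).card ≤ V.card := by
      refine Finset.card_le_card_of_injOn (fun Y : ℕ => (Y : ℤ) - h) ?_ ?_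
      · intro Y hY
        have hY' : Y ∈ Bd.filter (fun Y => 2 * h ≤ Y) := hY
        rw [Finset.mem_filter, hBd, Finset.mem_filter] at hY'
        obtain ⟨⟨hYG, i, hi1, hi2, hi3⟩, hY2⟩ := hY'
        have e1 := hYm Y hYG
        obtain ⟨ta, tb, tc, td⟩ := ht Y hYG
        have e2 := (hτ Y (hY0 Y hYG)).2
        have e5 : (Q 0).2 = 0 := by rw [hQ0]; rfl
        have e4 : 3 ≤ cr (fun k => (Q (σ k)).2) M ((Y : ℤ) - h) := by
          refine (hc3 ((Y : ℤ) - h)).2 0 (τ Y) i (t Y) (Nat.zero_le _) hi1 hi2 (htn Y hYG) ?_ ?_ ?_ ?_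
          · omega
          · omega
          · omega
          · omega
        show (Y : ℤ) - h ∈ ((V : Finset ℤ) : Set ℤ)
        rw [Finset.mem_coe, hV, Finset.mem_filter, hS, Finset.mem_Icc]
        refine ⟨⟨by omega, by omega⟩, ?_⟩
        rw [hc]
        exact e4
      · intro a _ b _ hab
        simpa using hab
    have e1 : Bd ⊆ (Bd.filter (fun Y => 2 * h ≤ Y)) ∪ Finset.range (2 * h) := by
      intro Y hY
      rw [Finset.mem_union, Finset.mem_filter, Finset.mem_range]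
      by_cases h2 : 2 * h ≤ Y
      · exact Or.inl ⟨hY, h2⟩
      · exact Or.inr (by omega)
    have e2 := Finset.card_le_card e1
    have e3 := Finset.card_union_le (Bd.filter (fun Y => 2 * h ≤ Y)) (Finset.range (2 * h))
    rw [Finset.card_range] at e3
    omega
  have hone : ∀ Z ∈ S, 1 ≤ c Z := by
    intro Z hZ
    rw [hS, Finset.mem_Icc] at hZ
    have e1 := Cmbx.nm_two_lt _ h (hco.last n hco.le le_rfl)
    have e2 : (Q n - Q (σ M)).2 = (Q n).2 - (Q (σ M)).2 := rfl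
    rw [e2, hQn] at e1
    rw [hc]
    refine (hCrs (fun k => (Q (σ k)).2) M).1 Z 0 M (Nat.zero_le _) le_rfl ?_ ?_
    · show (Q (σ 0)).2 ≤ Z
      rw [hco.zero, hQ0]
      exact hZ.1
    · show Z < (Q (σ M)).2
      omega
  have hsum : S.card + 2 * V.card ≤ ∑ Z ∈ S, c Z := by
    have e1 : ∑ Z ∈ S, (1 + (if 3 ≤ c Z then 2 else 0)) = S.card + 2 * V.card := by
      rw [Finset.sum_add_distrib, hV, Finset.card_filter, Finset.mul_sum]
      congr 1
      · simp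
      · refine Finset.sum_congr rfl fun Z _ => ?_
        split_ifs <;> rfl
    rw [← e1]
    refine Finset.sum_le_sum fun Z hZ => ?_
    have := hone Z hZ
    split_ifs with h3
    · omega
    · omega
  have hcrs : ∑ Z ∈ S, c Z ≤ M * h := by
    have e1 := (hCrs (fun k => (Q (σ k)).2) M).2.2 h S (by
      intro k hk
      exact Cmbx.nm_two_le (Q (σ (k + 1)) - Q (σ k)) h (hco.step k hk))
    calc ∑ Z ∈ S, c Z = ∑ Z ∈ S, cr (fun k => (Q (σ k)).2) M Z := Finset.sum_congr rfl fun Z _ => hc Z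
      _ ≤ M * h := e1
  have hScard : S.card + h = K * m + 1 := by
    rw [hS, Int.card_Icc]
    omega
  have e9 : 4 * h * M = 4 * (M * h) := by ring
  rw [e9] at h1
  omega

end Pool.Agent.MLB
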