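import Pool.Agent.MLB.St
import Pool.Agent.Mir.Prob

/-!
# MLB, module Cnt: counting the states of a spanning ray
-/

set_option autoImplicit false

open MeasureTheory Filter Mir Pool.Agent.MSB

noncomputable section

namespace Pool.Agent.MLB

theorem thm_Cnt (hp : Stmt_par) : St_Cnt := by
  classical
  intro h l ω hh hgood
  obtain ⟨x, t, ⟨n, hn⟩, ht⟩ := hp (2 * h + 1) (2 * h) ⟨h, rfl⟩ ω
  obtain ⟨h1, h2, h3⟩ := hn
  have hht : t.1.2 = 2 * (h : ℤ) + 1 := by rw [ht]; push_cast; ring
  have hnl : l ≤ n := by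
    by_contra hcon
    have h4 := hgood x n (by omega)
    rw [h1, hht] at h4
    have : (0 : ℤ) ≤ h := Int.natCast_nonneg h
    linarith
  have hin : ∀ i < l, 1 ≤ (ray ω ((x, 1), Dir.N) i).1.2 ∧ (ray ω ((x, 1), Dir.N) i).1.2 ≤ h := by
    intro i hi
    have h4 := (h3 i (by omega)).1
    have h5 := hgood x i hi
    exact ⟨h4, by linarith⟩
  have hmem : ∀ i < l, ray ω ((x, 1), Dir.N) i ∈ U h ω := by
    intro i hi
    obtain ⟨h4, h5⟩ := hin i hi
    simp only [U, Finset.mem_filter, Finset.mem_product, Finset.mem_univ, true_and, and_true,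
      Finset.mem_Icc]
    refine ⟨⟨h4, h5⟩, n - i, ?_⟩
    rw [← ray_add, Nat.add_sub_cancel' (by omega : i ≤ n), h1, hht]
    linarith
  have hinj : Set.InjOn (fun i => ray ω ((x, 1), Dir.N) i) (Finset.range l : Set ℕ) := by
    have aux : ∀ i k, i + (k + 1) < l →
        ray ω ((x, 1), Dir.N) i ≠ ray ω ((x, 1), Dir.N) (i + (k + 1)) := by
      intro i k hik heq
      have h4 : ray ω ((x, 1), Dir.N) (i + (k + 1)) =
          ray ω (ray ω ((x, 1), Dir.N) (k + 1)) i := by
        rw [add_comm i, ray_add]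
      rw [h4] at heq
      have h5 := ray_inj ω i heq
      have h6 := ray_prev ω ((x, 1), Dir.N) k
      rw [← h5] at h6
      have h7 := (h3 k (by omega)).1
      rw [← h6] at h7
      have h8 : (1 : ℤ) ≤ 1 - 1 := h7
      omega
    intro i hi j hj hij
    simp only [Finset.coe_range, Set.mem_Iio] at hi hj
    rcases lt_trichotomy i j with h4 | h4 | h4
    · obtain ⟨k, rfl⟩ : ∃ k, j = i + (k + 1) := ⟨j - i - 1, by omega⟩
      exact absurd hij (aux i k hj)
    · exact h4
    · obtain ⟨k, rfl⟩ : ∃ k, i = j + (k + 1) := ⟨i - j - 1, by omega⟩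
      exact absurd hij.symm (aux j k hi)
  have hcard := Finset.card_le_card_of_injOn (s := Finset.range l) (t := U h ω)
    (fun i => ray ω ((x, 1), Dir.N) i) (fun i hi => hmem i (Finset.mem_range.1 hi)) hinj
  rwa [Finset.card_range] at hcard

end Pool.Agent.MLB
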