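import Pool.Agent.MLB.St
import Pool.Agent.Mir.Prob

/-!
# Mirror model, lower bounds: comparison of the cylinder with the plane

Module `Cov` (`St_Cov`). Architect helper98.
-/

set_option autoImplicit false

open MeasureTheory Filter Mir Pool.Agent.MSB

noncomputable section

namespace Pool.Agent.MLB

/-- the section of the projection with values in the columns `a, ..., a + w - 1` -/
private def cvSec (a : ℤ) (w : ℕ) (v : ZMod w × ℤ) : ℤ × ℤ :=
  (a + ((v.1 - (a : ZMod w)).val : ℤ), v.2)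

private def cvProj (w : ℕ) (s : (ℤ × ℤ) × Dir) : (ZMod w × ℤ) × Dir :=
  (((s.1.1 : ZMod w), s.1.2), s.2)

private theorem cvSec_inj (a : ℤ) (w : ℕ) [NeZero w] : Function.Injective (cvSec a w) := by
  rintro ⟨z, y⟩ ⟨z', y'⟩ h
  simp only [cvSec, Prod.mk.injEq] at h
  obtain ⟨h1, h2⟩ := h
  have h3 : (z - (a : ZMod w)).val = (z' - (a : ZMod w)).val := by omega
  have h4 := ZMod.val_injective w h3
  have h5 : z = z' := by
    have := congrArg (· + (a : ZMod w)) h4
    simpa using this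
  rw [h5, h2]

private theorem cvSec_proj (a : ℤ) (w : ℕ) [NeZero w] (v : ℤ × ℤ) (h1 : a ≤ v.1)
    (h2 : v.1 ≤ a + w - 1) : cvSec a w ((v.1 : ZMod w), v.2) = v := by
  obtain ⟨x, y⟩ := v
  simp only [cvSec, Prod.mk.injEq, and_true]
  simp only at h1 h2
  have h3 : ((x : ZMod w) - (a : ZMod w)) = (((x - a : ℤ)) : ZMod w) := by push_cast; ring
  rw [h3, ZMod.val_intCast, Int.emod_eq_of_lt (by omega) (by omega)]
  ring

private theorem cv_step (a : ℤ) (w : ℕ) [NeZero w] (ω : ℤ × ℤ → Fin 3) (s : (ℤ × ℤ) × Dir)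
    (h1 : a ≤ s.1.1) (h2 : s.1.1 ≤ a + w - 1) :
    cvProj w (step ω s) = step (fun v => ω (cvSec a w v)) (cvProj w s) := by
  have h3 := cvSec_proj a w s.1 h1 h2
  simp only [step, cvProj]
  rw [h3]
  generalize turn (ω s.1) s.2 = e
  cases e <;> simp [vec]

theorem thm_Cov (hB : St_Bas) : St_Cov := by
  intro p hp0 hp1 h I u hh hI
  have hP := mir_isProb hp0 hp1
  have hne : NeZero (2 * h + 1) := ⟨by omega⟩
  obtain ⟨⟨z, y⟩, d⟩ := u
  have hmeas := hB.1
  have hinv := hB.2.2.2.2.2.2.1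
  obtain ⟨x, hx⟩ : ∃ x : ℤ, (x : ZMod (2 * h + 1)) = z := ⟨(z.val : ℤ), by simp⟩
  set E : Set (ZMod (2 * h + 1) × ℤ → Fin 3) :=
    {ω | ∃ i ∈ I, y + (h : ℤ) ≤ (ray ω ((z, y), d) i).1.2} with hE
  have hEm : MeasurableSet E := by
    have : Countable (ZMod (2 * h + 1)) := Finite.to_countable
    have e : E = ⋃ i, ⋃ (_ : i ∈ I), {ω | y + (h : ℤ) ≤ (ray ω ((z, y), d) i).1.2} := by
      ext ω; simp [hE]
    rw [e]
    exact MeasurableSet.iUnion fun i => MeasurableSet.iUnion fun _ =>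
      meas_ray_prop _ i fun t => y + (h : ℤ) ≤ t.1.2
  have hpre := (reindex hp0 hp1 (cvSec_inj (x - h) (2 * h + 1))).measure_preimage
    hEm.nullMeasurableSet
  have hpre' : (mirOn (ZMod (2 * h + 1) × ℤ) p).real E
      = (mir p).real ((fun (ω : ℤ × ℤ → Fin 3) v => ω (cvSec (x - h) (2 * h + 1) v)) ⁻¹' E) := by
    rw [Measure.real, Measure.real, ← hpre]; rfl
  change (mirOn (ZMod (2 * h + 1) × ℤ) p).real E ≤ _
  rw [hpre', ← hinv p hp0 hp1 h I ((x, y), d)]
  refine measureReal_mono ?_ (measure_ne_top _ _)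
  intro ω hω
  by_contra hnot
  have hnot' : ∀ i ∈ I, nm (rp ω ((x, y), d) i) < h := by
    intro i hi
    by_contra hc
    exact hnot ⟨i, hi, not_lt.1 hc⟩
  obtain ⟨i, hi, hge⟩ := hω
  have hcol : ∀ j ≤ i, x - h < (ray ω ((x, y), d) j).1.1 ∧ (ray ω ((x, y), d) j).1.1 < x + h ∧
      (ray ω ((x, y), d) j).1.2 < y + h := by
    intro j hj
    have h1 := hnot' j (hI i hi j hj)
    simp only [nm, rp, Prod.fst_sub, Prod.snd_sub] at h1
    omega
  have key : ∀ j ≤ i, ray (fun v => ω (cvSec (x - h) (2 * h + 1) v)) ((z, y), d) j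
      = cvProj (2 * h + 1) (ray ω ((x, y), d) j) := by
    intro j
    induction j with
    | zero =>
      intro _
      simp only [ray_zero, cvProj]
      rw [hx]
    | succ j ih =>
      intro hj
      obtain ⟨g1, g2, _⟩ := hcol j (by omega)
      rw [ray_succ, ray_succ, ih (by omega),
        cv_step (x - h) (2 * h + 1) ω _ (by omega) (by push_cast; omega)]
  have h1 := hcol i le_rfl
  have h2 : y + (h : ℤ) ≤
      (ray (fun v => ω (cvSec (x - h) (2 * h + 1) v)) ((z, y), d) i).1.2 := hge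
  rw [key i le_rfl] at h2
  have h3 : y + (h : ℤ) ≤ (ray ω ((x, y), d) i).1.2 := h2
  omega

end Pool.Agent.MLB
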