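import Pool.Agent.MLB.St

/-!
# MLB, module Crs: crossings of a level by an integer path
-/

set_option autoImplicit false

namespace Pool.Agent.MLB

namespace Crsx

theorem up {y : ℕ → ℤ} {Z : ℤ} {a : ℕ} (ha : y a ≤ Z) : ∀ b, a ≤ b → Z < y b →
    ∃ k, a ≤ k ∧ k < b ∧ y k ≤ Z ∧ Z < y (k + 1) := by
  intro b
  induction b with
  | zero =>
    intro h1 h2
    obtain rfl : a = 0 := by omega
    omega
  | succ b ih =>
    intro h1 h2
    by_cases h3 : a = b + 1
    · subst h3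
      omega
    · by_cases h4 : Z < y b
      · obtain ⟨k, k1, k2, k3, k4⟩ := ih (by omega) h4
        exact ⟨k, k1, by omega, k3, k4⟩
      · exact ⟨b, by omega, by omega, by omega, h2⟩

theorem down {y : ℕ → ℤ} {Z : ℤ} {a : ℕ} (ha : Z < y a) : ∀ b, a ≤ b → y b ≤ Z →
    ∃ k, a ≤ k ∧ k < b ∧ Z < y k ∧ y (k + 1) ≤ Z := by
  intro b
  induction b with
  | zero =>
    intro h1 h2
    obtain rfl : a = 0 := by omega
    omega
  | succ b ih =>
    intro h1 h2
    by_cases h3 : a = b + 1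
    · subst h3
      omega
    · by_cases h4 : Z < y b
      · exact ⟨b, by omega, by omega, h4, h2⟩
      · obtain ⟨k, k1, k2, k3, k4⟩ := ih (by omega) (by omega)
        exact ⟨k, k1, by omega, k3, k4⟩

end Crsx

theorem thm_Crs : St_Crs := by
  intro y M
  refine ⟨?_, ?_, ?_⟩
  · intro Z k1 k2 h1 h2 h3 h4
    obtain ⟨k, a1, a2, a3, a4⟩ := Crsx.up h3 k2 h1 h4
    unfold cr
    refine Finset.card_pos.2 ⟨k, ?_⟩
    rw [Finset.mem_filter, Finset.mem_range]
    exact ⟨by omega, Or.inl ⟨a3, a4⟩⟩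
  · intro Z k1 k2 k3 k4 h1 h2 h3 h4 g1 g2 g3 g4
    obtain ⟨a, a1, a2, a3, a4⟩ := Crsx.up g1 k2 h1 g2
    obtain ⟨b, b1, b2, b3, b4⟩ := Crsx.down g2 k3 h2 g3
    obtain ⟨c, c1, c2, c3, c4⟩ := Crsx.up g3 k4 h3 g4
    unfold cr
    have h5 : ({a, b, c} : Finset ℕ) ⊆ (Finset.range M).filter fun k =>
        (y k ≤ Z ∧ Z < y (k + 1)) ∨ (y (k + 1) ≤ Z ∧ Z < y k) := by
      intro k hk
      simp only [Finset.mem_insert, Finset.mem_singleton] at hk
      rw [Finset.mem_filter, Finset.mem_range]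
      rcases hk with rfl | rfl | rfl
      · exact ⟨by omega, Or.inl ⟨a3, a4⟩⟩
      · exact ⟨by omega, Or.inr ⟨b4, b3⟩⟩
      · exact ⟨by omega, Or.inl ⟨c3, c4⟩⟩
    have h6 : ({a, b, c} : Finset ℕ).card = 3 := by
      rw [Finset.card_eq_three]
      exact ⟨a, b, c, by omega, by omega, by omega, rfl⟩
    rw [← h6]
    exact Finset.card_le_card h5
  · intro h S hS
    have h1 : ∑ Z ∈ S, cr y M Z = ∑ k ∈ Finset.range M, (S.filter fun Z =>
        (y k ≤ Z ∧ Z < y (k + 1)) ∨ (y (k + 1) ≤ Z ∧ Z < y k)).card :=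
      Finset.sum_card_bipartiteAbove_eq_sum_card_bipartiteBelow fun (Z : ℤ) (k : ℕ) =>
        (y k ≤ Z ∧ Z < y (k + 1)) ∨ (y (k + 1) ≤ Z ∧ Z < y k)
    rw [h1]
    have h2 : ∀ k ∈ Finset.range M, (S.filter fun Z =>
        (y k ≤ Z ∧ Z < y (k + 1)) ∨ (y (k + 1) ≤ Z ∧ Z < y k)).card ≤ h := by
      intro k hk
      have h3 := hS k (Finset.mem_range.1 hk)
      have h4 : (S.filter fun Z => (y k ≤ Z ∧ Z < y (k + 1)) ∨ (y (k + 1) ≤ Z ∧ Z < y k)) ⊆
          Finset.Ico (min (y k) (y (k + 1))) (max (y k) (y (k + 1))) := by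
        intro Z hZ
        rw [Finset.mem_filter] at hZ
        rw [Finset.mem_Ico]
        omega
      refine (Finset.card_le_card h4).trans ?_
      rw [Int.card_Ico]
      rw [abs_le] at h3
      omega
    calc ∑ k ∈ Finset.range M, (S.filter fun Z =>
        (y k ≤ Z ∧ Z < y (k + 1)) ∨ (y (k + 1) ≤ Z ∧ Z < y k)).card
        ≤ ∑ k ∈ Finset.range M, h := Finset.sum_le_sum h2
      _ = M * h := by rw [Finset.sum_const, Finset.card_range, smul_eq_mul]

end Pool.Agent.MLB
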