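import Pool.Agent.MLB.St
import Pool.Agent.Mir.Prob

/-!
# MLB, module Cyl: the lower bound from the parity argument
-/

set_option autoImplicit false

open MeasureTheory Filter Mir Pool.Agent.MSB

noncomputable section

namespace Pool.Agent.MLB

namespace Cylx

open Classical in
/-- Markov inequality for a finite number of events -/
theorem markov {Ω ι : Type} [MeasurableSpace Ω] (μ : Measure Ω) [IsProbabilityMeasure μ]
    (S : Finset ι) (q : Ω → ι → Prop) (hq : ∀ i ∈ S, MeasurableSet {ω | q ω i}) (G : Set Ω) (l : ℕ)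
    (hG : ∀ ω ∈ G, l ≤ (S.filter (q ω)).card) :
    (l : ℝ) * μ.real G ≤ ∑ i ∈ S, μ.real {ω | q ω i} := by
  have h1 : ∫⁻ ω, ∑ i ∈ S, ({ω | q ω i} : Set Ω).indicator (fun _ => (1 : ENNReal)) ω ∂μ =
      ∑ i ∈ S, μ {ω | q ω i} := by
    rw [lintegral_finsetSum' _ fun i hi => (measurable_const.indicator (hq i hi)).aemeasurable]
    refine Finset.sum_congr rfl fun i hi => ?_
    rw [lintegral_indicator (hq i hi), lintegral_one, Measure.restrict_apply_univ]
  have hmeas : Measurable fun ω => ∑ i ∈ S,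
      ({ω | q ω i} : Set Ω).indicator (fun _ => (1 : ENNReal)) ω :=
    Finset.measurable_fun_sum _ fun i hi => measurable_const.indicator (hq i hi)
  have h2 := mul_meas_ge_le_lintegral (μ := μ) hmeas (l : ENNReal)
  rw [h1] at h2
  have h3 : μ G ≤ μ {ω | (l : ENNReal) ≤ ∑ i ∈ S,
      ({ω | q ω i} : Set Ω).indicator (fun _ => (1 : ENNReal)) ω} := by
    apply measure_mono
    intro ω hω
    have h4 := hG ω hω
    show (l : ENNReal) ≤ _
    have h5 : ∑ i ∈ S, ({ω | q ω i} : Set Ω).indicator (fun _ => (1 : ENNReal)) ω =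
        ((S.filter (q ω)).card : ENNReal) := by
      rw [Finset.card_filter]
      push_cast
      refine Finset.sum_congr rfl fun i _ => ?_
      rw [Set.indicator_apply]
      rfl
    rw [h5]
    exact_mod_cast h4
  have h4 : (l : ENNReal) * μ G ≤ ∑ i ∈ S, μ {ω | q ω i} := le_trans (mul_le_mul_right h3 _) h2
  have h5 := ENNReal.toReal_mono
    (ENNReal.sum_ne_top.2 fun i _ => measure_ne_top μ {ω | q ω i}) h4
  rw [ENNReal.toReal_mul, ENNReal.toReal_sum fun i _ => measure_ne_top μ _,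
    ENNReal.toReal_natCast] at h5
  exact h5

end Cylx

theorem thm_Cyl (hCov : St_Cov) (hCnt : St_Cnt) (_ : St_Bas) : St_Cyl := by
  intro p hp0 hp1 h x hh hx
  have hprob : IsProbabilityMeasure (mirOn (ZMod (2 * h + 1) × ℤ) p) := mirOn_isProb hp0 hp1
  set μ := mirOn (ZMod (2 * h + 1) × ℤ) p with hμ
  set l := ⌈x⌉₊ with hl
  have hil : ∀ i : ℕ, i < l ↔ (i : ℝ) < x := fun i => Nat.lt_ceil
  have hxl : x ≤ l := Nat.le_ceil x
  have hP0 : 0 ≤ P p h := measureReal_nonneg
  set G : Set (ZMod (2 * h + 1) × ℤ → Fin 3) :=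
    {ω | ∀ x' : ZMod (2 * h + 1), ∀ i < l, (ray ω ((x', 1), Dir.N) i).1.2 < (h : ℤ) + 1} with hG
  -- the probability of `G`
  have hGc : μ.real Gᶜ ≤ (2 * h + 1) * qf p h x := by
    have h1 : Gᶜ ⊆ ⋃ x' : ZMod (2 * h + 1), {ω | ∃ i ∈ tm x,
        ((((x', 1), Dir.N) : (ZMod (2 * h + 1) × ℤ) × Dir).1.2 : ℤ) + (h : ℤ) ≤
          (ray ω ((x', 1), Dir.N) i).1.2} := by
      intro ω hω
      rw [Set.mem_compl_iff, hG, Set.mem_ofPred_eq] at hω
      push Not at hω
      obtain ⟨x', i, hi, hi2⟩ := hω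
      refine Set.mem_iUnion.2 ⟨x', i, (hil i).1 hi, ?_⟩
      show (1 : ℤ) + h ≤ _
      linarith
    refine le_trans (measureReal_mono h1) (le_trans (measureReal_iUnion_fintype_le _) ?_)
    refine le_trans (Finset.sum_le_sum fun x' _ =>
      hCov p hp0 hp1 h (tm x) ((x', 1), Dir.N) hh ?_) ?_
    · intro i hi j hj
      have h2 : (i : ℝ) < x := hi
      have h3 : (j : ℝ) ≤ i := by exact_mod_cast hj
      exact lt_of_le_of_lt h3 h2
    · rw [Finset.sum_const, Finset.card_univ, ZMod.card, nsmul_eq_mul]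
      push_cast
      exact le_refl _
  have hG1 : 1 - (2 * h + 1) * qf p h x ≤ μ.real G := by
    have h1 : (1 : ℝ) = μ.real (G ∪ Gᶜ) := by
      rw [Set.union_compl_self, probReal_univ]
    have h2 := measureReal_union_le (μ := μ) G Gᶜ
    linarith
  -- the number of states
  have hcnt := Cylx.markov μ ((Finset.univ ×ˢ Finset.Icc (1 : ℤ) h) ×ˢ Finset.univ)
    (fun (ω : ZMod (2 * h + 1) × ℤ → Fin 3) (u : (ZMod (2 * h + 1) × ℤ) × Dir) =>
      ∃ j, u.1.2 + (h : ℤ) ≤ (ray ω u j).1.2)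
    (by
      intro u _
      have h1 : {ω : ZMod (2 * h + 1) × ℤ → Fin 3 | ∃ j, u.1.2 + (h : ℤ) ≤ (ray ω u j).1.2} =
          ⋃ j, {ω | u.1.2 + (h : ℤ) ≤ (ray ω u j).1.2} := by
        ext ω
        simp
      rw [h1]
      exact MeasurableSet.iUnion fun j => meas_ray_prop u j fun t => u.1.2 + (h : ℤ) ≤ t.1.2)
    G l (fun ω hω => hCnt h l ω hh hω)
  have hsum : ∑ u ∈ ((Finset.univ ×ˢ Finset.Icc (1 : ℤ) h) ×ˢ Finset.univ :
      Finset ((ZMod (2 * h + 1) × ℤ) × Dir)),
      μ.real {ω | ∃ j, u.1.2 + (h : ℤ) ≤ (ray ω u j).1.2} ≤ 4 * h * (2 * h + 1) * P p h := by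
    refine le_trans (Finset.sum_le_sum (g := fun _ => P p h) fun u _ => ?_) ?_
    · have h1 := hCov p hp0 hp1 h Set.univ u hh (fun _ _ _ _ => Set.mem_univ _)
      have h2 : {ω : ZMod (2 * h + 1) × ℤ → Fin 3 | ∃ j, u.1.2 + (h : ℤ) ≤ (ray ω u j).1.2} =
          {ω | ∃ i ∈ Set.univ, u.1.2 + (h : ℤ) ≤ (ray ω u i).1.2} := by
        ext ω
        simp
      rw [h2]
      exact h1
    · rw [Finset.sum_const, Finset.card_product, Finset.card_product, Finset.card_univ,
        Finset.card_univ, ZMod.card, Int.card_Icc, nsmul_eq_mul]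
      have h1 : ((h : ℤ) + 1 - 1).toNat = h := by omega
      have h2 : Fintype.card Dir = 4 := rfl
      rw [h1, h2]
      push_cast
      apply le_of_eq
      ring
  rcases le_or_gt (1 - (2 * h + 1) * qf p h x) 0 with h0 | h0
  · refine le_trans (mul_nonpos_of_nonneg_of_nonpos hx h0) ?_
    positivity
  · have h1 : x * (1 - (2 * h + 1) * qf p h x) ≤ (l : ℝ) * μ.real G :=
      mul_le_mul hxl hG1 h0.le (Nat.cast_nonneg _)
    exact le_trans h1 (le_trans hcnt hsum)

end Pool.Agent.MLB
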