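import Pool.Agent.MLB.St
import Pool.Agent.Mir.Det

/-!
# MLB, module Det: a climbing ray with many good heights is slow
-/

set_option autoImplicit false

open Mir Pool.Agent.MSB

namespace Pool.Agent.MLB

namespace Detx

theorem rp_zero (ω : ℤ × ℤ → Fin 3) (s : (ℤ × ℤ) × Dir) : rp ω s 0 = 0 := by
  simp [rp]

theorem rp_succ (ω : ℤ × ℤ → Fin 3) (s : (ℤ × ℤ) × Dir) (i : ℕ) :
    nm (rp ω s (i + 1) - rp ω s i) ≤ 1 := by
  have e : rp ω s (i + 1) - rp ω s i = vec (ray ω s (i + 1)).2 := by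
    unfold rp
    rw [← ray_prev ω s i]
    abel
  rw [e]
  cases (ray ω s (i + 1)).2 <;> simp [vec, nm]

theorem rp_add (ω : ℤ × ℤ → Fin 3) (s : (ℤ × ℤ) × Dir) (k i : ℕ) :
    rp ω (ray ω s k) i = rp ω s (k + i) - rp ω s k := by
  unfold rp
  rw [ray_add]
  abel

/-- the first hitting times of the heights -/
theorem hit (Q : ℕ → ℤ × ℤ) (N n : ℕ) (h0 : Q 0 = 0) (hQ : ∀ i, nm (Q (i + 1) - Q i) ≤ 1)
    (hn : (N : ℤ) ≤ (Q n).2) :
    ∃ τ : ℕ → ℕ, (∀ Y ≤ N, τ Y ≤ n ∧ (Q (τ Y)).2 = (Y : ℤ) ∧ ∀ i < τ Y, (Q i).2 < (Y : ℤ)) ∧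
      ∀ Y Y', Y ≤ Y' → Y' ≤ N → τ Y ≤ τ Y' := by
  classical
  have key : ∀ Y : ℕ, ∃ t : ℕ, Y ≤ N →
      t ≤ n ∧ (Q t).2 = (Y : ℤ) ∧ ∀ i < t, (Q i).2 < (Y : ℤ) := by
    intro Y
    by_cases hY : Y ≤ N
    · have hex : ∃ i, (Y : ℤ) ≤ (Q i).2 := ⟨n, by omega⟩
      refine ⟨Nat.find hex, fun _ => ⟨Nat.find_min' hex (by omega), ?_, ?_⟩⟩
      · have h1 := Nat.find_spec hex
        rcases Nat.eq_zero_or_pos (Nat.find hex) with hz | hp
        · rw [hz, h0] at h1 ⊢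
          have h2 : ((0 : ℤ × ℤ)).2 = 0 := rfl
          rw [h2] at h1 ⊢
          omega
        · obtain ⟨k, hk⟩ : ∃ k, Nat.find hex = k + 1 := ⟨Nat.find hex - 1, by omega⟩
          have h2 : ¬ (Y : ℤ) ≤ (Q k).2 := Nat.find_min hex (by omega)
          rw [hk] at h1 ⊢
          have h3 := hQ k
          unfold nm at h3
          have h4 : (Q (k + 1) - Q k).2 = (Q (k + 1)).2 - (Q k).2 := rfl
          rw [h4] at h3
          omega
      · intro i hi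
        have h2 : ¬ (Y : ℤ) ≤ (Q i).2 := Nat.find_min hex hi
        omega
    · exact ⟨0, fun h => absurd h hY⟩
  choose τ hτ using key
  refine ⟨τ, hτ, ?_⟩
  intro Y Y' hYY hN
  by_contra hlt
  have h1 := (hτ Y (le_trans hYY hN)).2.2 (τ Y') (by omega)
  have h2 := (hτ Y' hN).2.1
  omega

/-- the last computation -/
theorem arith (K m h M g : ℕ) (lam n : ℝ) (hlam : 0 ≤ lam) (hm : 2 * h ≤ m) (hK : 19 ≤ K)
    (hg : K * m ≤ 2 * g) (h1 : 100 * (g + (K + 1) * m) ≤ 104 * (M * h) + 300 * h)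
    (h2 : (M : ℝ) * (lam * h) ≤ n) : (4 / 3) * lam * (((K + 1) * m : ℕ) : ℝ) ≤ n := by
  have h3 : 19 * m ≤ K * m := Nat.mul_le_mul_right m hK
  have e1 : (K + 1) * m = K * m + m := by ring
  have h4 : 4 * ((K + 1) * m) ≤ 3 * (M * h) := by
    rw [e1] at h1 ⊢
    omega
  have h5 : (4 : ℝ) * (((K + 1) * m : ℕ) : ℝ) ≤ 3 * ((M : ℝ) * h) := by exact_mod_cast h4
  have h6 := mul_le_mul_of_nonneg_left h5 hlam
  have e2 : (M : ℝ) * (lam * h) = lam * ((M : ℝ) * h) := by ring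
  rw [e2] at h2
  have e3 : (4 / 3) * lam * (((K + 1) * m : ℕ) : ℝ) = (lam * (4 * (((K + 1) * m : ℕ) : ℝ))) / 3 := by
    ring
  have e4 : lam * (3 * ((M : ℝ) * h)) = 3 * (lam * ((M : ℝ) * h)) := by ring
  rw [e3]
  rw [e4] at h6
  linarith only [h6, h2]

end Detx

theorem thm_Det (h1 : St_Gr) (h2 : St_Cmb) (h3 : St_Gl) : St_Det := by
  classical
  intro ω s h m K n lam hlam hh hm hK hn hH hMB
  obtain ⟨K', rfl⟩ : ∃ K', K = K' + 1 := ⟨K - 1, by omega⟩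
  have e1 : (K' + 1) * m = K' * m + m := by ring
  have e2 : K' + 1 - 1 = K' := by omega
  obtain ⟨τ, hτ, hmono⟩ := Detx.hit (rp ω s) ((K' + 1) * m) n (Detx.rp_zero ω s)
    (Detx.rp_succ ω s) hn
  have hn0 := hτ ((K' + 1) * m) le_rfl
  obtain ⟨M, σ, hC, hM⟩ := h1 (rp ω s) h (τ ((K' + 1) * m)) (lam * h) hh (Detx.rp_succ ω s)
    (fun k hk i hi => by
      by_contra hlt
      refine hH k (le_trans hk hn0.1) ⟨i, not_le.mp hlt, ?_⟩
      rw [Detx.rp_add]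
      exact hi)
  rw [e2] at hMB
  have hcard : 2 * ((Finset.Icc 1 (K' * m)).filter fun Y => ω ∈ Bad s (101 * h) m Y).card ≤ K' * m := by
    have h5 : ¬ (K' * m < 2 * ((Finset.Icc 1 (K' * m)).filter fun Y => ω ∈ Bad s (101 * h) m Y).card) := by
      intro h6
      apply hMB
      unfold MB
      rw [Set.mem_ofPred_eq]
      refine lt_of_lt_of_eq h6 ?_
      congr
    omega
  have hsum := Finset.card_filter_add_card_filter_not (s := Finset.Icc 1 (K' * m))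
    (fun Y => ω ∈ Bad s (101 * h) m Y)
  rw [Nat.card_Icc] at hsum
  set G : Finset ℕ := (Finset.Icc 1 (K' * m)).filter fun Y => ¬ ω ∈ Bad s (101 * h) m Y with hG
  have hg : K' * m ≤ 2 * G.card := by omega
  have h4 := h2 (rp ω s) h m (τ ((K' + 1) * m)) M (K' + 1) σ τ hh hm (by omega) (Detx.rp_zero ω s) hC
    hn0.2.1 (fun Y hY => ⟨hmono Y _ hY le_rfl, (hτ Y hY).2.1⟩) hmono G
    (fun Y hY => by
      rw [hG, Finset.mem_filter, Finset.mem_Icc] at hY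
      rw [e2]
      exact hY.1)
    (fun Y hY => by
      rw [hG, Finset.mem_filter, Finset.mem_Icc] at hY
      have hY1 : Y ≤ (K' + 1) * m := by omega
      have hY2 : Y + m ≤ (K' + 1) * m := by omega
      have ha := hτ Y hY1
      have hb := hτ (Y + m) hY2
      have e3 : ((Y + m : ℕ) : ℤ) = (Y : ℤ) + m := by push_cast; ring
      rw [e3] at hb
      obtain ⟨t, ht1, ht2, ht3, ht4⟩ := h3 ω s (101 * h) m Y (τ Y) (τ (Y + m)) (by omega) hY.1.1 hY.2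
        (le_of_eq ha.2.1.symm) ha.2.2 (le_of_eq hb.2.1.symm) hb.2.2
      refine ⟨t, ht1, ht2, ht3, ?_⟩
      have e4 : ((101 * h : ℕ) : ℤ) = 101 * (h : ℤ) := by push_cast; ring
      rw [e4] at ht4
      exact ht4)
  have h6 : (τ ((K' + 1) * m) : ℝ) ≤ n := by exact_mod_cast hn0.1
  exact Detx.arith K' m h M G.card lam n hlam hm (by omega) hg h4 (le_trans hM h6)

end Pool.Agent.MLB
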