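import Pool.Agent.MLB.St

/-!
# The mirror model, lower bounds: good heights
-/

set_option autoImplicit false

open Mir Pool.Agent.MSB

namespace Pool.Agent.MLB

namespace Glx

theorem up (ω : ℤ × ℤ → Fin 3) (s : (ℤ × ℤ) × Dir) (i : ℕ) (v : ℤ) (h1 : (ray ω s i).1.2 < v)
    (h2 : v ≤ (ray ω s (i + 1)).1.2) :
    (ray ω s (i + 1)).1.2 = v ∧ (ray ω s (i + 1)).2 = Dir.N := by
  have h3 := ray_prev ω s i
  have h4 : (ray ω s (i + 1)).1.2 - (vec (ray ω s (i + 1)).2 : ℤ × ℤ).2 = (ray ω s i).1.2 :=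
    congrArg Prod.snd h3
  generalize (ray ω s (i + 1)).2 = d at h4 ⊢
  cases d with
  | N =>
    simp only [vec] at h4
    exact ⟨by omega, rfl⟩
  | S =>
    simp only [vec] at h4
    omega
  | E =>
    simp only [vec] at h4
    omega
  | W =>
    simp only [vec] at h4
    omega

end Glx

theorem thm_Gl : St_Gl := by
  intro ω s R m Y a b hm hY hbad ha1 ha2 hb1 hb2
  have hH : ∀ i, (rp ω s i).2 = (ray ω s i).1.2 - s.1.2 := fun i => rfl
  have hX : ∀ i, (rp ω s i).1 = (ray ω s i).1.1 - s.1.1 := fun i => rfl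
  have hrp0 : (rp ω s 0).2 = 0 := by
    rw [hH, ray_zero]
    ring
  -- first arrivals
  have harr : ∀ (v : ℤ) (k : ℕ), 0 < v → v ≤ (rp ω s k).2 → (∀ i < k, (rp ω s i).2 < v) →
      (ray ω s k).1.2 = s.1.2 + v ∧ (ray ω s k).2 = Dir.N := by
    intro v k hv h1 h2
    rcases k with _ | k
    · rw [hrp0] at h1
      omega
    · have h3 := h2 k (Nat.lt_succ_self k)
      rw [hH] at h1 h3
      exact Glx.up ω s k (s.1.2 + v) (by omega) (by omega)
  obtain ⟨haH, haN⟩ := harr Y a (by omega) ha1 ha2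
  obtain ⟨hbH, hbN⟩ := harr (Y + m) b (by omega) hb1 hb2
  have hab : a ≤ b := by
    by_contra hcon
    have h1 := ha2 b (by omega)
    omega
  have hAr : ω ∈ Ar s Y (ray ω s a).1.1 := by
    refine ⟨a, ?_, ?_, ?_⟩
    · apply Prod.ext
      · apply Prod.ext
        · rfl
        · exact haH
      · exact haN
    · show ¬ (s.1.2 + (Y : ℤ) < s.1.2 + Y)
      exact lt_irrefl _
    · intro i hi
      show (ray ω s i).1.2 < s.1.2 + Y
      have h1 := ha2 i hi
      rw [hH] at h1
      omega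
  -- the last passage
  classical
  let Pd : ℕ → Prop := fun i => (ray ω s i).1.2 = s.1.2 + Y ∧ (ray ω s i).2 = Dir.N
  set t := Nat.findGreatest Pd b with ht
  have hat : a ≤ t := Nat.le_findGreatest hab ⟨haH, haN⟩
  have htb : t ≤ b := Nat.findGreatest_le b
  have hPt : Pd t := Nat.findGreatest_spec (P := Pd) hab ⟨haH, haN⟩
  have hnP : ∀ i, t < i → i ≤ b → ¬ Pd i := fun i h1 h2 =>
    Nat.findGreatest_is_greatest h1 h2
  have hge : ∀ j, j ≤ b - t → s.1.2 + (Y : ℤ) ≤ (ray ω s (b - j)).1.2 := by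
    intro j
    induction j with
    | zero =>
      intro _
      rw [Nat.sub_zero, hbH]
      omega
    | succ j ih =>
      intro hj
      by_contra hcon
      have h1 := ih (by omega)
      have h2 : b - j = b - (j + 1) + 1 := by omega
      rw [h2] at h1
      have h3 := Glx.up ω s (b - (j + 1)) (s.1.2 + Y) (by omega) h1
      exact hnP (b - (j + 1) + 1) (by omega) (by omega) h3
  have hge' : ∀ i, t ≤ i → i ≤ b → s.1.2 + (Y : ℤ) ≤ (ray ω s i).1.2 := by
    intro i h1 h2
    have h3 := hge (b - i) (by omega)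
    have h4 : b - (b - i) = i := by omega
    rwa [h4] at h3
  have hSu : ω ∈ Su m ((ray ω s t).1.1, s.1.2 + Y) := by
    have hst : (((ray ω s t).1.1, s.1.2 + (Y : ℤ)), Dir.N) = ray ω s t := by
      apply Prod.ext
      · apply Prod.ext
        · rfl
        · exact hPt.1.symm
      · exact hPt.2.symm
    refine ⟨(ray ω s b).1.1, b - t, ?_, ?_, ?_⟩
    · rw [hst, ← ray_add, Nat.add_sub_cancel' htb]
      apply Prod.ext
      · apply Prod.ext
        · rfl
        · show (ray ω s b).1.2 = s.1.2 + (Y : ℤ) + m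
          rw [hbH]
          ring
      · exact hbN
    · show ¬ (s.1.2 + (Y : ℤ) ≤ s.1.2 + (Y : ℤ) + m ∧ s.1.2 + (Y : ℤ) + m < s.1.2 + (Y : ℤ) + m)
      rintro ⟨-, h⟩
      exact lt_irrefl _ h
    · intro i hi
      rw [hst, ← ray_add]
      refine ⟨hge' (t + i) (by omega) (by omega), ?_⟩
      show (ray ω s (t + i)).1.2 < s.1.2 + (Y : ℤ) + m
      have h1 := hb2 (t + i) (by omega)
      rw [hH] at h1
      omega
  refine ⟨t, hat, htb, ?_, ?_⟩
  · rw [hH, hPt.1]
    ring
  · rw [hX, hX]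
    by_contra hcon
    apply hbad
    refine ⟨(ray ω s a).1.1, hAr, (ray ω s t).1.1, ?_, hSu⟩
    have h1 : (ray ω s t).1.1 - s.1.1 - ((ray ω s a).1.1 - s.1.1) =
        (ray ω s t).1.1 - (ray ω s a).1.1 := by ring
    rw [h1] at hcon
    omega

end Pool.Agent.MLB
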