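import Pool.Agent.MLB.St

/-!
# MLB, module Gr: greedy coarse times of a lattice path
-/

set_option autoImplicit false

open Mir Pool.Agent.MSB

namespace Pool.Agent.MLB

namespace Grx

theorem nm_zero : nm (0 : ℤ × ℤ) = 0 := by
  simp [nm]

theorem nm_add (u v : ℤ × ℤ) : nm (u + v) ≤ nm u + nm v := by
  unfold nm
  have h1 : (u + v).1 = u.1 + v.1 := rfl
  have h2 : (u + v).2 = u.2 + v.2 := rfl
  rw [h1, h2]
  omega

/-- the statement with a general starting time -/
theorem gen (Q : ℕ → ℤ × ℤ) (h n : ℕ) (x : ℝ) (hh : 1 ≤ h)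
    (hQ : ∀ i, nm (Q (i + 1) - Q i) ≤ 1)
    (hx : ∀ k ≤ n, ∀ i, h ≤ nm (Q (k + i) - Q k) → x ≤ i) :
    ∀ (d a : ℕ), a ≤ n → n - a ≤ d → ∃ (M : ℕ) (σ : ℕ → ℕ), σ 0 = a ∧
      (∀ k < M, σ k < σ (k + 1)) ∧ σ M ≤ n ∧
      (∀ k < M, nm (Q (σ (k + 1)) - Q (σ k)) ≤ h) ∧
      (∀ k < M, ∀ i, σ k ≤ i → i < σ (k + 1) → nm (Q i - Q (σ k)) < h) ∧
      (∀ i, σ M ≤ i → i ≤ n → nm (Q i - Q (σ M)) < h) ∧ (M : ℝ) * x ≤ (n : ℝ) - a := by
  classical
  intro d
  induction d with
  | zero =>
    intro a ha hd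
    have e : a = n := by omega
    refine ⟨0, fun _ => a, rfl, fun k hk => absurd hk (Nat.not_lt_zero _), ha,
      fun k hk => absurd hk (Nat.not_lt_zero _), fun k hk => absurd hk (Nat.not_lt_zero _), ?_, ?_⟩
    · intro i h1 h2
      have e2 : i = a := by
        simp only at h1
        omega
      rw [e2, sub_self, nm_zero]
      omega
    · rw [e]
      simp
  | succ d ih =>
    intro a ha hd
    by_cases hex : ∃ i, a < i ∧ i ≤ n ∧ h ≤ nm (Q i - Q a)
    · obtain ⟨h1, h2, h3⟩ := Nat.find_spec hex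
      have hmin : ∀ i, i < Nat.find hex → ¬ (a < i ∧ i ≤ n ∧ h ≤ nm (Q i - Q a)) :=
        fun i hi => Nat.find_min hex hi
      generalize Nat.find hex = b at h1 h2 h3 hmin
      obtain ⟨M, σ, s0, s1, s2, s3, s4, s5, s6⟩ := ih b h2 (by omega)
      have hnear : ∀ i, a ≤ i → i < b → nm (Q i - Q a) < h := by
        intro i hai hib
        rcases Nat.eq_or_lt_of_le hai with e | hlt
        · rw [← e, sub_self, nm_zero]
          omega
        · by_contra hcon
          exact hmin i hib ⟨hlt, by omega, by omega⟩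
      have hstep : nm (Q b - Q a) ≤ h := by
        obtain ⟨b', rfl⟩ : ∃ b', b = b' + 1 := ⟨b - 1, by omega⟩
        have e : Q (b' + 1) - Q a = (Q (b' + 1) - Q b') + (Q b' - Q a) := by abel
        have h4 := hnear b' (by omega) (by omega)
        have h5 := hQ b'
        have h6 := nm_add (Q (b' + 1) - Q b') (Q b' - Q a)
        rw [e]
        omega
      have hxb : x ≤ (b : ℝ) - a := by
        have h4 := hx a ha (b - a) (by
          rw [Nat.add_sub_cancel' h1.le]
          exact h3)
        rw [Nat.cast_sub h1.le] at h4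
        exact h4
      obtain ⟨τ, t0, ts⟩ : ∃ τ : ℕ → ℕ, τ 0 = a ∧ ∀ k, τ (k + 1) = σ k :=
        ⟨fun k => if k = 0 then a else σ (k - 1), rfl, fun k => by simp⟩
      refine ⟨M + 1, τ, t0, ?_, ?_, ?_, ?_, ?_, ?_⟩
      · intro k hk
        rcases k with _ | k
        · rw [t0, ts, s0]
          exact h1
        · rw [ts, ts]
          exact s1 k (by omega)
      · rw [ts]
        exact s2
      · intro k hk
        rcases k with _ | k
        · rw [t0, ts, s0]
          exact hstep
        · rw [ts, ts]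
          exact s3 k (by omega)
      · intro k hk i h4 h5
        rcases k with _ | k
        · rw [t0] at h4 ⊢
          rw [ts, s0] at h5
          exact hnear i h4 h5
        · rw [ts] at h4 ⊢
          rw [ts] at h5
          exact s4 k (by omega) i h4 h5
      · intro i h4 h5
        rw [ts] at h4 ⊢
        exact s5 i h4 h5
      · push_cast
        rw [add_mul, one_mul]
        linarith
    · refine ⟨0, fun _ => a, rfl, fun k hk => absurd hk (Nat.not_lt_zero _), ha,
        fun k hk => absurd hk (Nat.not_lt_zero _), fun k hk => absurd hk (Nat.not_lt_zero _),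
        ?_, ?_⟩
      · intro i h1 h2
        simp only at h1 ⊢
        rcases Nat.eq_or_lt_of_le h1 with e | hlt
        · rw [← e, sub_self, nm_zero]
          omega
        · by_contra hcon
          exact hex ⟨i, hlt, h2, by omega⟩
      · have : (a : ℝ) ≤ n := by exact_mod_cast ha
        simp only [Nat.cast_zero, zero_mul]
        linarith

end Grx

/-- (Gr) greedy coarse times -/
theorem thm_Gr : St_Gr := by
  intro Q h n x hh hQ hx
  obtain ⟨M, σ, s0, s1, s2, s3, s4, s5, s6⟩ :=
    Grx.gen Q h n x hh hQ hx n 0 (Nat.zero_le _) (by omega)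
  refine ⟨M, σ, ⟨s0, s1, s2, s3, s4, s5⟩, ?_⟩
  rw [Nat.cast_zero, sub_zero] at s6
  exact s6

end Pool.Agent.MLB
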