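import Pool.Agent.MLB.St
import Pool.Agent.Mir.Prob

/-!
# MLB, module Ind: several bad heights (helper52)
-/

set_option autoImplicit false

open MeasureTheory Filter Mir Pool.Agent.MSB

noncomputable section

namespace Pool.Agent.MLB

theorem thm_Ind (hBas : St_Bas) (hOne : St_One) : St_Ind := by
  intro p hp0 hp1 s R m A
  obtain ⟨-, b2, -, -, b5, -⟩ := hBas
  have hprob : IsProbabilityMeasure (mir p) := mir_isProb hp0 hp1
  have hT : 0 ≤ T p m := measureReal_nonneg
  induction A using Finset.induction_on_max with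
  | empty =>
    intro _
    rw [Finset.card_empty, pow_zero]
    exact measureReal_le_one
  | insert Y A hY ih =>
    intro hA
    have hYA : Y ∉ A := fun h => lt_irrefl _ (hY Y h)
    have hA' : ∀ Y ∈ A, ∀ Y' ∈ A, Y < Y' → Y + m ≤ Y' := fun a ha b hb =>
      hA a (Finset.mem_insert_of_mem ha) b (Finset.mem_insert_of_mem hb)
    have ih' := ih hA'
    set W : Set (ℤ × ℤ → Fin 3) := {ω | ∀ Y' ∈ A, ω ∈ Bad s R m Y'} with hW
    have hWm : MeasurableSet W := by
      have e : W = ⋂ Y' ∈ A, Bad s R m Y' := by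
        ext ω
        simp [hW]
      rw [e]
      exact Finset.measurableSet_biInter A fun Y' _ => b2 s R m Y'
    have hWd : DepOn W {u | u.2 < s.1.2 + Y} := by
      intro ω ω' hω hωW Y' hY'
      have h1 : Y' + m ≤ Y := hA Y' (Finset.mem_insert_of_mem hY') Y (Finset.mem_insert_self _ _)
        (hY Y' hY')
      have h2 : ((Y' : ℤ) + m) ≤ Y := by exact_mod_cast h1
      refine b5 s R m Y' ω ω' (fun v hv => hω v ?_) (hωW Y' hY')
      have h3 : v.2 < s.1.2 + Y' + m := hv
      show v.2 < s.1.2 + Y
      omega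
    have h4 := hOne p hp0 hp1 s R m Y W hWm hWd
    have e2 : {ω | ∀ Y' ∈ insert Y A, ω ∈ Bad s R m Y'} = W ∩ Bad s R m Y := by
      ext ω
      simp only [Finset.mem_insert, forall_eq_or_imp, Set.mem_inter_iff, hW, Set.mem_ofPred_eq]
      exact and_comm
    rw [e2, Finset.card_insert_of_notMem hYA, pow_succ']
    refine h4.trans ?_
    exact mul_le_mul_of_nonneg_left ih' (mul_nonneg (by positivity) hT)

end Pool.Agent.MLB
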