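import Pool.Agent.MLB.St

/-!
# The mirror model, module Kap: the last coarse time
-/

set_option autoImplicit false

open Pool.Agent.MSB

namespace Pool.Agent.MLB

theorem thm_Kap : St_Kap := by
  intro Q h n M σ hC
  have h1 : ∀ i, Nat.findGreatest (fun k => σ k ≤ i) M ≤ M := fun i => Nat.findGreatest_le M
  have h2 : ∀ i, σ (Nat.findGreatest (fun k => σ k ≤ i) M) ≤ i := by
    intro i
    have h0 : σ 0 ≤ i := by
      rw [hC.zero]
      exact Nat.zero_le i
    exact Nat.findGreatest_spec (P := fun k => σ k ≤ i) (Nat.zero_le M) h0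
  have h3 : ∀ i, ∀ k ≤ M, Nat.findGreatest (fun k => σ k ≤ i) M < k → i < σ k := by
    intro i k hk hik
    exact not_le.1 (Nat.findGreatest_is_greatest (P := fun k => σ k ≤ i) hik hk)
  refine ⟨fun i => Nat.findGreatest (fun k => σ k ≤ i) M, fun i hi => ⟨h1 i, h2 i, ?_⟩, ?_,
    fun i _ => h3 i⟩
  · rcases Nat.lt_or_ge (Nat.findGreatest (fun k => σ k ≤ i) M) M with h4 | h4
    · exact hC.near _ h4 i (h2 i) (h3 i _ h4 (Nat.lt_succ_self _))
    · have h5 : Nat.findGreatest (fun k => σ k ≤ i) M = M := le_antisymm (h1 i) h4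
      have h6 := h2 i
      rw [h5] at h6
      show nm (Q i - Q (σ (Nat.findGreatest (fun k => σ k ≤ i) M))) < h
      rw [h5]
      exact hC.last i h6 hi
  · intro i j hij _
    exact Nat.le_findGreatest (P := fun k => σ k ≤ j) (h1 i) ((h2 i).trans hij)

end Pool.Agent.MLB
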