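import Pool.Agent.MLB.St
import Pool.Agent.Mir.Prob

/-!
# MLB, LD: large deviations
-/

set_option autoImplicit false

open MeasureTheory Filter Mir Pool.Agent.MSB

noncomputable section

namespace Pool.Agent.MLB

namespace LDx

/-- a residue class with many bad heights -/
lemma exists_class (S : ℕ → Prop) [DecidablePred S] (m K : ℕ) (hm : 1 ≤ m)
    (h : K * m < 2 * ((Finset.Icc 1 (K * m)).filter S).card) :
    ∃ a ∈ Finset.Icc 1 m, K ≤ 2 * ((Finset.range K).filter fun i => S (a + i * m)).card := by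
  by_contra hcon
  push Not at hcon
  have h1 : (Finset.Icc 1 (K * m)).filter S ⊆ (Finset.Icc 1 m).biUnion fun a =>
      ((Finset.range K).filter fun i => S (a + i * m)).image fun i => a + i * m := by
    intro Y hY
    rw [Finset.mem_filter, Finset.mem_Icc] at hY
    obtain ⟨⟨h2, h3⟩, h4⟩ := hY
    have h5 : (Y - 1) % m < m := Nat.mod_lt _ hm
    have h6 : (Y - 1) % m + 1 + (Y - 1) / m * m = Y := by
      have := Nat.mod_add_div (Y - 1) m
      rw [mul_comm m] at this
      omega
    have h7 : (Y - 1) / m < K := by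
      rw [Nat.div_lt_iff_lt_mul (by omega)]
      omega
    rw [Finset.mem_biUnion]
    refine ⟨(Y - 1) % m + 1, Finset.mem_Icc.2 ⟨by omega, by omega⟩, ?_⟩
    rw [Finset.mem_image]
    refine ⟨(Y - 1) / m, ?_, h6⟩
    rw [Finset.mem_filter, Finset.mem_range, h6]
    exact ⟨h7, h4⟩
  have h2 : ((Finset.Icc 1 (K * m)).filter S).card ≤
      ∑ a ∈ Finset.Icc 1 m, ((Finset.range K).filter fun i => S (a + i * m)).card :=
    (Finset.card_le_card h1).trans (Finset.card_biUnion_le.trans
      (Finset.sum_le_sum fun a _ => Finset.card_image_le))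
  have h3 : ∑ a ∈ Finset.Icc 1 m, 2 * ((Finset.range K).filter fun i => S (a + i * m)).card ≤
      ∑ a ∈ Finset.Icc 1 m, K := Finset.sum_le_sum fun a ha => (hcon a ha).le
  rw [← Finset.mul_sum, Finset.sum_const, Nat.card_Icc, smul_eq_mul, Nat.add_sub_cancel] at h3
  have h4 : m * K = K * m := mul_comm _ _
  omega

end LDx

open LDx

theorem thm_LD (hB : St_Bas) (hI : St_Ind) : St_LD := by
  intro p h0 h1 s R m K hm hT
  classical
  have := mir_isProb h0 h1
  have hT0 : 0 ≤ T p m := measureReal_nonneg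
  have hx0 : 0 ≤ (2 * (R : ℝ) + 1) * T p m := by positivity
  obtain ⟨E, hE⟩ : ∃ E : ℕ → Finset ℕ → Set (ℤ × ℤ → Fin 3),
    E = fun a B => {ω | ∀ i ∈ B, ω ∈ Bad s R m (a + i * m)} := ⟨_, rfl⟩
  obtain ⟨PB, hPB⟩ : ∃ PB : Finset (Finset ℕ),
    PB = (Finset.range K).powerset.filter fun B => K ≤ 2 * B.card := ⟨_, rfl⟩
  have hsub : MB s R m K ⊆ ⋃ a ∈ Finset.Icc 1 m, ⋃ B ∈ PB, E a B := by
    intro ω hω
    obtain ⟨a, ha, hK⟩ := exists_class (fun Y => ω ∈ Bad s R m Y) m K hm hω
    rw [Set.mem_iUnion₂]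
    refine ⟨a, ha, ?_⟩
    rw [Set.mem_iUnion₂]
    refine ⟨(Finset.range K).filter fun i => ω ∈ Bad s R m (a + i * m), ?_, ?_⟩
    · rw [hPB, Finset.mem_filter, Finset.mem_powerset]
      exact ⟨Finset.filter_subset _ _, hK⟩
    · rw [hE]
      intro i hi
      exact (Finset.mem_filter.1 hi).2
  have hEB : ∀ a, ∀ B ∈ PB, (mir p).real (E a B) ≤ (1 / 8 : ℝ) ^ K := by
    intro a B hBm
    rw [hPB, Finset.mem_filter] at hBm
    have e1 : E a B = {ω | ∀ Y ∈ B.image fun i => a + i * m, ω ∈ Bad s R m Y} := by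
      rw [hE]
      ext ω
      simp only [Finset.mem_image, forall_exists_index, and_imp, forall_apply_eq_imp_iff₂]
    have hc : (B.image fun i => a + i * m).card = B.card := by
      apply Finset.card_image_of_injective
      intro i j hij
      have : i * m = j * m := by
        have h2 : a + i * m = a + j * m := hij
        omega
      exact Nat.eq_of_mul_eq_mul_right hm this
    have h2 := hI p h0 h1 s R m (B.image fun i => a + i * m) (by
      intro Y hY Y' hY' hlt
      rw [Finset.mem_image] at hY hY'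
      obtain ⟨i, -, rfl⟩ := hY
      obtain ⟨j, -, rfl⟩ := hY'
      have hij : i < j := by
        by_contra hcon
        push Not at hcon
        have := Nat.mul_le_mul_right m hcon
        omega
      have := Nat.mul_le_mul_right m (Nat.succ_le_of_lt hij)
      rw [Nat.succ_mul] at this
      omega)
    rw [e1]
    refine h2.trans ?_
    rw [hc]
    calc ((2 * (R : ℝ) + 1) * T p m) ^ B.card ≤ (1 / 64 : ℝ) ^ B.card :=
          pow_le_pow_left₀ hx0 hT _
      _ = (1 / 8 : ℝ) ^ (2 * B.card) := by rw [pow_mul]; norm_num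
      _ ≤ (1 / 8 : ℝ) ^ K := pow_le_pow_of_le_one (by norm_num) (by norm_num) hBm.2
  have hcard : (PB.card : ℝ) ≤ 2 ^ K := by
    have h2 : PB.card ≤ 2 ^ K := by
      rw [hPB]
      refine (Finset.card_filter_le _ _).trans ?_
      rw [Finset.card_powerset, Finset.card_range]
    exact_mod_cast h2
  calc (mir p).real (MB s R m K) ≤ (mir p).real (⋃ a ∈ Finset.Icc 1 m, ⋃ B ∈ PB, E a B) :=
        measureReal_mono hsub (measure_ne_top _ _)
    _ ≤ ∑ a ∈ Finset.Icc 1 m, (mir p).real (⋃ B ∈ PB, E a B) := measureReal_biUnion_finset_le _ _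
    _ ≤ ∑ a ∈ Finset.Icc 1 m, ∑ B ∈ PB, (mir p).real (E a B) :=
        Finset.sum_le_sum fun a _ => measureReal_biUnion_finset_le _ _
    _ ≤ ∑ a ∈ Finset.Icc 1 m, ∑ B ∈ PB, (1 / 8 : ℝ) ^ K :=
        Finset.sum_le_sum fun a _ => Finset.sum_le_sum fun B hB' => hEB a B hB'
    _ = m * (PB.card * (1 / 8 : ℝ) ^ K) := by
        rw [Finset.sum_const, Finset.sum_const, Nat.card_Icc, nsmul_eq_mul, nsmul_eq_mul,
          Nat.add_sub_cancel]
    _ ≤ m * (2 ^ K * (1 / 8 : ℝ) ^ K) := by gcongr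
    _ = m * (1 / 4) ^ K := by
        rw [← mul_pow]
        norm_num

end Pool.Agent.MLB
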