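import Pool.Agent.MLB.St
import Pool.Agent.Mir.Prob

/-!
# Lev : one level, all directions
-/

set_option autoImplicit false

open MeasureTheory Filter Mir Pool.Agent.MSB

noncomputable section

namespace Pool.Agent.MLB

namespace Levx

theorem rp_sw (ω : ℤ × ℤ → Fin 3) (s : (ℤ × ℤ) × Dir) (i : ℕ) :
    rp (sw ω) (swS s) i = ((rp ω s i).2, (rp ω s i).1) := by
  unfold rp
  rw [ray_sw]
  rfl

theorem rp_rf (ω : ℤ × ℤ → Fin 3) (s : (ℤ × ℤ) × Dir) (i : ℕ) :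
    rp (rf ω) (rfS s) i = (-(rp ω s i).1, (rp ω s i).2) := by
  unfold rp
  rw [ray_rf]
  apply Prod.ext
  · show -(ray ω s i).1.1 - -s.1.1 = -((ray ω s i).1.1 - s.1.1)
    ring
  · rfl

theorem nm_sw (v : ℤ × ℤ) : nm (v.2, v.1) = nm v := max_comm _ _

theorem nm_rf (v : ℤ × ℤ) : nm (-v.1, v.2) = nm v := by
  unfold nm
  rw [Int.natAbs_neg]

theorem hit_sw {h : ℕ} {I : Set ℕ} {ω : ℤ × ℤ → Fin 3} {s : (ℤ × ℤ) × Dir}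
    (hh : sw ω ∈ Hit h I s) : ω ∈ Hit h I (swS s) := by
  obtain ⟨i, hi, hn⟩ := hh
  refine ⟨i, hi, ?_⟩
  rwa [← swS_swS s, rp_sw, nm_sw] at hn

theorem hit_rf {h : ℕ} {I : Set ℕ} {ω : ℤ × ℤ → Fin 3} {s : (ℤ × ℤ) × Dir}
    (hh : rf ω ∈ Hit h I s) : ω ∈ Hit h I (rfS s) := by
  obtain ⟨i, hi, hn⟩ := hh
  refine ⟨i, hi, ?_⟩
  rwa [← rfS_rfS s, rp_rf, nm_rf] at hn

/-- no ray of the box reaches distance `h` early -/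
def Gd (R h : ℕ) (x : ℝ) : Set (ℤ × ℤ → Fin 3) :=
  {ω | ∀ s : (ℤ × ℤ) × Dir, nm s.1 ≤ R → ω ∉ Hit h (tm x) s}

theorem gd_sw {R h : ℕ} {x : ℝ} {ω : ℤ × ℤ → Fin 3} (hω : ω ∈ Gd R h x) : sw ω ∈ Gd R h x := by
  intro s hs hh
  exact hω (swS s) (by rw [show nm (swS s).1 = nm s.1 from nm_sw s.1]; exact hs) (hit_sw hh)

theorem gd_rf {R h : ℕ} {x : ℝ} {ω : ℤ × ℤ → Fin 3} (hω : ω ∈ Gd R h x) : rf ω ∈ Gd R h x := by
  intro s hs hh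
  exact hω (rfS s) (by rw [show nm (rfS s).1 = nm s.1 from nm_rf s.1]; exact hs) (hit_rf hh)

/-- some ray of the box climbs by `H` early -/
def Up (r H : ℕ) (x : ℝ) : Set (ℤ × ℤ → Fin 3) :=
  {ω | ∃ s : (ℤ × ℤ) × Dir, nm s.1 ≤ r ∧ ∃ i : ℕ, (i : ℝ) < x ∧ (H : ℤ) ≤ (rp ω s i).2}

theorem cover {r H R h : ℕ} {x y : ℝ} {ω : ℤ × ℤ → Fin 3}
    (hA : ∃ s : (ℤ × ℤ) × Dir, nm s.1 ≤ r ∧ ω ∈ Hit H (tm x) s) (hG : ω ∈ Gd R h y) :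
    ω ∈ Up r H x ∩ Gd R h y ∨ sw ω ∈ Up r H x ∩ Gd R h y ∨ sw (rf ω) ∈ Up r H x ∩ Gd R h y ∨
      sw (rf (sw ω)) ∈ Up r H x ∩ Gd R h y := by
  obtain ⟨s, hs, i, hi, hn⟩ := hA
  have hi' : (i : ℝ) < x := hi
  have hsw : ∀ t : (ℤ × ℤ) × Dir, nm (swS t).1 = nm t.1 := fun t => nm_sw t.1
  have hrf : ∀ t : (ℤ × ℤ) × Dir, nm (rfS t).1 = nm t.1 := fun t => nm_rf t.1
  have hcase : (H : ℤ) ≤ (rp ω s i).2 ∨ (H : ℤ) ≤ (rp ω s i).1 ∨ (H : ℤ) ≤ -(rp ω s i).1 ∨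
      (H : ℤ) ≤ -(rp ω s i).2 := by
    unfold nm at hn
    rcases le_max_iff.1 hn with h1 | h1 <;> omega
  rcases hcase with h1 | h1 | h1 | h1
  · exact Or.inl ⟨⟨s, hs, i, hi', h1⟩, hG⟩
  · refine Or.inr (Or.inl ⟨⟨swS s, ?_, i, hi', ?_⟩, gd_sw hG⟩)
    · rw [hsw]; exact hs
    · rw [rp_sw]; exact h1
  · refine Or.inr (Or.inr (Or.inl ⟨⟨swS (rfS s), ?_, i, hi', ?_⟩, gd_sw (gd_rf hG)⟩))
    · rw [hsw, hrf]; exact hs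
    · rw [rp_sw, rp_rf]; exact h1
  · refine Or.inr (Or.inr (Or.inr ⟨⟨swS (rfS (swS s)), ?_, i, hi', ?_⟩,
      gd_sw (gd_rf (gd_sw hG))⟩))
    · rw [hsw, hrf, hsw]; exact hs
    · rw [rp_sw, rp_rf, rp_sw]; exact h1

theorem pre_le {p : ℝ} (h0 : 0 ≤ p) (h1 : p ≤ 1) {g : (ℤ × ℤ → Fin 3) → ℤ × ℤ → Fin 3}
    (hg : MeasurePreserving g (mir p) (mir p)) (D : Set (ℤ × ℤ → Fin 3)) :
    (mir p).real (g ⁻¹' D) ≤ (mir p).real D := by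
  have := mir_isProb h0 h1
  have h2 := Measure.le_map_apply (μ := mir p) hg.measurable.aemeasurable D
  rw [hg.map_eq] at h2
  exact ENNReal.toReal_mono (measure_ne_top _ _) h2

end Levx

open Levx in
theorem thm_Lev (hL : St_Lv1) (_hB : St_Bas) : St_Lev := by
  intro p h0 h1 r h m K L lam hlam hh hm hK hT hLL
  have hP := mir_isProb h0 h1
  have hD := hL p h0 h1 r h m K L lam hlam hh hm hK hT hLL
  set x : ℝ := (4 / 3) * lam * ((K * m : ℕ) : ℝ) with hx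
  set D : Set (ℤ × ℤ → Fin 3) := Up r (K * m) x ∩ Gd (r + L) h (lam * h) with hDdef
  have hD' : (mir p).real D ≤ 4 * (2 * (r : ℝ) + 1) ^ 2 * m * (1 / 4) ^ (K - 1) := hD
  have hsub : {ω | ∃ s : (ℤ × ℤ) × Dir, nm s.1 ≤ r ∧ ω ∈ Hit (K * m) (tm x) s} ⊆
      {ω | ∃ s : (ℤ × ℤ) × Dir, nm s.1 ≤ r + L ∧ ω ∈ Hit h (tm (lam * h)) s} ∪
        (D ∪ (sw ⁻¹' D ∪ ((fun ω => sw (rf ω)) ⁻¹' D ∪ (fun ω => sw (rf (sw ω))) ⁻¹' D))) := by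
    intro ω hω
    by_cases hG : ω ∈ Gd (r + L) h (lam * h)
    · right
      exact cover hω hG
    · left
      by_contra hcon
      apply hG
      intro s hs hh'
      exact hcon ⟨s, hs, hh'⟩
  have e1 := pre_le h0 h1 (sw_preserving h0 h1) D
  have e2 := pre_le h0 h1 ((sw_preserving h0 h1).comp (rf_preserving h0 h1)) D
  have e3 := pre_le h0 h1 (((sw_preserving h0 h1).comp (rf_preserving h0 h1)).comp
    (sw_preserving h0 h1)) D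
  have u0 := measureReal_mono (μ := mir p) hsub
  have u1 := measureReal_union_le (μ := mir p)
    {ω | ∃ s : (ℤ × ℤ) × Dir, nm s.1 ≤ r + L ∧ ω ∈ Hit h (tm (lam * h)) s}
    (D ∪ (sw ⁻¹' D ∪ ((fun ω => sw (rf ω)) ⁻¹' D ∪ (fun ω => sw (rf (sw ω))) ⁻¹' D)))
  have u2 := measureReal_union_le (μ := mir p) D
    (sw ⁻¹' D ∪ ((fun ω => sw (rf ω)) ⁻¹' D ∪ (fun ω => sw (rf (sw ω))) ⁻¹' D))
  have u3 := measureReal_union_le (μ := mir p) (sw ⁻¹' D)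
    ((fun ω => sw (rf ω)) ⁻¹' D ∪ (fun ω => sw (rf (sw ω))) ⁻¹' D)
  have u4 := measureReal_union_le (μ := mir p) ((fun ω => sw (rf ω)) ⁻¹' D)
    ((fun ω => sw (rf (sw ω))) ⁻¹' D)
  have e2' : (mir p).real ((fun ω => sw (rf ω)) ⁻¹' D) ≤ (mir p).real D := e2
  have e3' : (mir p).real ((fun ω => sw (rf (sw ω))) ⁻¹' D) ≤ (mir p).real D := e3
  unfold F
  linarith

end Pool.Agent.MLB
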