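import Pool.Agent.MLB.St

/-!
# MLB Lv1: one level, rays which climb
-/

set_option autoImplicit false

open MeasureTheory Filter Mir Pool.Agent.MSB

noncomputable section

namespace Pool.Agent.MLB

namespace Lv1x

/-- the states in the box of radius `r` -/
def SS (r : ℕ) : Finset ((ℤ × ℤ) × Dir) :=
  (Finset.Icc (-(r : ℤ)) r ×ˢ Finset.Icc (-(r : ℤ)) r) ×ˢ Finset.univ

theorem mem_SS {r : ℕ} {s : (ℤ × ℤ) × Dir} (h : nm s.1 ≤ r) : s ∈ SS r := by
  unfold nm at h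
  have h1 := le_trans (le_max_left _ _) h
  have h2 := le_trans (le_max_right _ _) h
  simp only [SS, Finset.mem_product, Finset.mem_Icc, Finset.mem_univ, and_true]
  omega

theorem card_SS (r : ℕ) : ((SS r).card : ℝ) = 4 * (2 * (r : ℝ) + 1) ^ 2 := by
  have h1 : (Finset.Icc (-(r : ℤ)) r).card = 2 * r + 1 := by
    rw [Int.card_Icc]; omega
  have h2 : (Finset.univ : Finset Dir).card = 4 := rfl
  rw [SS, Finset.card_product, Finset.card_product, h1, h2]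
  push_cast
  ring

end Lv1x

theorem thm_Lv1 (h1 : St_Det) (h2 : St_LD) (h3 : St_Bas) : St_Lv1 := by
  intro p hp0 hp1 r h m K L lam hlam hh hm hK hT hL
  have hP := mir_isProb hp0 hp1
  obtain ⟨-, -, -, -, -, -, -, hnm, hrp, -, -⟩ := h3
  have hsub : {ω : ℤ × ℤ → Fin 3 | (∃ s : (ℤ × ℤ) × Dir, nm s.1 ≤ r ∧
      ∃ i : ℕ, (i : ℝ) < (4 / 3) * lam * ((K * m : ℕ) : ℝ) ∧
      ((K * m : ℕ) : ℤ) ≤ (rp ω s i).2) ∧
      ∀ s : (ℤ × ℤ) × Dir, nm s.1 ≤ r + L → ω ∉ Hit h (tm (lam * h)) s} ⊆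
      ⋃ s ∈ Lv1x.SS r, MB s (101 * h) m (K - 1) := by
    rintro ω ⟨⟨s, hs, i, hi, hKm⟩, hbad⟩
    rw [Set.mem_iUnion₂]
    refine ⟨s, Lv1x.mem_SS hs, ?_⟩
    by_contra hMB
    refine absurd (h1 ω s h m K i lam hlam hh hm hK hKm ?_ hMB) (not_le.2 hi)
    intro k hk
    apply hbad
    have e : (ray ω s k).1 = rp ω s k + s.1 := by
      unfold rp
      rw [sub_add_cancel]
    rw [e]
    have hkL : k ≤ L := by
      have h4 : (k : ℝ) ≤ (i : ℝ) := Nat.cast_le.2 hk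
      have h5 : (k : ℝ) ≤ (L : ℝ) := by linarith
      exact Nat.cast_le.1 h5
    have h6 := hnm (rp ω s k) s.1
    have h7 := hrp ω s k
    omega
  calc (mir p).real _ ≤ (mir p).real (⋃ s ∈ Lv1x.SS r, MB s (101 * h) m (K - 1)) :=
        measureReal_mono hsub (measure_ne_top _ _)
    _ ≤ ∑ s ∈ Lv1x.SS r, (mir p).real (MB s (101 * h) m (K - 1)) :=
        measureReal_biUnion_finset_le _ _
    _ ≤ ∑ s ∈ Lv1x.SS r, (m : ℝ) * (1 / 4) ^ (K - 1) := by
        refine Finset.sum_le_sum fun s _ => h2 p hp0 hp1 s (101 * h) m (K - 1) (by omega) ?_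
        have e : (2 * ((101 * h : ℕ) : ℝ) + 1) = 202 * (h : ℝ) + 1 := by
          push_cast
          ring
        rw [e]
        exact hT
    _ = 4 * (2 * (r : ℝ) + 1) ^ 2 * m * (1 / 4) ^ (K - 1) := by
        rw [Finset.sum_const, nsmul_eq_mul, Lv1x.card_SS]
        ring

end Pool.Agent.MLB
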