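import Pool.Agent.MLB.St
import Pool.Agent.Mir.Prob

/-!
# The mirror model: one bad height (module One)

The rows above the first arrival are independent of the column of the first arrival, so a height is bad with conditional
probability at most `(2 R + 1) T p m`.
-/

set_option autoImplicit false

open MeasureTheory Filter Mir Pool.Agent.MSB

noncomputable section

namespace Pool.Agent.MLB

namespace Onex

/-- the event that some upward ray in the row of height `c` within distance `R` of the column `x` climbs by `m` -/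
def B (R m : ℕ) (c x : ℤ) : Set (ℤ × ℤ → Fin 3) := ⋃ x' ∈ Finset.Icc (x - R) (x + R), Su m (x', c)

theorem B_meas (h : St_Bas) (R m : ℕ) (c x : ℤ) : MeasurableSet (B R m c x) :=
  Finset.measurableSet_biUnion _ fun x' _ => (h.2.2.2.1 m (x', c)).1

theorem B_dep (h : St_Bas) (R m : ℕ) (c x : ℤ) : DepOn (B R m c x) {u | c ≤ u.2} := by
  intro ω ω' hω hB
  simp only [B, Set.mem_iUnion] at hB ⊢
  obtain ⟨x', hx', hS⟩ := hB
  refine ⟨x', hx', (h.2.2.2.1 m (x', c)).2 ω ω' (fun v hv => hω v ?_) hS⟩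
  exact hv.1

theorem B_le (h : St_Bas) {p : ℝ} (h0 : 0 ≤ p) (h1 : p ≤ 1) (R m : ℕ) (c x : ℤ) :
    (mir p).real (B R m c x) ≤ (2 * R + 1) * T p m := by
  have hP := mir_isProb h0 h1
  calc (mir p).real (B R m c x) ≤ ∑ x' ∈ Finset.Icc (x - R) (x + R), (mir p).real (Su m (x', c)) :=
        measureReal_biUnion_finset_le _ _
    _ = ∑ x' ∈ Finset.Icc (x - R) (x + R), T p m :=
        Finset.sum_congr rfl fun x' _ => h.2.2.2.2.2.1 p h0 h1 m (x', c)
    _ = (2 * R + 1) * T p m := by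
        rw [Finset.sum_const, nsmul_eq_mul, Int.card_Icc]
        congr 1
        have : (x + R + 1 - (x - R)).toNat = 2 * R + 1 := by omega
        rw [this]
        push_cast
        ring

theorem split (s : (ℤ × ℤ) × Dir) (R m Y : ℕ) (W : Set (ℤ × ℤ → Fin 3)) :
    W ∩ Bad s R m Y = ⋃ x : ℤ, (W ∩ Ar s Y x) ∩ B R m (s.1.2 + Y) x := by
  ext ω
  simp only [Set.mem_inter_iff, Set.mem_iUnion, B, Finset.mem_Icc]
  constructor
  · rintro ⟨hW, x, hA, x', hx', hS⟩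
    have := abs_le.1 hx'
    exact ⟨x, ⟨hW, hA⟩, x', ⟨by linarith [this.1], by linarith [this.2]⟩, hS⟩
  · rintro ⟨x, ⟨hW, hA⟩, x', hx', hS⟩
    exact ⟨hW, x, hA, x', abs_le.2 ⟨by linarith [hx'.1], by linarith [hx'.2]⟩, hS⟩

theorem disj (s : (ℤ × ℤ) × Dir) (Y : ℕ) (W : Set (ℤ × ℤ → Fin 3)) :
    Pairwise (Function.onFun Disjoint fun x : ℤ => W ∩ Ar s Y x) := by
  intro x y hxy
  refine Set.disjoint_left.2 ?_
  rintro ω ⟨_, hx⟩ ⟨_, hy⟩
  apply hxy
  have := Exits.unique hx hy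
  simpa using congrArg (fun t : (ℤ × ℤ) × Dir => t.1.1) this

theorem T_nonneg (p : ℝ) (m : ℕ) : 0 ≤ T p m := measureReal_nonneg

end Onex

open Onex in
theorem thm_One (h : St_Bas) : St_One := by
  intro p h0 h1 s R m Y W hWm hWd
  have hP := mir_isProb h0 h1
  set c : ℤ := s.1.2 + Y with hc
  have hT : 0 ≤ (2 * (R : ℝ) + 1) * T p m := mul_nonneg (by positivity) (T_nonneg p m)
  have hAm : ∀ x : ℤ, MeasurableSet (W ∩ Ar s Y x) := fun x => hWm.inter (h.2.2.1 s Y x).1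
  have hAd : ∀ x : ℤ, DepOn (W ∩ Ar s Y x) {u | u.2 < s.1.2 + Y} := fun x ω ω' hω hX =>
    ⟨hWd ω ω' hω hX.1, (h.2.2.1 s Y x).2 ω ω' hω hX.2⟩
  have hd : Disjoint {u : ℤ × ℤ | u.2 < s.1.2 + Y} {u : ℤ × ℤ | s.1.2 + Y ≤ u.2} :=
    Set.disjoint_left.2 fun u hu hu' => not_lt.2 (show s.1.2 + (Y : ℤ) ≤ u.2 from hu') hu
  have hi : ∀ x : ℤ, mir p ((W ∩ Ar s Y x) ∩ B R m (s.1.2 + Y) x)
      ≤ mir p (W ∩ Ar s Y x) * ENNReal.ofReal ((2 * R + 1) * T p m) := by
    intro x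
    have h2 : mir p ((W ∩ Ar s Y x) ∩ B R m (s.1.2 + Y) x)
        = mir p (W ∩ Ar s Y x) * mir p (B R m (s.1.2 + Y) x) :=
      indep_mul h0 h1 hd (hAm x) (B_meas h R m _ x) (hAd x) (B_dep h R m _ x)
    rw [h2]
    refine mul_le_mul_right ?_ _
    have h3 := B_le h h0 h1 R m (s.1.2 + Y) x
    rw [← ENNReal.ofReal_toReal (measure_ne_top (mir p) (B R m (s.1.2 + Y) x))]
    exact ENNReal.ofReal_le_ofReal h3
  have hle : mir p (W ∩ Bad s R m Y) ≤ mir p W * ENNReal.ofReal ((2 * R + 1) * T p m) := by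
    calc mir p (W ∩ Bad s R m Y) = mir p (⋃ x : ℤ, (W ∩ Ar s Y x) ∩ B R m (s.1.2 + Y) x) := by
          rw [split]
      _ ≤ ∑' x : ℤ, mir p ((W ∩ Ar s Y x) ∩ B R m (s.1.2 + Y) x) := measure_iUnion_le _
      _ ≤ ∑' x : ℤ, mir p (W ∩ Ar s Y x) * ENNReal.ofReal ((2 * R + 1) * T p m) :=
          ENNReal.tsum_le_tsum hi
      _ = (∑' x : ℤ, mir p (W ∩ Ar s Y x)) * ENNReal.ofReal ((2 * R + 1) * T p m) :=
          ENNReal.tsum_mul_right
      _ = mir p (⋃ x : ℤ, W ∩ Ar s Y x) * ENNReal.ofReal ((2 * R + 1) * T p m) := by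
          rw [measure_iUnion (disj s Y W) hAm]
      _ ≤ mir p W * ENNReal.ofReal ((2 * R + 1) * T p m) := by
          refine mul_le_mul_left ?_ _
          exact measure_mono (Set.iUnion_subset fun x => Set.inter_subset_left)
  have h4 := ENNReal.toReal_mono (ENNReal.mul_ne_top (measure_ne_top _ _) ENNReal.ofReal_ne_top) hle
  rw [ENNReal.toReal_mul, ENNReal.toReal_ofReal hT] at h4
  rw [mul_comm]
  exact h4

end Pool.Agent.MLB
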