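import Pool.Agent.MSB.St

/-!
# The mirror model: better lower bounds for the escape probabilities: statements of the modules (architect helper98)

Problem MP_b6bbcf_pr. Let `Pn p n` be the probability that the ray from the origin visits a vertex of sup-norm `≥ n`. Kozma and
Sidoravicius: `Pn p n ≥ c / n` for all `p`. Theorem (`St_AA`, `St_BB`, `St_CC`): for `0 < p < 1` one has `Pn p n ≥ c (log n) ^ (1/10) / n`; for all
`p ∈ [0, 1]` there are arbitrarily large `n` (one in every `[√N, N]`, `N ≥ N0`, `N0` not depending on `p`) with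
`Pn p n ≥ exp ((1/4) √(log n)) / n`; and for `0 < p < 1` with probability `≥ 1 - 1/n` no ray from the box of radius `n` reaches distance `n` in less
than `n (log n) ^ (1/10)` steps.

Library: `Pool/Agent/Mir` (`Defs.lean`: the model; `Det.lean`: `ray_succ`, `ray_succ'`, `ray_add`, `ray_rev`, `ray_prev`, `ray_inj`, `ray_congr`,
`Exits.unique`, `Exits.prev`, `exits_congr`; `Prob.lean`: `mir_isProb`, `mirOn_isProb`, `DepOn`, `indep_mul_real`, `reindex`, `meas_ray`,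
`meas_ray_prop`, `meas_exits`, `dep_exits`, `tr_preserving`, `ray_tr`, `exits_tr`, `rf_preserving`, `ray_rf`, `sw_preserving`, `ray_sw`,
`countable_state`). A state `((x, y), d)`: the ray arrives at the vertex `(x, y)` in the direction `d`; `ray ω s n` is the state after `n` steps.

Module `X` proves `theorem thm_X (h.. : St_..) : St_X` in `Pool/Agent/MLB/X.lean`, namespace `Pool.Agent.MLB`, auxiliary lemmas
private or in the namespace `Pool.Agent.MLB.Xx`. Any `St_Y` may be taken as a hypothesis as long as there is no cycle.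

Plan. (1) `Cyl`: parity on a cylinder of odd circumference `2h+1` gives a ray which spans the cylinder for every configuration; if most of the
time it takes `≥ x` steps, then `P p h ≥ x / (C h ^ 2)`. (2) `Lev`: if with high probability all rays of a large box need `λ h` steps for the
distance `h`, and the transmission probability `T p m` is `≤ 1/(64 (202 h + 1))`, then with high probability all rays need `(4/3) λ K m` steps for
the distance `K m`. Reason: let a ray go from height `0` to height `K m`; for each height `Y` consider the first time `τ Y` at height `Y`, in the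
column `x`. Since the rows `≥ Y` are independent of `x`, with high probability no ray which starts upwards in row `Y` within distance `101 h` of `x`
climbs to height `Y + m` before it goes below `Y` (`Y` is good; at least half of the `Y` are good, with probability `1 - m 4 ^ (-K)`, since
the events are almost independent for heights at distance `≥ m`: `One`, `Ind`, `LD`). So the ray returns to the height `Y`
at a horizontal distance `> 101 h` (`Gl`); on the scale `h` it crosses the height `Y + h` or `Y - h` at least three times, or spends `≥ 100` coarse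
steps near the height `Y` (`B1`, `Cmb`). (3) `Tow`: iterate over the scales; one may take `m ~ h ^ 13` by `Stmt_fin` (this gives
`AA`, `CC`); if `Pn p n ≤ Γ / n` then `m ~ Γ h` is allowed since `T p m ≤ Pn p m` (this gives `BB`).
-/

set_option autoImplicit false

open MeasureTheory Filter Mir Pool.Agent.MSB

noncomputable section

namespace Pool.Agent.MLB

/-! ### Definitions -/

/-- the position after `n` steps, relative to the start -/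
def rp (ω : ℤ × ℤ → Fin 3) (s : (ℤ × ℤ) × Dir) (n : ℕ) : ℤ × ℤ := (ray ω s n).1 - s.1

/-- the ray from `s` has distance `≥ h` from its starting vertex at some time `i ∈ I` -/
def Hit (h : ℕ) (I : Set ℕ) (s : (ℤ × ℤ) × Dir) : Set (ℤ × ℤ → Fin 3) := {ω | ∃ i ∈ I, h ≤ nm (rp ω s i)}

/-- the times `< x` -/
def tm (x : ℝ) : Set ℕ := {i | (i : ℝ) < x}

/-- the probability to reach distance `h` -/
def P (p : ℝ) (h : ℕ) : ℝ := (mir p).real (Hit h Set.univ s0)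

/-- the probability to reach distance `h` at a time `< x` -/
def qf (p : ℝ) (h : ℕ) (x : ℝ) : ℝ := (mir p).real (Hit h (tm x) s0)

/-- the probability that some ray which starts in the box of radius `r` reaches distance `h` at a time `< x` -/
def F (p : ℝ) (r h : ℕ) (x : ℝ) : ℝ :=
  (mir p).real {ω | ∃ s : (ℤ × ℤ) × Dir, nm s.1 ≤ r ∧ ω ∈ Hit h (tm x) s}

/-- the probability that the ray from the origin visits a vertex of sup-norm `≥ n` -/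
def Pn (p : ℝ) (n : ℕ) : ℝ := (mir p).real {ω | ∃ i, n ≤ nm (ray ω s0 i).1}

/-- the rows `c, ..., c + m - 1` -/
def rows (c : ℤ) (m : ℕ) : Set (ℤ × ℤ) := {u | c ≤ u.2 ∧ u.2 < c + m}

/-- the ray which starts upwards at `v` climbs by `m` without going below its initial height -/
def Su (m : ℕ) (v : ℤ × ℤ) : Set (ℤ × ℤ → Fin 3) :=
  {ω | ∃ x : ℤ, Exits ω (rows v.2 m) (v, Dir.N) ((x, v.2 + m), Dir.N)}

/-- the ray from `s` climbs by `Y` for the first time in the column `x` -/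
def Ar (s : (ℤ × ℤ) × Dir) (Y : ℕ) (x : ℤ) : Set (ℤ × ℤ → Fin 3) :=
  {ω | Exits ω {u | u.2 < s.1.2 + Y} s ((x, s.1.2 + Y), Dir.N)}

/-- the relative height `Y` is bad for the ray from `s`: some upward ray in row `Y` within distance `R` of the column of the first
arrival climbs by `m` -/
def Bad (s : (ℤ × ℤ) × Dir) (R m Y : ℕ) : Set (ℤ × ℤ → Fin 3) :=
  {ω | ∃ x : ℤ, ω ∈ Ar s Y x ∧ ∃ x' : ℤ, |x' - x| ≤ R ∧ ω ∈ Su m (x', s.1.2 + Y)}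

open Classical in
/-- more than half of the relative heights `1, ..., K m` are bad -/
def MB (s : (ℤ × ℤ) × Dir) (R m K : ℕ) : Set (ℤ × ℤ → Fin 3) :=
  {ω | K * m < 2 * ((Finset.Icc 1 (K * m)).filter fun Y => ω ∈ Bad s R m Y).card}

/-- greedy coarse times `σ 0 < ... < σ M ≤ n` of a path `Q`: every coarse step has length `≤ h`, between two coarse times the path
is at distance `< h` from the last coarse position -/
structure Coarse (Q : ℕ → ℤ × ℤ) (h n M : ℕ) (σ : ℕ → ℕ) : Prop where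
  zero : σ 0 = 0
  mono : ∀ k < M, σ k < σ (k + 1)
  le : σ M ≤ n
  step : ∀ k < M, nm (Q (σ (k + 1)) - Q (σ k)) ≤ h
  near : ∀ k < M, ∀ i, σ k ≤ i → i < σ (k + 1) → nm (Q i - Q (σ k)) < h
  last : ∀ i, σ M ≤ i → i ≤ n → nm (Q i - Q (σ M)) < h

/-- the number of steps `k → k + 1`, `k < M`, of the integer path `y` which cross from `≤ Z` to `> Z` or back -/
def cr (y : ℕ → ℤ) (M : ℕ) (Z : ℤ) : ℕ :=
  ((Finset.range M).filter fun k => (y k ≤ Z ∧ Z < y (k + 1)) ∨ (y (k + 1) ≤ Z ∧ Z < y k)).card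

open Classical in
/-- the states of the cylinder of circumference `2h+1`, in the rows `1, ..., h`, whose ray climbs by at least `h` -/
def U (h : ℕ) (ω : ZMod (2 * h + 1) × ℤ → Fin 3) : Finset ((ZMod (2 * h + 1) × ℤ) × Dir) :=
  ((Finset.univ ×ˢ Finset.Icc (1 : ℤ) h) ×ˢ Finset.univ).filter fun u =>
    ∃ j, u.1.2 + (h : ℤ) ≤ (ray ω u j).1.2

/-- towers of scales: `J` levels, top scale `H` -/
inductive Twr (p : ℝ) (K : ℕ) : ℕ → ℕ → Prop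
  | zero (H : ℕ) : 1 ≤ H → Twr p K 0 H
  | succ (J H m : ℕ) : Twr p K J H → 2 * H ≤ m → (202 * (H : ℝ) + 1) * T p m ≤ 1 / 64 → Twr p K (J + 1) (K * m)

/-! ### A. Deterministic part -/

/-- **Gr** (1 h). Greedy coarse times.

Proof. `σ 0 = 0`; if `σ k` is defined and there is `i ≤ n`, `i > σ k`, with `nm (Q i - Q (σ k)) ≥ h`, let `σ (k + 1)` be the least such `i`;
otherwise `M = k` (`σ k ≥ k`, so this happens; put `σ j = σ M` for `j > M`). The step has length `≤ h`: `nm (Q i - Q (i - 1)) ≤ 1` and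
`nm (Q (i - 1) - Q (σ k)) < h` (triangle inequality for `nm`; for `i - 1 = σ k` the distance is `0 < h`). By the last hypothesis with
`k := σ k`, `i := σ (k + 1) - σ k` every coarse step takes `≥ x` steps, so `M x ≤ σ M ≤ n`. It may be convenient to prove the statement with a
general starting time `a ≤ n` by strong induction on `n - a`. -/
def St_Gr : Prop := ∀ (Q : ℕ → ℤ × ℤ) (h n : ℕ) (x : ℝ), 1 ≤ h → (∀ i, nm (Q (i + 1) - Q i) ≤ 1) →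
  (∀ k ≤ n, ∀ i, h ≤ nm (Q (k + i) - Q k) → x ≤ i) → ∃ M σ, Coarse Q h n M σ ∧ M * x ≤ n

/-- **Kap** (45 min). The last coarse time before `i`.

Proof. `σ` is strictly increasing on `0, ..., M` (`mono`), `σ 0 = 0`. `κ i` is the largest `k ≤ M` with `σ k ≤ i` (`Nat.findGreatest`). If
`κ i < M` then `i < σ (κ i + 1)`, use `near`; if `κ i = M` use `last`. Monotonicity from maximality. -/
def St_Kap : Prop := ∀ (Q : ℕ → ℤ × ℤ) (h n M : ℕ) (σ : ℕ → ℕ), Coarse Q h n M σ → ∃ κ : ℕ → ℕ,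
  (∀ i ≤ n, κ i ≤ M ∧ σ (κ i) ≤ i ∧ nm (Q i - Q (σ (κ i))) < h) ∧
  (∀ i j, i ≤ j → j ≤ n → κ i ≤ κ j) ∧
  (∀ i ≤ n, ∀ k ≤ M, κ i < k → i < σ k)

/-- **Crs** (45 min). Crossings of a level.

Proof. If `a ≤ b`, `y a ≤ Z`, `Z < y b` then there is `k`, `a ≤ k < b`, with `y k ≤ Z`, `Z < y (k + 1)` (largest `k < b` with `y k ≤ Z`, or
induction on `b`); similarly downwards. For (2): one such `k` in each of `[k1, k2)`, `[k2, k3)` (downwards, it is of the other kind), `[k3, k4)`;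
they are different. (3): `∑ Z ∈ S, cr y M Z = ∑ k < M, #{Z ∈ S crossed by the step k}`
(`Finset.sum_card_bipartiteAbove_eq_sum_card_bipartiteBelow` or `Finset.sum_comm` with indicator sums), and a step crosses
`|y (k + 1) - y k| ≤ h` levels: they lie in `Finset.Ico (min ..) (max ..)`. -/
def St_Crs : Prop := ∀ (y : ℕ → ℤ) (M : ℕ),
  (∀ (Z : ℤ) (k1 k2 : ℕ), k1 ≤ k2 → k2 ≤ M → y k1 ≤ Z → Z < y k2 → 1 ≤ cr y M Z) ∧
  (∀ (Z : ℤ) (k1 k2 k3 k4 : ℕ), k1 ≤ k2 → k2 ≤ k3 → k3 ≤ k4 → k4 ≤ M → y k1 ≤ Z → Z < y k2 → y k3 ≤ Z → Z < y k4 →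
    3 ≤ cr y M Z) ∧
  (∀ (h : ℕ) (S : Finset ℤ), (∀ k < M, |y (k + 1) - y k| ≤ h) → ∑ Z ∈ S, cr y M Z ≤ M * h)

/-- **B1** (1 h). Heights near which the path moves horizontally; from `St_Kap`.

Proof. Let `Y ∈ B`, `a = κ (τ Y) ≤ b = κ (t Y)`. By the triangle inequality
`101 h < nm (Q (t Y) - Q (τ Y)) ≤ 2 (h - 1) + nm (Q (σ b) - Q (σ a)) ≤ 2 (h - 1) + (b - a) h`, so `b - a ≥ 100`. For `a < k ≤ b`
one has `τ Y < σ k` (`St_Kap`, third clause) and `σ k ≤ σ b ≤ t Y`, so `|(Q (σ k)).2 - Y| < 2 h`. So `100 |B| ≤` the number of pairs `(Y, k)`,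
`Y ∈ B`, `1 ≤ k ≤ M`, `|(Q (σ k)).2 - Y| < 2 h`, and for given `k` there are at most `4 h - 1` such `Y`. -/
def St_B1 : Prop := ∀ (Q : ℕ → ℤ × ℤ) (h n M : ℕ) (σ : ℕ → ℕ), 1 ≤ h → Coarse Q h n M σ →
  ∀ (B : Finset ℕ) (τ t : ℕ → ℕ), (∀ Y ∈ B, τ Y ≤ t Y ∧ t Y ≤ n ∧ 101 * (h : ℤ) < |(Q (t Y)).1 - (Q (τ Y)).1| ∧
    ∀ i, τ Y ≤ i → i ≤ t Y → |(Q i).2 - (Y : ℤ)| < 2 * h) → 100 * B.card ≤ 4 * h * M

/-- **C3** (45 min). Four times; from `St_Kap` and `St_Crs`.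

Proof. `k_j = κ i_j`. Since `|(Q i).2 - (Q (σ (κ i))).2| ≤ nm .. < h`: `(Q (σ k1)).2 < Z + 1`, `(Q (σ k2)).2 > Z`, `(Q (σ k3)).2 < Z + 1`,
`(Q (σ k4)).2 > Z`; use the first two clauses of `St_Crs` for `y k = (Q (σ k)).2`. -/
def St_C3 : Prop := ∀ (Q : ℕ → ℤ × ℤ) (h n M : ℕ) (σ : ℕ → ℕ), Coarse Q h n M σ → ∀ Z : ℤ,
  (∀ i1 i2, i1 ≤ i2 → i2 ≤ n → (Q i1).2 ≤ Z - h + 1 → Z + h ≤ (Q i2).2 → 1 ≤ cr (fun k => (Q (σ k)).2) M Z) ∧
  (∀ i1 i2 i3 i4, i1 ≤ i2 → i2 ≤ i3 → i3 ≤ i4 → i4 ≤ n → (Q i1).2 ≤ Z - h + 1 → Z + h ≤ (Q i2).2 →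
    (Q i3).2 ≤ Z - h + 1 → Z + h ≤ (Q i4).2 → 3 ≤ cr (fun k => (Q (σ k)).2) M Z)

/-- **Cmb** (2 h). The main deterministic inequality; from `St_Crs`, `St_B1`, `St_C3`.

Proof. Choose `t Y` for `Y ∈ G`. `G = B1 ∪ Bu ∪ Bd`: `Y ∈ Bu` if `(Q i).2 ≥ Y + 2 h` for some `i ∈ [τ Y, t Y]`, `Y ∈ Bd` if
`(Q i).2 ≤ Y - 2 h` for some such `i`, `Y ∈ B1` if `|(Q i).2 - Y| < 2 h` for all of them. `100 |B1| ≤ 4 h M` by `St_B1`. Let
`c Z = cr (fun k => (Q (σ k)).2) M Z`. For `0 ≤ Z ≤ K m - h`: `c Z ≥ 1`: here use `St_Crs` (1) with `k1 = 0`, where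
`(Q (σ 0)).2 = 0 ≤ Z`, and `k2 = κ n` of `St_Kap` (or `M`, by `Coarse.last` with `i = n`: `|(Q n).2 - (Q (σ M)).2| < h`, so `(Q (σ M)).2 > K m - h ≥ Z`).
For `Y ∈ Bu`: `c (Y + h) ≥ 3` by `St_C3` with the times `τ Y`, `i`, `t Y`, `τ (Y + m)` (heights `Y`, `≥ Y + 2 h`, `Y`,
`Y + m ≥ Y + 2 h`), and `Y + h ≤ (K - 1) m + h ≤ K m - h`. For `Y ∈ Bd`, `Y ≥ 2 h`: `c (Y - h) ≥ 3` by `St_C3` with the times `0`, `τ Y`, `i`, `t Y` (heights `0`,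
`Y`, `≤ Y - 2 h`, `Y`). Let `V = {Z ∈ [0, K m - h] : c Z ≥ 3}`: `|V| ≥ |Bu|`, `|V| ≥ |Bd| - 2 h`, so by `St_Crs` (3)
`M h ≥ ∑ Z ∈ [0, K m - h], c Z ≥ (K m - h + 1) + 2 |V| ≥ K m - h + |Bu| + |Bd| - 2 h`. Hence
`100 |G| ≤ 100 (|B1| + |Bu| + |Bd|) ≤ 4 h M + 100 (M h - K m + 3 h)`. (`|y (k + 1) - y k| ≤ h` by `Coarse.step`.) -/
def St_Cmb : Prop := ∀ (Q : ℕ → ℤ × ℤ) (h m n M K : ℕ) (σ τ : ℕ → ℕ), 1 ≤ h → 2 * h ≤ m → 1 ≤ K →
  Q 0 = 0 → Coarse Q h n M σ → (Q n).2 = ((K * m : ℕ) : ℤ) →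
  (∀ Y ≤ K * m, τ Y ≤ n ∧ (Q (τ Y)).2 = (Y : ℤ)) → (∀ Y Y', Y ≤ Y' → Y' ≤ K * m → τ Y ≤ τ Y') →
  ∀ G : Finset ℕ, (∀ Y ∈ G, 1 ≤ Y ∧ Y ≤ (K - 1) * m) →
  (∀ Y ∈ G, ∃ t, τ Y ≤ t ∧ t ≤ τ (Y + m) ∧ (Q t).2 = (Y : ℤ) ∧ 101 * (h : ℤ) < |(Q t).1 - (Q (τ Y)).1|) →
  100 * (G.card + K * m) ≤ 104 * (M * h) + 300 * h

/-- **Gl** (1.5 h). Good heights.

Proof. Let `c = s.1.2`. `a` is the first time at height `≥ c + Y`; as the heights change by at most `1` the height at time `a` is `c + Y` and the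
direction is `N` (`ray_prev`: the previous vertex has height `< c + Y`; `a ≥ 1`), so `ω ∈ Ar s Y (column at time a)`. Similarly `b`: height `c + Y + m`,
direction `N`, and all heights before `b` are `< c + Y + m`. Let `t ≤ b` be the last time `≤ b` at which the state has height `c + Y` and direction `N`
(`a` is such a time, `a ≤ b`; `t ≠ b` since `m ≥ 1`). For `t ≤ i ≤ b` the height is `≥ c + Y`: otherwise let `i` be the last time in `[t, b]` with height `< c + Y`;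
`i < b`, the height at time `i + 1` is `≥ c + Y`, so `= c + Y`, and the direction of the state at time `i + 1` is `N`, a contradiction to the choice of
`t`. So the ray from `ray ω s t = ((x', c + Y), N)` exits `rows (c + Y) m` after `b - t` steps at height `c + Y + m` in the direction `N`:
`ω ∈ Su m (x', c + Y)`. Since `ω ∉ Bad s R m Y`, `|x' - column at time a| > R`. -/
def St_Gl : Prop := ∀ (ω : ℤ × ℤ → Fin 3) (s : (ℤ × ℤ) × Dir) (R m Y a b : ℕ), 1 ≤ m → 1 ≤ Y → ω ∉ Bad s R m Y →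
  (Y : ℤ) ≤ (rp ω s a).2 → (∀ i < a, (rp ω s i).2 < Y) →
  (Y : ℤ) + m ≤ (rp ω s b).2 → (∀ i < b, (rp ω s i).2 < (Y : ℤ) + m) →
  ∃ t, a ≤ t ∧ t ≤ b ∧ (rp ω s t).2 = Y ∧ (R : ℤ) < |(rp ω s t).1 - (rp ω s a).1|

/-- **Det** (1.5 h). A ray which climbs by `K m` and has many good heights is slow; from `St_Gr`, `St_Cmb`, `St_Gl`.

Proof. `Q = rp ω s`. Let `τ Y` be the first time with `(Q (τ Y)).2 ≥ Y`, for `Y ≤ K m` (it exists and is `≤ n`); the heights change by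
at most one, so `(Q (τ Y)).2 = Y`, and `τ` is monotone. Put `n0 = τ (K m) ≤ n`. `rp ω (ray ω s k) i = Q (k + i) - Q k` (`ray_add`), so `St_Gr` applies with
`x = lam * h` and `n := n0`: `M`, `σ`, `M lam h ≤ n0`. Let `G` be the set of `Y ∈ [1, (K - 1) m]` with `ω ∉ Bad s (101 h) m Y`; by
hypothesis `2 |G| ≥ (K - 1) m`. By `St_Gl` (`a = τ Y`, `b = τ (Y + m)`) and `St_Cmb` `100 (|G| + K m) ≤ 104 M h + 300 h`, so with `2 h ≤ m` and `20 ≤ K`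
`208 M h ≥ 100 (K - 1) m + 200 K m - 600 h ≥ 300 K m - 400 m ≥ 280 K m`, `3 M h ≥ 4 K m`, and
`(4/3) lam K m ≤ lam M h ≤ n0 ≤ n`. -/
def St_Det : Prop := ∀ (ω : ℤ × ℤ → Fin 3) (s : (ℤ × ℤ) × Dir) (h m K n : ℕ) (lam : ℝ), 0 ≤ lam → 1 ≤ h → 2 * h ≤ m →
  20 ≤ K → ((K * m : ℕ) : ℤ) ≤ (rp ω s n).2 → (∀ k ≤ n, ω ∉ Hit h (tm (lam * h)) (ray ω s k)) →
  ω ∉ MB s (101 * h) m (K - 1) → (4 / 3) * lam * ((K * m : ℕ) : ℝ) ≤ n

/-! ### B. Probability -/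

/-- **Bas** (1.5 h). Basic facts.

Proof. (1) measurability: countable unions of `meas_exits`, `meas_ray_prop`. (2) `dep_exits`, and `rows (s.1.2 + Y) m`, `{u | u.2 < s.1.2 + Y}` are subsets of
`{u | u.2 < s.1.2 + Y + m}`. (3) `v = (0, 1) + z`; `exits_tr z` with `G = slab m`, `G' = rows v.2 m` maps the event of `T p m` to `Su m v`
(`tr_preserving`); the exit columns are shifted. (4) for `d = N`: `s = trS z s0`, `ray_tr`; `swS ((x, y), N) = ((y, x), E)`, `rfS ((x, y), E) = ((-x, y), W)`,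
`swS ((x, y), W) = ((y, x), S)`; `nm` does not change under `(x, y) ↦ (y, x)`, `(-x, y)`; so the events correspond to each other under the measure preserving
maps `tr z`, `sw`, `rf`. (5) `nm (a + b) ≤ nm a + nm b`, `nm (rp ω s i) ≤ i`. (6) a ray which climbs the rows `1, ..., m` visits height
`m + 1`. (7) `(ray ω s0 i).1 = rp ω s0 i + (0, 1)`. -/
def St_Bas : Prop := (∀ (h : ℕ) (I : Set ℕ) s, MeasurableSet (Hit h I s)) ∧
  (∀ s (R m Y : ℕ), MeasurableSet (Bad s R m Y)) ∧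
  (∀ s (Y : ℕ) (x : ℤ), MeasurableSet (Ar s Y x) ∧ DepOn (Ar s Y x) {u | u.2 < s.1.2 + Y}) ∧
  (∀ (m : ℕ) v, MeasurableSet (Su m v) ∧ DepOn (Su m v) (rows v.2 m)) ∧
  (∀ s (R m Y : ℕ), DepOn (Bad s R m Y) {u | u.2 < s.1.2 + Y + m}) ∧
  (∀ p : ℝ, 0 ≤ p → p ≤ 1 → ∀ (m : ℕ) v, (mir p).real (Su m v) = T p m) ∧
  (∀ p : ℝ, 0 ≤ p → p ≤ 1 → ∀ (h : ℕ) (I : Set ℕ) s, (mir p).real (Hit h I s) = (mir p).real (Hit h I s0)) ∧
  (∀ a b : ℤ × ℤ, nm (a + b) ≤ nm a + nm b) ∧ (∀ ω s i, nm (rp ω s i) ≤ i) ∧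
  (∀ p : ℝ, 0 ≤ p → p ≤ 1 → ∀ m, T p m ≤ Pn p m) ∧
  (∀ p : ℝ, 0 ≤ p → p ≤ 1 → ∀ n, P p (n + 1) ≤ Pn p n)

/-- **One** (1.5 h). One bad height; from `St_Bas`.

Proof. `W ∩ Bad s R m Y = ⋃ x, W ∩ Ar s Y x ∩ B x`, `B x = ⋃ (x' ∈ [x - R, x + R]), Su m (x', s.1.2 + Y)`. `W ∩ Ar s Y x` depends on the rows `< s.1.2 + Y`,
`B x` on the rows `≥ s.1.2 + Y`, so (`indep_mul_real`) the measure is at most `μ (W ∩ Ar s Y x) (2 R + 1) T p m`. The events `Ar s Y x` (`x ∈ ℤ`) are pairwise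
disjoint (`Exits.unique`); sum over `x` (in `ℝ≥0∞`: `measure_iUnion`, `measure_iUnion_le`, `ENNReal.tsum_mul_right`). -/
def St_One : Prop := ∀ p : ℝ, 0 ≤ p → p ≤ 1 → ∀ s (R m Y : ℕ) (W : Set (ℤ × ℤ → Fin 3)), MeasurableSet W →
  DepOn W {u | u.2 < s.1.2 + Y} → (mir p).real (W ∩ Bad s R m Y) ≤ (2 * R + 1) * T p m * (mir p).real W

/-- **Ind** (45 min). Several bad heights; from `St_Bas`, `St_One`.

Proof. `Finset.induction_on_max`: `A = insert Y A'`, all elements of `A'` are `≤ Y - m`, so `W = {ω | ∀ Y' ∈ A', ω ∈ Bad s R m Y'}` depends only on the rows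
`< s.1.2 + Y`; use `St_One`. (`0 ≤ T p m`; `DepOn` of a finite intersection.) -/
def St_Ind : Prop := ∀ p : ℝ, 0 ≤ p → p ≤ 1 → ∀ s (R m : ℕ) (A : Finset ℕ), (∀ Y ∈ A, ∀ Y' ∈ A, Y < Y' → Y + m ≤ Y') →
  (mir p).real {ω | ∀ Y ∈ A, ω ∈ Bad s R m Y} ≤ ((2 * R + 1) * T p m) ^ A.card

/-- **LD** (2 h). Large deviations; from `St_Ind`.

Proof. For `1 ≤ a ≤ m` let `N a ω` be the number of `i < K` with `ω ∈ Bad s R m (a + i m)`. `(a, i) ↦ a + i m` is a bijection from `[1, m] × [0, K)` to `[1, K m]`, so if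
`ω ∈ MB s R m K` then `K m < 2 ∑ a, N a ω` and `K < 2 N a ω` for some `a`. For given `a` the event `K < 2 N a` is contained in the union over all
`B ⊆ range K` with `K ≤ 2 |B|` of `{ω | ∀ i ∈ B, ω ∈ Bad s R m (a + i m)}`, which has probability `≤ (1/64) ^ |B| = (1/8) ^ (2 |B|) ≤ (1/8) ^ K` (`St_Ind` for the image of `B`).
There are at most `2 ^ K` sets `B`: the probability is at most `(1/4) ^ K`. -/
def St_LD : Prop := ∀ p : ℝ, 0 ≤ p → p ≤ 1 → ∀ s (R m K : ℕ), 1 ≤ m → (2 * (R : ℝ) + 1) * T p m ≤ 1 / 64 →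
  (mir p).real (MB s R m K) ≤ m * (1 / 4) ^ K

/-- **Lv1** (1.5 h). One level, rays which climb; from `St_Det`, `St_LD`, `St_Bas`.

Proof. Let `ω` be in the event, with `s`, `i`. For `k ≤ i` `nm (ray ω s k).1 ≤ nm s.1 + k ≤ r + i ≤ r + L` (`(i : ℝ) < (4/3) lam K m ≤ L`), so by the second condition
`ω ∉ Hit h (tm (lam h)) (ray ω s k)`. If `ω ∉ MB s (101 h) m (K - 1)`, `St_Det` gives `(4/3) lam K m ≤ i`, a contradiction. So the event is contained in the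
union of `MB s (101 h) m (K - 1)` over the `4 (2 r + 1) ^ 2` states `s` with `nm s.1 ≤ r`; use `St_LD` (`2 (101 h) + 1 = 202 h + 1`). -/
def St_Lv1 : Prop := ∀ p : ℝ, 0 ≤ p → p ≤ 1 → ∀ (r h m K L : ℕ) (lam : ℝ), 0 ≤ lam → 1 ≤ h → 2 * h ≤ m → 20 ≤ K →
  (202 * (h : ℝ) + 1) * T p m ≤ 1 / 64 → (4 / 3) * lam * ((K * m : ℕ) : ℝ) ≤ L →
  (mir p).real {ω | (∃ s : (ℤ × ℤ) × Dir, nm s.1 ≤ r ∧ ∃ i : ℕ, (i : ℝ) < (4 / 3) * lam * ((K * m : ℕ) : ℝ) ∧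
      ((K * m : ℕ) : ℤ) ≤ (rp ω s i).2) ∧
    ∀ s : (ℤ × ℤ) × Dir, nm s.1 ≤ r + L → ω ∉ Hit h (tm (lam * h)) s} ≤
    4 * (2 * (r : ℝ) + 1) ^ 2 * m * (1 / 4) ^ (K - 1)

/-- **Lev** (1.5 h). One level; from `St_Lv1`, `St_Bas`.

Proof. Let `A'` be the event of `F p (r + L) h (lam h)`, `A` the event of the left side, `D` the event of `St_Lv1` (it is disjoint from `A'`). If `ω ∈ A`, with `s`, `i` and
`nm (rp ω s i) ≥ K m`, then `rp ω s i` has one coordinate of absolute value `≥ K m`, so for one of the maps `g = id`, `sw`, `sw ∘ rf`, `sw ∘ rf ∘ sw` (on configurations and on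
states: `ray (g ω) (g s) i = g (ray ω s i)`) `(rp (g ω) (g s) i).2 ≥ K m`. `nm` and `A'` are invariant under `sw`, `rf` (they are involutions up to nothing:
`swS (swS s) = s`, `rfS (rfS s) = s`, so `ω ∈ A'` iff `g ω ∈ A'`). So `A ⊆ A' ∪ ⋃ g, g ⁻¹' D`, and each `g` preserves the measure (`sw_preserving`,
`rf_preserving`; measurability of `D`, or use `measure_preimage_le`-type bounds; `D` is measurable by `meas_ray_prop` and countable unions). -/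
def St_Lev : Prop := ∀ p : ℝ, 0 ≤ p → p ≤ 1 → ∀ (r h m K L : ℕ) (lam : ℝ), 0 ≤ lam → 1 ≤ h → 2 * h ≤ m → 20 ≤ K →
  (202 * (h : ℝ) + 1) * T p m ≤ 1 / 64 → (4 / 3) * lam * ((K * m : ℕ) : ℝ) ≤ L →
  F p r (K * m) ((4 / 3) * lam * ((K * m : ℕ) : ℝ)) ≤
    F p (r + L) h (lam * h) + 16 * (2 * (r : ℝ) + 1) ^ 2 * m * (1 / 4) ^ (K - 1)

/-- **Tow** (1.5 h). Iteration; from `St_Lev`, `St_Bas`.

Proof. Facts by induction on `Twr`: `40 ^ J ≤ H` (`K m ≥ 20 * 2 H`), so `H ≥ 1`. Main claim by induction on the tower `Twr p K j H` for all `r`, `D` with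
`(4/3) ^ j H ≤ D`: `F p r H ((4/3) ^ j H) ≤ 16 j (2 (r + j D) + 1) ^ 2 H (1/4) ^ (K - 1)`. `j = 0`: at a time `i < H` the distance is `≤ i < H`, so `F p r H H = 0`.
Step, `H' = K m`: `St_Lev` with `lam = (4/3) ^ j`, `L = D`: `(4/3) ^ (j + 1) H' ≤ D`, and `(4/3) ^ j H ≤ D` since `H ≤ H'`; so
`F p r H' .. ≤ F p (r + D) H .. + 16 (2 r + 1) ^ 2 m (1/4) ^ (K - 1) ≤ 16 j (2 (r + D + j D) + 1) ^ 2 H (1/4) ^ (K - 1) + 16 (2 r + 1) ^ 2 m (1/4) ^ (K - 1)`, and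
`H ≤ H'`, `m ≤ H'`. -/
def St_Tow : Prop := ∀ p : ℝ, 0 ≤ p → p ≤ 1 → ∀ K J H : ℕ, 20 ≤ K → Twr p K J H → 40 ^ J ≤ H ∧
  ∀ r D : ℕ, (4 / 3 : ℝ) ^ J * H ≤ D →
    F p r H ((4 / 3 : ℝ) ^ J * H) ≤ 16 * J * (2 * ((r : ℝ) + J * D) + 1) ^ 2 * H * (1 / 4) ^ (K - 1)

/-- **Tw2** (1 h). From `St_Tow`.

Proof. Apply `St_Tow` with `D = N ^ 2`: `(4/3) ^ J ≤ 40 ^ J ≤ H ≤ N`, `J ≤ 40 ^ J ≤ N`. The bound is at most
`16 N (2 (2 N + N ^ 3) + 1) ^ 2 N * 4 * (1/4) ^ K ≤ 64 N ^ 2 (7 N ^ 3) ^ 2 (1/4) ^ K = 3136 N ^ 8 (1/4) ^ K ≤ 3136 / (20000 N) ≤ 1 / (4 N + 2)`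
(`2 (2 N + N ^ 3) + 1 ≤ 7 N ^ 3`; `3136 (4 N + 2) ≤ 18816 N`). -/
def St_Tw2 : Prop := ∀ p : ℝ, 0 ≤ p → p ≤ 1 → ∀ K J H N r : ℕ, 20 ≤ K → Twr p K J H → H ≤ N → r ≤ 2 * N →
  20000 * (N : ℝ) ^ 9 ≤ 4 ^ K → F p r H ((4 / 3 : ℝ) ^ J * H) ≤ 1 / (4 * N + 2)

/-! ### C. The cylinder -/

/-- **Cov** (1.5 h). Comparison of the cylinder with the plane; from `St_Bas`.

Proof. As in `Mir/KS.lean` (its lemmas are private, copy them): `w = 2 h + 1`, `u = ((z, y), d)`, `x : ℤ` with `(x : ZMod w) = z` (`z.val`), `a = x - h`,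
`sec v = (a + (v.1 - a).val, v.2)`. For a plane configuration `ω` let `ω' v = ω (sec v)`; this is measure preserving (`reindex`). Let `ω ∉ Hit h I ((x, y), d)`. Suppose that
`y + h ≤ (ray ω' u i).1.2`, `i ∈ I`. All `j ≤ i` are in `I`, so `nm (rp ω ((x, y), d) j) < h` and the columns of the plane ray are in `[x - h + 1, x + h - 1] ⊆ [a, a + w - 1]` up to time `i`;
so (induction, as `ks_step`) `ray ω' u j` is the projection of `ray ω ((x, y), d) j` for `j ≤ i`, and its row is `< y + h`, a contradiction.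
Finally `μ (Hit h I ((x, y), d)) = μ (Hit h I s0)` by `St_Bas`. -/
def St_Cov : Prop := ∀ p : ℝ, 0 ≤ p → p ≤ 1 → ∀ (h : ℕ) (I : Set ℕ) (u : (ZMod (2 * h + 1) × ℤ) × Dir), 1 ≤ h →
  (∀ i ∈ I, ∀ j ≤ i, j ∈ I) →
  (mirOn (ZMod (2 * h + 1) × ℤ) p).real {ω | ∃ i ∈ I, u.1.2 + (h : ℤ) ≤ (ray ω u i).1.2} ≤
    (mir p).real (Hit h I s0)

/-- **Cnt** (1 h). Counting the states of a spanning ray; from `Stmt_par`.

Proof. `Stmt_par (2 h + 1) (2 h)`: `x`, `t`, `n` with `ExitsIn ω G s t n`, `s = ((x, 1), N)`, `G` the rows `1, ..., 2 h`, `t.1.2 = 2 h + 1`. By the hypothesis `n ≥ l`. For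
`i < l` the state `ray ω s i` is in the rows `1, ..., h` and its ray reaches after `n - i` steps the height `2 h + 1 ≥` height `+ h`: it is in `U h ω`. These `l` states are
different: `ray ω s i = ray ω s j`, `i < j < l` gives `s = ray ω s (j - i)` (`ray_add`, `ray_inj`) and by `ray_prev` the vertex of `ray ω s (j - i - 1)` is `(x, 0) ∉ G`, but
`j - i - 1 < n`. `Finset.card_le_card_of_injOn`. -/
def St_Cnt : Prop := ∀ (h l : ℕ) (ω : ZMod (2 * h + 1) × ℤ → Fin 3), 1 ≤ h →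
  (∀ x : ZMod (2 * h + 1), ∀ i < l, (ray ω ((x, 1), Dir.N) i).1.2 < (h : ℤ) + 1) → l ≤ (U h ω).card

/-- **Cyl** (1.5 h). The lower bound; from `St_Cov`, `St_Cnt`.

Proof. `w = 2 h + 1`, `l = ⌈x⌉₊` (`i < l` iff `(i : ℝ) < x`, `x ≤ l`). Let `G` be the event that all the rays from `((x', 1), N)` have height `< h + 1` at the times `i < l`. By
`St_Cov` (`I = tm x`, `u = ((x', 1), N)`) the complement has probability `≤ w qf p h x`. By `St_Cnt` `l 1_G ≤ |U h ω| = ∑ u, 1_{u ∈ U h ω}`; integrate: `l μ(G) ≤ ∑ u, μ(u ∈ U h ω) ≤ 4 h w P p h`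
by `St_Cov` with `I = univ`. If `1 - w qf p h x ≤ 0` the claim is trivial, otherwise `x (1 - w qf p h x) ≤ l μ(G)`. -/
def St_Cyl : Prop := ∀ p : ℝ, 0 ≤ p → p ≤ 1 → ∀ (h : ℕ) (x : ℝ), 1 ≤ h → 0 ≤ x →
  x * (1 - (2 * h + 1) * qf p h x) ≤ 4 * h * (2 * h + 1) * P p h

/-- **Tw3** (45 min). From `St_Cyl`, `St_Tw2`.

Proof. `qf p H ((4/3) ^ J H) ≤ F p 1 H ((4/3) ^ J H) ≤ 1 / (4 N + 2)` (`nm s0.1 = 1`; `N ≥ H ≥ 1`), so `(2 H + 1) qf ≤ 1/2`; `St_Cyl` with `x = (4/3) ^ J H`: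
`P p H ≥ (4/3) ^ J H / (8 H (2 H + 1)) ≥ (4/3) ^ J / (24 H)`. -/
def St_Tw3 : Prop := ∀ p : ℝ, 0 ≤ p → p ≤ 1 → ∀ K J H N : ℕ, 20 ≤ K → Twr p K J H → H ≤ N →
  20000 * (N : ℝ) ^ 9 ≤ 4 ^ K → (4 / 3 : ℝ) ^ J / (24 * H) ≤ P p H

/-! ### D. Towers -/

/-- **TA** (1 h). The upper bound for `T` as a scale condition; from `Stmt_fin`.

Proof. `T p m ≤ C m ^ (-1/13)`, `C > 0` wlog. Let `A` be an integer with `A ≥ 2` and `A ≥ (64 * 203 * C) ^ 13`. If `m ≥ A H ^ 13` then `m ^ (1/13) ≥ A ^ (1/13) H ≥ 64 * 203 * C * H`, so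
`(202 H + 1) T p m ≤ 203 H C / m ^ (1/13) ≤ 1/64`. -/
def St_TA : Prop := ∀ p : ℝ, 0 < p → p < 1 → ∃ A : ℕ, 2 ≤ A ∧ ∀ H m : ℕ, 1 ≤ H → A * H ^ 13 ≤ m →
  (202 * (H : ℝ) + 1) * T p m ≤ 1 / 64

/-- **TwA** (1 h). Towers with scales `h ↦ K A h ^ 13`.

Proof. (a) For all `j`: there is `H` with `Twr p K j H`, `1 ≤ H`, `H ≤ (K A) ^ (14 ^ j)`: `H = 1` for `j = 0`; step `m = A H ^ 13` (`≥ 2 H`), `K m ≤ (K A) ^ (1 + 13 * 14 ^ j) ≤ (K A) ^ (14 ^ (j + 1))`.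
(b) Let `H` be as in (a) for `j = J`. `K A H ^ 13 ≤ (K A) ^ (14 ^ (J + 1)) ≤ n`, so `A H ^ 13 ≤ n / K`. `m = n / K` (floor) gives `K m ∈ (n - K, n]`, `m = n / K + 1` gives
`K m ∈ (n, n + K]`. -/
def St_TwA : Prop := ∀ (p : ℝ) (A K J n : ℕ), 2 ≤ A → 1 ≤ K → (∀ H m : ℕ, 1 ≤ H → A * H ^ 13 ≤ m → (202 * (H : ℝ) + 1) * T p m ≤ 1 / 64) →
  (K * A) ^ (14 ^ (J + 1)) ≤ n →
  (∃ H, Twr p K (J + 1) H ∧ n ≤ H ∧ H ≤ n + K) ∧ ∃ H, Twr p K (J + 1) H ∧ n ≤ H + K ∧ H ≤ n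

/-- **AsA** (2 h). Choice of the parameters, I.

Proof. `K = 20 + 10 Nat.log 2 (2 n)`: `4 ^ K = 4 ^ 20 (2 ^ Nat.log 2 (2 n)) ^ 20 ≥ 4 ^ 20 n ^ 20 ≥ 20000 (2 n) ^ 9` (`2 n < 2 ^ (Nat.log 2 (2 n) + 1)`). `K ≤ 50 log n` for large `n`.
`J + 1 = ⌈(9/25) log log n⌉₊`. `log (4/3) > 0.28` (`exp 0.28 < 4/3`) so `(4/3) ^ (J + 1) ≥ (log n) ^ (0.1008)`, and `(log n) ^ 0.0008 → ∞`. `log 14 < 2.7`, so
`14 ^ (J + 1) ≤ 14 (log n) ^ (0.972)` and `14 ^ (J + 1) log (K A) ≤ 14 (log n) ^ 0.972 (log (50 A) + log log n) ≤ log n` for large `n`. -/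
def St_AsA : Prop := ∀ A : ℕ, 2 ≤ A → ∃ n0 : ℕ, ∀ n ≥ n0, ∃ K J : ℕ, 20 ≤ K ∧ 4 * K ≤ n ∧ 20000 * (2 * (n : ℝ)) ^ 9 ≤ 4 ^ K ∧
  (K * A) ^ (14 ^ (J + 1)) ≤ n ∧ 4 * (Real.log n) ^ (1 / 10 : ℝ) ≤ (4 / 3 : ℝ) ^ (J + 1)

/-- **AA** (1 h). First main result; from `St_TA`, `St_TwA`, `St_AsA`, `St_Tw3`, `St_Bas`.

Proof. For `n ≥ n0` (so that the parameters exist for `n + 1`): `St_TwA` for `n + 1`: `H ∈ [n + 1, 2 (n + 1)]`, and `Pn p n ≥ P p (n + 1) ≥ P p H ≥ (4/3) ^ (J + 1) / (24 H) ≥ 4 (log n) ^ (1/10) / (48 (n + 1))`. For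
`2 ≤ n < n0`: `Pn p n ≥ P p (n + 1) > 0` by `St_Cyl` with `x = 1` (`qf p h 1 = 0` for `h ≥ 1`: at time `0` the distance is `0`): `P p (n + 1) ≥ 1 / (4 (n + 1) (2 n + 3))`; take the minimum of finitely many
positive constants (or `c` small depending on `n0`). -/
def St_AA : Prop := ∀ p : ℝ, 0 < p → p < 1 → ∃ c : ℝ, 0 < c ∧ ∀ n : ℕ, 2 ≤ n →
  c * (Real.log n) ^ (1 / 10 : ℝ) / n ≤ Pn p n

/-- **CC** (1 h). Uniform lower bound for the number of steps; from `St_TA`, `St_TwA`, `St_AsA`, `St_Tw2`.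

Proof. For `n ≥ n0`: `H ≤ n`, `n ≤ H + K`, `4 K ≤ n`, so `H ≥ n / 2`. A ray from the box of radius `n` which reaches distance `n` at a time `< n (log n) ^ (1/10)` reaches the distance `H` at that
time, and `n (log n) ^ (1/10) ≤ 2 H * (1/4) (4/3) ^ (J + 1) ≤ (4/3) ^ (J + 1) H`. So the probability is at most `F p n H ((4/3) ^ (J + 1) H) ≤ 1 / (8 n + 2) ≤ 1 / n` (`N = 2 n`). -/
def St_CC : Prop := ∀ p : ℝ, 0 < p → p < 1 → ∃ n0 : ℕ, ∀ n ≥ n0,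
  F p n n (n * (Real.log n) ^ (1 / 10 : ℝ)) ≤ 1 / n

/-- **AsB** (2 h). Choice of the parameters, II.

Proof. `K = 20 + 10 Nat.log 2 N` as in `AsA`. `Γ = exp ((1/4) √(log N))`, `B = ⌈64 * 203 * Γ⌉₊`, `K B ≤ exp ((3/10) √(log N))` for large `N`. `h = ⌈√N⌉₊ ≤ 2 √N`. `J` the largest integer with
`(K B) ^ J h ≤ N`, or `J = ⌊(8/5) √(log N)⌋₊`: `(K B) ^ J h ≤ exp ((12/25) log N) 2 √N ≤ N` for large `N`. `(4/3) ^ J ≥ exp (0.28 ((8/5) √(log N) - 1)) ≥ 50 exp ((1/4) √(log N))` for large `N`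
(`0.28 * 8/5 = 0.448 > 1/4`). -/
def St_AsB : Prop := ∃ N0 : ℕ, ∀ N ≥ N0, ∃ K B J h : ℕ, 20 ≤ K ∧ 1 ≤ J ∧ 20000 * (N : ℝ) ^ 9 ≤ 4 ^ K ∧ 2 ≤ B ∧
  64 * 203 * Real.exp (1 / 4 * √(Real.log N)) ≤ B ∧ √(N : ℝ) ≤ h ∧ 1 ≤ h ∧ (K * B) ^ J * h ≤ N ∧
  50 * Real.exp (1 / 4 * √(Real.log N)) ≤ (4 / 3 : ℝ) ^ J

/-- **BB** (1.5 h). Second main result; from `St_AsB`, `St_Tw3`, `St_Bas`.

Proof. Let `Γ = exp ((1/4) √(log N))`; suppose `Pn p n < exp ((1/4) √(log n)) / n ≤ Γ / n` for all `n` with `√N ≤ n ≤ N`. Towers: for `j ≤ J` `Twr p K j ((K B) ^ j h)`: step with `m = B H`, `H = (K B) ^ j h`: `√N ≤ h ≤ m ≤ K m ≤ (K B) ^ J h ≤ N`,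
so `(202 H + 1) T p m ≤ 203 H Pn p m ≤ 203 H Γ / (B H) ≤ 1/64`. So with `H = (K B) ^ J h ≤ N`: `P p H ≥ (4/3) ^ J / (24 H) ≥ 50 Γ / (24 H)`. But `Pn p (H - 1) ≥ P p H`, and
`√N ≤ h ≤ H - 1` (`H ≥ 40 h`), so `Pn p (H - 1) < Γ / (H - 1) ≤ 2 Γ / H`, a contradiction. -/
def St_BB : Prop := ∃ N0 : ℕ, ∀ p : ℝ, 0 ≤ p → p ≤ 1 → ∀ N ≥ N0, ∃ n : ℕ, √(N : ℝ) ≤ n ∧ n ≤ N ∧
  Real.exp (1 / 4 * √(Real.log n)) / n ≤ Pn p n

end Pool.Agent.MLB
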