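import Pool.Agent.MLB.St

set_option autoImplicit false

/-!
# MLB, module TA: the upper bound for `T` as a scale condition
-/

open MeasureTheory Filter Mir Pool.Agent.MSB

noncomputable section

namespace Pool.Agent.MLB

theorem thm_TA (h1 : Mir.Stmt_fin) : St_TA := by
  intro p hp0 hp1
  obtain ⟨C, hC⟩ := h1 p hp0 hp1
  obtain ⟨A, hA⟩ := exists_nat_ge ((64 * 203 * max C 1) ^ 13 : ℝ)
  have hC1 : (1 : ℝ) ≤ max C 1 := le_max_right _ _
  refine ⟨max A 2, le_max_right _ _, fun H m hH hm => ?_⟩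
  have hHr : (1 : ℝ) ≤ (H : ℝ) := by exact_mod_cast hH
  have hA2 : ((64 * 203 * max C 1) ^ 13 : ℝ) ≤ ((max A 2 : ℕ) : ℝ) := by
    refine hA.trans ?_
    exact_mod_cast le_max_left A 2
  have hm1 : 1 ≤ m := by
    have : 1 ≤ max A 2 * H ^ 13 := Nat.mul_pos (by omega) (Nat.pow_pos (by omega))
    omega
  have hmr : (0 : ℝ) < (m : ℝ) := by exact_mod_cast hm1
  have a1 : (64 * 203 * max C 1 * H : ℝ) ^ 13 ≤ (m : ℝ) := by
    calc (64 * 203 * max C 1 * H : ℝ) ^ 13 = (64 * 203 * max C 1) ^ 13 * (H : ℝ) ^ 13 := by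
          rw [mul_pow]
      _ ≤ ((max A 2 : ℕ) : ℝ) * (H : ℝ) ^ 13 := mul_le_mul_of_nonneg_right hA2 (by positivity)
      _ = (((max A 2) * H ^ 13 : ℕ) : ℝ) := by push_cast; ring
      _ ≤ (m : ℝ) := by exact_mod_cast hm
  have hx0 : (0 : ℝ) < 64 * 203 * max C 1 * H := by positivity
  have a2 : (64 * 203 * max C 1 * H : ℝ) ≤ (m : ℝ) ^ (1 / 13 : ℝ) := by
    have b1 : ((64 * 203 * max C 1 * H : ℝ) ^ 13) ^ (1 / 13 : ℝ) = 64 * 203 * max C 1 * H := by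
      rw [← Real.rpow_natCast, ← Real.rpow_mul hx0.le]
      norm_num
    rw [← b1]
    exact Real.rpow_le_rpow (by positivity) a1 (by norm_num)
  have a3 : T p m ≤ max C 1 * ((m : ℝ) ^ (1 / 13 : ℝ))⁻¹ := by
    have b1 := hC m hm1
    rw [Real.rpow_neg hmr.le] at b1
    refine b1.trans ?_
    exact mul_le_mul_of_nonneg_right (le_max_left _ _) (by positivity)
  have a4 : ((m : ℝ) ^ (1 / 13 : ℝ))⁻¹ ≤ (64 * 203 * max C 1 * H)⁻¹ :=
    inv_anti₀ hx0 a2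
  have a5 : T p m ≤ (64 * 203 * (H : ℝ))⁻¹ := by
    refine a3.trans ?_
    calc max C 1 * ((m : ℝ) ^ (1 / 13 : ℝ))⁻¹ ≤ max C 1 * (64 * 203 * max C 1 * H)⁻¹ :=
          mul_le_mul_of_nonneg_left a4 (by positivity)
      _ = (64 * 203 * (H : ℝ))⁻¹ := by
        have : (max C 1 : ℝ) ≠ 0 := by positivity
        field_simp
  calc (202 * (H : ℝ) + 1) * T p m ≤ (202 * (H : ℝ) + 1) * (64 * 203 * (H : ℝ))⁻¹ :=
        mul_le_mul_of_nonneg_left a5 (by positivity)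
    _ ≤ (203 * (H : ℝ)) * (64 * 203 * (H : ℝ))⁻¹ :=
        mul_le_mul_of_nonneg_right (by linarith) (by positivity)
    _ = 1 / 64 := by
        have : (H : ℝ) ≠ 0 := by positivity
        field_simp

end Pool.Agent.MLB
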