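import Pool.Agent.MLB.St

/-!
# The mirror model, lower bounds: iteration over the scales
-/

set_option autoImplicit false

open MeasureTheory Filter Mir Pool.Agent.MSB

noncomputable section

namespace Pool.Agent.MLB

private theorem tow_base (hB : St_Bas) (p : ℝ) (r H : ℕ) :
    F p r H ((4 / 3 : ℝ) ^ 0 * (H : ℝ)) = 0 := by
  have hnm := hB.2.2.2.2.2.2.2.2.1
  have h1 : {ω : ℤ × ℤ → Fin 3 | ∃ s : (ℤ × ℤ) × Dir, nm s.1 ≤ r ∧
      ω ∈ Hit H (tm ((4 / 3 : ℝ) ^ 0 * (H : ℝ))) s} = ∅ := by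
    apply Set.eq_empty_of_forall_notMem
    rintro ω ⟨s, _, i, hi, hH⟩
    have h2 : (i : ℝ) < H := by
      have h3 : (i : ℝ) < (4 / 3 : ℝ) ^ 0 * (H : ℝ) := hi
      simpa using h3
    have h4 : i < H := by exact_mod_cast h2
    have h5 := hnm ω s i
    omega
  unfold F
  rw [h1]
  simp

theorem thm_Tow (hL : St_Lev) (hB : St_Bas) : St_Tow := by
  intro p hp0 hp1 K J H hK hT
  induction hT with
  | zero H hH =>
    refine ⟨by simpa using hH, ?_⟩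
    intro r D _
    rw [tow_base hB p r H]
    simp
  | succ J H m _ h2 h3 ih =>
    obtain ⟨ih1, ih2⟩ := ih
    have hH1 : 1 ≤ H := le_trans (Nat.one_le_pow _ _ (by norm_num)) ih1
    have hKm : m ≤ K * m := Nat.le_mul_of_pos_left m (by omega)
    have hHK : H ≤ K * m := by omega
    refine ⟨?_, ?_⟩
    · calc 40 ^ (J + 1) = 40 ^ J * 40 := pow_succ _ _
        _ ≤ H * 40 := Nat.mul_le_mul_right _ ih1
        _ = 20 * (2 * H) := by ring
        _ ≤ K * m := Nat.mul_le_mul hK h2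
    · intro r D hD
      have hpow : (4 / 3 : ℝ) ^ (J + 1) = (4 / 3) * (4 / 3 : ℝ) ^ J := by rw [pow_succ]; ring
      have hpos : (0 : ℝ) ≤ (4 / 3 : ℝ) ^ J := by positivity
      rw [hpow] at hD ⊢
      have hHK' : (H : ℝ) ≤ ((K * m : ℕ) : ℝ) := by exact_mod_cast hHK
      have hKm' : (m : ℝ) ≤ ((K * m : ℕ) : ℝ) := by exact_mod_cast hKm
      have hc0 : (0 : ℝ) ≤ ((K * m : ℕ) : ℝ) := Nat.cast_nonneg _
      have hD2 : (4 / 3 : ℝ) ^ J * (H : ℝ) ≤ (D : ℝ) := by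
        have e1 : (4 / 3 : ℝ) ^ J * (H : ℝ) ≤ (4 / 3 : ℝ) ^ J * ((K * m : ℕ) : ℝ) :=
          mul_le_mul_of_nonneg_left hHK' hpos
        have e2 : (0 : ℝ) ≤ (4 / 3 : ℝ) ^ J * ((K * m : ℕ) : ℝ) := mul_nonneg hpos hc0
        have e3 : 4 / 3 * (4 / 3 : ℝ) ^ J * ((K * m : ℕ) : ℝ) =
            4 / 3 * ((4 / 3 : ℝ) ^ J * ((K * m : ℕ) : ℝ)) := by ring
        rw [e3] at hD
        linarith
      have hlev := hL p hp0 hp1 r H m K D ((4 / 3 : ℝ) ^ J) hpos hH1 h2 hK h3 hD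
      have hih := ih2 (r + D) D hD2
      have hq : (0 : ℝ) ≤ (1 / 4 : ℝ) ^ (K - 1) := by positivity
      have hr : (0 : ℝ) ≤ (r : ℝ) := Nat.cast_nonneg _
      have hDn : (0 : ℝ) ≤ (D : ℝ) := Nat.cast_nonneg _
      have hJ : (0 : ℝ) ≤ (J : ℝ) := Nat.cast_nonneg _
      have hX : (2 * (r : ℝ) + 1) ^ 2 ≤ (2 * ((r : ℝ) + ((J : ℝ) + 1) * D) + 1) ^ 2 := by
        apply pow_le_pow_left₀ (by positivity)
        have : 0 ≤ ((J : ℝ) + 1) * D := by positivity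
        linarith
      have e1 : 16 * (J : ℝ) * (2 * ((((r + D : ℕ) : ℝ)) + J * D) + 1) ^ 2 * H * (1 / 4 : ℝ) ^ (K - 1) ≤
          16 * (J : ℝ) * (2 * ((r : ℝ) + ((J : ℝ) + 1) * D) + 1) ^ 2 * ((K * m : ℕ) : ℝ) *
            (1 / 4 : ℝ) ^ (K - 1) := by
        have e0 : (((r + D : ℕ) : ℝ)) + J * D = (r : ℝ) + ((J : ℝ) + 1) * D := by
          push_cast
          ring
        rw [e0]
        apply mul_le_mul_of_nonneg_right _ hq
        exact mul_le_mul_of_nonneg_left hHK' (by positivity)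
      have e2 : 16 * (2 * (r : ℝ) + 1) ^ 2 * m * (1 / 4 : ℝ) ^ (K - 1) ≤
          16 * (2 * ((r : ℝ) + ((J : ℝ) + 1) * D) + 1) ^ 2 * ((K * m : ℕ) : ℝ) * (1 / 4 : ℝ) ^ (K - 1) := by
        apply mul_le_mul_of_nonneg_right _ hq
        exact mul_le_mul (mul_le_mul_of_nonneg_left hX (by norm_num)) hKm' (Nat.cast_nonneg _)
          (by positivity)
      have e3 : 16 * ((J + 1 : ℕ) : ℝ) * (2 * ((r : ℝ) + ((J + 1 : ℕ) : ℝ) * D) + 1) ^ 2 * ((K * m : ℕ) : ℝ) *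
          (1 / 4 : ℝ) ^ (K - 1) =
          16 * (J : ℝ) * (2 * ((r : ℝ) + ((J : ℝ) + 1) * D) + 1) ^ 2 * ((K * m : ℕ) : ℝ) *
            (1 / 4 : ℝ) ^ (K - 1) +
          16 * (2 * ((r : ℝ) + ((J : ℝ) + 1) * D) + 1) ^ 2 * ((K * m : ℕ) : ℝ) * (1 / 4 : ℝ) ^ (K - 1) := by
        push_cast
        ring
      rw [e3]
      linarith

end Pool.Agent.MLB
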