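import Pool.Agent.MLB.St

set_option autoImplicit false

/-!
# MLB, module Tw2: numerical form of the iteration
-/

open MeasureTheory Filter Mir Pool.Agent.MSB

noncomputable section

namespace Pool.Agent.MLB

theorem thm_Tw2 (h1 : St_Tow) : St_Tw2 := by
  intro p hp0 hp1 K J H N r hK hT hHN hr hbig
  obtain ⟨h40, hTow⟩ := h1 p hp0 hp1 K J H hK hT
  have hH1 : 1 ≤ H := (Nat.one_le_pow _ _ (by norm_num)).trans h40
  have hN1 : 1 ≤ N := hH1.trans hHN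
  have hJN : J ≤ N := by
    have : J < 40 ^ J := Nat.lt_pow_self (by norm_num)
    omega
  have hNr : (1 : ℝ) ≤ (N : ℝ) := by exact_mod_cast hN1
  have hHr : (H : ℝ) ≤ (N : ℝ) := by exact_mod_cast hHN
  have hJr : (J : ℝ) ≤ (N : ℝ) := by exact_mod_cast hJN
  have hrr : (r : ℝ) ≤ 2 * (N : ℝ) := by exact_mod_cast hr
  have h43 : (4 / 3 : ℝ) ^ J ≤ N := by
    calc (4 / 3 : ℝ) ^ J ≤ 40 ^ J := pow_le_pow_left₀ (by norm_num) (by norm_num) J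
      _ ≤ (H : ℝ) := by exact_mod_cast h40
      _ ≤ N := hHr
  have hD : (4 / 3 : ℝ) ^ J * H ≤ ((N ^ 2 : ℕ) : ℝ) := by
    push_cast
    calc (4 / 3 : ℝ) ^ J * H ≤ N * N := mul_le_mul h43 hHr (by positivity) (by positivity)
      _ = (N : ℝ) ^ 2 := by ring
  refine (hTow r (N ^ 2) hD).trans ?_
  push_cast
  set q : ℝ := (1 / 4 : ℝ) ^ K with hq
  have hq0 : 0 < q := by positivity
  have hqK : (1 / 4 : ℝ) ^ (K - 1) = 4 * q := by
    have : K = (K - 1) + 1 := by omega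
    rw [hq]
    conv_rhs => rw [this, pow_succ]
    ring
  have hqb : 20000 * (N : ℝ) ^ 9 * q ≤ 1 := by
    have e : (4 : ℝ) ^ K * q = 1 := by
      rw [hq, ← mul_pow]
      norm_num
    calc 20000 * (N : ℝ) ^ 9 * q ≤ 4 ^ K * q := mul_le_mul_of_nonneg_right hbig hq0.le
      _ = 1 := e
  have hN3 : (N : ℝ) ≤ (N : ℝ) ^ 3 := by
    have : (1 : ℝ) ≤ (N : ℝ) ^ 2 := one_le_pow₀ hNr
    nlinarith
  have h7 : 2 * ((r : ℝ) + J * (N : ℝ) ^ 2) + 1 ≤ 7 * (N : ℝ) ^ 3 := by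
    have : (J : ℝ) * (N : ℝ) ^ 2 ≤ (N : ℝ) ^ 3 := by
      calc (J : ℝ) * (N : ℝ) ^ 2 ≤ N * (N : ℝ) ^ 2 := mul_le_mul_of_nonneg_right hJr (by positivity)
        _ = (N : ℝ) ^ 3 := by ring
    linarith
  have h7' : (2 * ((r : ℝ) + J * (N : ℝ) ^ 2) + 1) ^ 2 ≤ (7 * (N : ℝ) ^ 3) ^ 2 :=
    pow_le_pow_left₀ (by positivity) h7 2
  rw [hqK]
  have main : 16 * (J : ℝ) * (2 * ((r : ℝ) + J * (N : ℝ) ^ 2) + 1) ^ 2 * H * (4 * q) ≤
      3136 * (N : ℝ) ^ 8 * q := by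
    calc 16 * (J : ℝ) * (2 * ((r : ℝ) + J * (N : ℝ) ^ 2) + 1) ^ 2 * H * (4 * q)
        ≤ 16 * (N : ℝ) * (7 * (N : ℝ) ^ 3) ^ 2 * N * (4 * q) := by
          gcongr
      _ = 3136 * (N : ℝ) ^ 8 * q := by ring
  refine main.trans ?_
  rw [le_div_iff₀ (by positivity)]
  have hN8 : (0 : ℝ) < (N : ℝ) ^ 8 := by positivity
  have e1 : 3136 * (N : ℝ) ^ 8 * q * (4 * N + 2) ≤ 20000 * (N : ℝ) ^ 9 * q := by
    have : 3136 * (4 * (N : ℝ) + 2) ≤ 20000 * N := by linarith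
    calc 3136 * (N : ℝ) ^ 8 * q * (4 * N + 2) = (N : ℝ) ^ 8 * q * (3136 * (4 * (N : ℝ) + 2)) := by
          ring
      _ ≤ (N : ℝ) ^ 8 * q * (20000 * N) := mul_le_mul_of_nonneg_left this (by positivity)
      _ = 20000 * (N : ℝ) ^ 9 * q := by ring
  exact e1.trans hqb

end Pool.Agent.MLB
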