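import Pool.Agent.MLB.St

set_option autoImplicit false

/-!
# MLB, module Tw3: lower bound for `P` from a tower of scales
-/

open MeasureTheory Filter Mir Pool.Agent.MSB

noncomputable section

namespace Pool.Agent.MLB

private theorem Tw3_pos {p : ℝ} {K J H : ℕ} (hK : 1 ≤ K) (hT : Twr p K J H) : 1 ≤ H := by
  induction hT with
  | zero H h => exact h
  | succ J H m hT h2 h3 ih => exact Nat.mul_pos (by omega) (by omega)

theorem thm_Tw3 (h1 : St_Cyl) (h2 : St_Tw2) : St_Tw3 := by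
  intro p hp0 hp1 K J H N hK hT hHN hbig
  have hH1 : 1 ≤ H := Tw3_pos (by omega) hT
  have hN1 : 1 ≤ N := hH1.trans hHN
  have hprob : IsProbabilityMeasure (mir p) := mir_isProb hp0 hp1
  have a1 : qf p H ((4 / 3 : ℝ) ^ J * H) ≤ F p 1 H ((4 / 3 : ℝ) ^ J * H) := by
    unfold qf F
    apply measureReal_mono
    · intro ω hω
      refine ⟨s0, ?_, hω⟩
      simp [s0, nm]
    · exact measure_ne_top _ _
  have a2 := h2 p hp0 hp1 K J H N 1 hK hT hHN (by omega) hbig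
  have hHr : (1 : ℝ) ≤ (H : ℝ) := by exact_mod_cast hH1
  have hHNr : (H : ℝ) ≤ (N : ℝ) := by exact_mod_cast hHN
  have hq : qf p H ((4 / 3 : ℝ) ^ J * H) ≤ 1 / (4 * N + 2) := a1.trans a2
  have a3 : (2 * (H : ℝ) + 1) * qf p H ((4 / 3 : ℝ) ^ J * H) ≤ 1 / 2 := by
    calc (2 * (H : ℝ) + 1) * qf p H ((4 / 3 : ℝ) ^ J * H) ≤ (2 * (H : ℝ) + 1) * (1 / (4 * N + 2)) :=
          mul_le_mul_of_nonneg_left hq (by positivity)
      _ ≤ (2 * (N : ℝ) + 1) * (1 / (4 * N + 2)) :=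
          mul_le_mul_of_nonneg_right (by linarith) (by positivity)
      _ = 1 / 2 := by
        have : (4 * (N : ℝ) + 2) ≠ 0 := by positivity
        field_simp
        ring
  have hx : (0 : ℝ) < (4 / 3 : ℝ) ^ J * H := by positivity
  have a4 := h1 p hp0 hp1 H ((4 / 3 : ℝ) ^ J * H) hH1 hx.le
  have a5 : (4 / 3 : ℝ) ^ J * H * (1 / 2) ≤ 4 * H * (2 * H + 1) * P p H := by
    refine le_trans ?_ a4
    apply mul_le_mul_of_nonneg_left _ hx.le
    linarith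
  have hP0 : 0 ≤ P p H := measureReal_nonneg
  have a6 : 4 * (H : ℝ) * (2 * H + 1) * P p H ≤ 12 * (H : ℝ) ^ 2 * P p H := by
    apply mul_le_mul_of_nonneg_right _ hP0
    nlinarith
  have a7 : (4 / 3 : ℝ) ^ J * H * (1 / 2) ≤ 12 * (H : ℝ) ^ 2 * P p H := a5.trans a6
  rw [div_le_iff₀ (by positivity)]
  have hH0 : (0 : ℝ) < (H : ℝ) := by positivity
  have a8 : (H : ℝ) * ((4 / 3 : ℝ) ^ J) ≤ (H : ℝ) * (P p H * (24 * H)) := by
    calc (H : ℝ) * ((4 / 3 : ℝ) ^ J) = 2 * ((4 / 3 : ℝ) ^ J * H * (1 / 2)) := by ring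
      _ ≤ 2 * (12 * (H : ℝ) ^ 2 * P p H) := by linarith
      _ = (H : ℝ) * (P p H * (24 * H)) := by ring
  exact le_of_mul_le_mul_left a8 hH0

end Pool.Agent.MLB
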