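import Pool.Agent.MLB.St

set_option autoImplicit false

/-!
# MLB, module TwA: towers with the scales `h ↦ K A h ^ 13`
-/

open MeasureTheory Filter Mir Pool.Agent.MSB

noncomputable section

namespace Pool.Agent.MLB

private theorem TwA_two {A H : ℕ} (hA : 2 ≤ A) (hH : 1 ≤ H) : 2 * H ≤ A * H ^ 13 := by
  have h1 : H ≤ H ^ 13 := Nat.le_self_pow (by norm_num) H
  exact Nat.mul_le_mul hA h1

private theorem TwA_tower (p : ℝ) (A K : ℕ) (hA : 2 ≤ A) (hK : 1 ≤ K)
    (h : ∀ H m : ℕ, 1 ≤ H → A * H ^ 13 ≤ m → (202 * (H : ℝ) + 1) * T p m ≤ 1 / 64) (j : ℕ) :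
    ∃ H, Twr p K j H ∧ 1 ≤ H ∧ H ≤ (K * A) ^ (14 ^ j) := by
  have hKA : 1 ≤ K * A := Nat.mul_pos (by omega) (by omega)
  induction j with
  | zero =>
    refine ⟨1, Twr.zero 1 le_rfl, le_rfl, ?_⟩
    rw [pow_zero, pow_one]
    exact hKA
  | succ j ih =>
    obtain ⟨H, hT, hH, hb⟩ := ih
    refine ⟨K * (A * H ^ 13), Twr.succ j H _ hT (TwA_two hA hH) (h H _ hH le_rfl), ?_, ?_⟩
    · exact Nat.mul_pos (by omega) (Nat.mul_pos (by omega) (Nat.pow_pos (by omega)))
    · have h1 : 1 ≤ 14 ^ j := Nat.one_le_pow _ _ (by norm_num)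
      calc K * (A * H ^ 13) = (K * A) * H ^ 13 := by ring
        _ ≤ (K * A) * ((K * A) ^ (14 ^ j)) ^ 13 := Nat.mul_le_mul_left _ (Nat.pow_le_pow_left hb 13)
        _ = (K * A) ^ (1 + 14 ^ j * 13) := by rw [← pow_mul, pow_add, pow_one]
        _ ≤ (K * A) ^ (14 ^ (j + 1)) := by
          apply Nat.pow_le_pow_right hKA
          rw [pow_succ 14 j]
          omega

theorem thm_TwA : St_TwA := by
  intro p A K J n hA hK h hn
  obtain ⟨H, hT, hH, hb⟩ := TwA_tower p A K hA hK h J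
  have hKA : 1 ≤ K * A := Nat.mul_pos (by omega) (by omega)
  have h2 := TwA_two hA hH
  have h1 : K * (A * H ^ 13) ≤ n := by
    refine le_trans ?_ hn
    have h1 : 1 ≤ 14 ^ J := Nat.one_le_pow _ _ (by norm_num)
    calc K * (A * H ^ 13) = (K * A) * H ^ 13 := by ring
      _ ≤ (K * A) * ((K * A) ^ (14 ^ J)) ^ 13 := Nat.mul_le_mul_left _ (Nat.pow_le_pow_left hb 13)
      _ = (K * A) ^ (1 + 14 ^ J * 13) := by rw [← pow_mul, pow_add, pow_one]
      _ ≤ (K * A) ^ (14 ^ (J + 1)) := by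
        apply Nat.pow_le_pow_right hKA
        rw [pow_succ 14 J]
        omega
  have h3 : A * H ^ 13 ≤ n / K := by
    rw [Nat.le_div_iff_mul_le (by omega), mul_comm]
    exact h1
  have h4 : K * (n / K) ≤ n := Nat.mul_div_le n K
  have h5 : n < K * (n / K) + K := by
    have := Nat.lt_mul_div_succ n (show 0 < K by omega)
    rw [Nat.mul_add, mul_one] at this
    exact this
  constructor
  · refine ⟨K * (n / K + 1), Twr.succ J H _ hT (by omega) (h H _ hH (by omega)), ?_, ?_⟩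
    · rw [Nat.mul_add, mul_one]
      omega
    · rw [Nat.mul_add, mul_one]
      omega
  · refine ⟨K * (n / K), Twr.succ J H _ hT (by omega) (h H _ hH h3), ?_, h4⟩
    omega

end Pool.Agent.MLB
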